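import Mathlib

set_option autoImplicit false

open MeasureTheory Filter Topology Set
open scoped FourierTransform SchwartzMap

namespace Pool.Agent.H382R3.KD

/-- The Kesten condition. -/
def Kesten (D γ : ℝ) : Prop := ∃ j l : ℤ, D = j * γ + l

/-- The staircase attached to `D, γ, x₀`: `p 0 = 0` and `p (n+1) - p n` is `(0,1)` when
`x₀ + n γ mod 1` lies in `[0, D)` and `(1,0)` otherwise. -/
def IsStaircase (D γ x₀ : ℝ) (p : ℤ → ℤ × ℤ) : Prop :=
  p 0 = 0 ∧ ∀ n : ℤ, p (n + 1) - p n = if Int.fract (x₀ + n * γ) < D then (0, 1) else (1, 0)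

/-- Coordinate, along the unit vector `(1-D, D)/√((1-D)²+D²)`, of the orthogonal projection of a
lattice point onto the line spanned by `(1-D, D)`. -/
noncomputable def proj (D : ℝ) (v : ℤ × ℤ) : ℝ :=
  ((1 - D) * v.1 + D * v.2) / Real.sqrt ((1 - D) ^ 2 + D ^ 2)

/-- `η` is the autocorrelation of `Λ`: it is a locally finite measure and the measures
`(1/2T) ∑_{x,y ∈ Λ ∩ [-T,T]} δ_{x-y}` converge vaguely to it. -/
def IsAutocorrelation (Λ : Set ℝ) (η : Measure ℝ) : Prop :=
  IsLocallyFiniteMeasure η ∧ (∀ T : ℝ, (Λ ∩ Icc (-T) T).Finite) ∧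
    ∀ φ : ℝ → ℝ, Continuous φ → HasCompactSupport φ →
      Tendsto (fun T : ℝ => 1 / (2 * T) *
        ∑ᶠ q ∈ (Λ ∩ Icc (-T) T) ×ˢ (Λ ∩ Icc (-T) T), φ (q.1 - q.2)) atTop (𝓝 (∫ x, φ x ∂η))

/-- `μ` is the Fourier transform of `η` in the sense of tempered distributions. -/
def IsFourierTransformOf (η μ : Measure ℝ) : Prop :=
  IsLocallyFiniteMeasure μ ∧ ∀ f : 𝓢(ℝ, ℂ),
    Integrable (fun x => (𝓕 f : 𝓢(ℝ, ℂ)) x) η ∧ Integrable (fun s => f s) μ ∧
    ∫ x, (𝓕 f : 𝓢(ℝ, ℂ)) x ∂η = ∫ s, f s ∂μ

/-- The diffraction condition: the autocorrelation exists, and the diffraction measure (its Fourier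
transform, a positive measure) has countably infinitely many atoms. -/
def DiffractionCondition (Λ : Set ℝ) : Prop :=
  ∃ η μ : Measure ℝ, IsAutocorrelation Λ η ∧ IsFourierTransformOf η μ ∧
    {s : ℝ | μ {s} ≠ 0}.Infinite ∧ {s : ℝ | μ {s} ≠ 0}.Countable

/-! ### circle functions -/

/-- The circle `R/Z`. -/
abbrev Circ : Type := AddCircle (1 : ℝ)

/-- the representative in `[0,1)` -/
noncomputable def fr (x : Circ) : ℝ := (AddCircle.equivIco 1 0 x : ℝ)

lemma fr_coe (t : ℝ) : fr (t : Circ) = Int.fract t := by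
  unfold fr
  have := AddCircle.coe_equivIco_mk_apply (1 : ℝ) t
  rw [show ((t : ℝ) : Circ) = QuotientAddGroup.mk t from rfl, this]
  simp

lemma fr_nonneg (x : Circ) : 0 ≤ fr x := (AddCircle.equivIco 1 0 x).2.1
lemma fr_lt_one (x : Circ) : fr x < 1 := by
  have := (AddCircle.equivIco 1 0 x).2.2
  simpa [fr] using this

lemma coe_fr (x : Circ) : ((fr x : ℝ) : Circ) = x := by
  unfold fr
  exact (AddCircle.equivIco 1 0).symm_apply_apply x

lemma measurable_fr : Measurable fr :=
  measurable_subtype_coe.comp (AddCircle.measurableEquivIco (T := 1) 0).measurable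

lemma continuousAt_fr {x : Circ} (hx : x ≠ 0) : ContinuousAt fr x := by
  have := AddCircle.continuousAt_equivIco (1 : ℝ) (0 : ℝ) (x := x) (by simpa using hx)
  exact continuous_subtype_val.continuousAt.comp this

/-- key identity -/
lemma fr_sub (x : Circ) {D : ℝ} (h0 : 0 < D) (h1 : D < 1) :
    fr x - fr (x - (D : Circ)) = D - (if fr x < D then 1 else 0) := by
  obtain ⟨t, rfl⟩ : ∃ t : ℝ, (t : Circ) = x := ⟨fr x, coe_fr x⟩
  have hs : ((t : ℝ) : Circ) - (D : Circ) = ((t - D : ℝ) : Circ) := rfl
  rw [hs, fr_coe, fr_coe]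
  have hfl : Int.fract (t - D) = Int.fract (Int.fract t - D) := by
    conv_lhs => rw [← Int.floor_add_fract t]
    rw [add_sub_assoc, Int.fract_intCast_add]
  have hf0 := Int.fract_nonneg t
  have hf1 := Int.fract_lt_one t
  rw [hfl]
  split_ifs with h
  · have : Int.fract (Int.fract t - D) = Int.fract t - D + 1 := by
      rw [Int.fract_eq_iff]
      refine ⟨by linarith, by linarith, -1, by push_cast; ring⟩
    rw [this]; ring
  · have : Int.fract (Int.fract t - D) = Int.fract t - D := by
      rw [Int.fract_eq_iff]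
      refine ⟨by linarith, by linarith, 0, by push_cast; ring⟩
    rw [this]; ring

lemma integrable_of_bdd {f : Circ → ℝ} (hf : Measurable f) {B : ℝ} (hB : ∀ x, |f x| ≤ B) :
    Integrable f := by
  refine Integrable.of_bound hf.aestronglyMeasurable B ?_
  exact Eventually.of_forall hB

lemma integrable_of_bddC {f : Circ → ℂ} (hf : Measurable f) {B : ℝ} (hB : ∀ x, ‖f x‖ ≤ B) :
    Integrable f := by
  refine Integrable.of_bound hf.aestronglyMeasurable B ?_
  exact Eventually.of_forall hB

lemma integrable_fr : Integrable fr :=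
  integrable_of_bdd measurable_fr (B := 1) (fun x => by
    rw [abs_of_nonneg (fr_nonneg x)]; exact (fr_lt_one x).le)

lemma vol_univ : (volume : Measure Circ) univ = 1 := by
  simp

lemma integral_ite_fr {D : ℝ} (h0 : 0 < D) (h1 : D < 1) :
    ∫ x : Circ, (if fr x < D then (1 : ℝ) else 0) = D := by
  have h : ∀ x : Circ, (if fr x < D then (1 : ℝ) else 0) = D - (fr x - fr (x - (D : Circ))) := by
    intro x; rw [fr_sub x h0 h1]; ring
  simp_rw [h]
  have hi : Integrable (fun x : Circ => fr (x - (D : Circ))) :=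
    integrable_fr.comp_sub_right _
  have hi' : Integrable (fun x : Circ => fr x - fr (x - (D : Circ))) := integrable_fr.sub hi
  rw [integral_sub (integrable_const _) hi', integral_sub integrable_fr hi,
    integral_sub_right_eq_self fr (D : Circ)]
  simp [Measure.real]

lemma integral_abs_fr {h : ℝ} (h0 : 0 < h) (h1 : h < 1) :
    ∫ x : Circ, |fr (x + (h : Circ)) - fr x| ≤ 2 * h := by
  have hm : Measurable (fun x : Circ => (if fr x < h then (1 : ℝ) else 0)) :=
    Measurable.ite (measurableSet_lt measurable_fr measurable_const) measurable_const measurable_const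
  have hi1 : Integrable (fun x : Circ => (if fr x < h then (1 : ℝ) else 0)) :=
    integrable_of_bdd hm (B := 1) (fun x => by split_ifs <;> simp)
  have hpt : ∀ x : Circ, |fr (x + (h : Circ)) - fr x| ≤
      h + (if fr (x + (h : Circ)) < h then (1 : ℝ) else 0) := by
    intro x
    have := fr_sub (x + (h : Circ)) h0 h1
    rw [add_sub_cancel_right] at this
    rw [this]
    split_ifs
    · rw [abs_le]; constructor <;> linarith
    · rw [abs_le]; constructor <;> linarith
  have hi2 : Integrable (fun x : Circ => (if fr (x + (h : Circ)) < h then (1 : ℝ) else 0)) :=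
    hi1.comp_add_right (h : Circ)
  calc ∫ x : Circ, |fr (x + (h : Circ)) - fr x|
      ≤ ∫ x : Circ, (h + (if fr (x + (h : Circ)) < h then (1 : ℝ) else 0)) := by
        apply integral_mono_of_nonneg
        · exact Eventually.of_forall (fun x => abs_nonneg _)
        · exact (integrable_const _).add hi2
        · exact Eventually.of_forall hpt
    _ = h + ∫ x : Circ, (if fr (x + (h : Circ)) < h then (1 : ℝ) else 0) := by
        rw [integral_add (integrable_const _) hi2]
        simp [Measure.real]
    _ = h + h := by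
        rw [integral_add_right_eq_self (fun x : Circ => (if fr x < h then (1 : ℝ) else 0)) (h : Circ),
          integral_ite_fr h0 h1]
    _ = 2 * h := by ring

/-! ### the step function -/

/-- `κ` -/
noncomputable def kap (D : ℝ) : ℝ := Real.sqrt ((1 - D) ^ 2 + D ^ 2)

lemma kap_sq (D : ℝ) : kap D ^ 2 = (1 - D) ^ 2 + D ^ 2 := Real.sq_sqrt (by positivity)

lemma kap_pos {D : ℝ} (h0 : 0 < D) : 0 < kap D := Real.sqrt_pos.2 (by positivity)

/-- gap length at a point of the circle -/
noncomputable def rr (D : ℝ) (x : Circ) : ℝ := (if fr x < D then D else 1 - D) / kap D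

/-- cocycle -/
noncomputable def FF (D : ℝ) (a : Circ) (k : ℤ) (x : Circ) : ℝ :=
  ∑ i ∈ Finset.Ico 0 k, rr D (x + i • a) - ∑ i ∈ Finset.Ico k 0, rr D (x + i • a)

lemma FF_zero (D : ℝ) (a x : Circ) : FF D a 0 x = 0 := by simp [FF]

lemma FF_succ (D : ℝ) (a : Circ) (k : ℤ) (x : Circ) :
    FF D a (k + 1) x = FF D a k x + rr D (x + k • a) := by
  unfold FF
  rcases le_or_gt 0 k with hk | hk
  · rw [show Finset.Ico (k+1) 0 = ∅ from Finset.Ico_eq_empty_of_le (by omega),
      show Finset.Ico k 0 = ∅ from Finset.Ico_eq_empty_of_le hk]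
    have : Finset.Ico 0 (k+1) = insert k (Finset.Ico 0 k) := by
      ext i; simp only [Finset.mem_Ico, Finset.mem_insert]; omega
    rw [this, Finset.sum_insert (by simp)]
    simp; ring
  · rw [show Finset.Ico 0 (k+1) = ∅ from Finset.Ico_eq_empty_of_le (by omega),
      show Finset.Ico 0 k = ∅ from Finset.Ico_eq_empty_of_le hk.le]
    have : Finset.Ico k 0 = insert k (Finset.Ico (k+1) 0) := by
      ext i; simp only [Finset.mem_Ico, Finset.mem_insert]; omega
    rw [this, Finset.sum_insert (by simp)]
    simp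

/-- induction principle: two functions on `ℤ` with same value at `0` and same increments agree -/
lemma int_ext {E : Type*} [AddCommGroup E] {u v : ℤ → E} (h0 : u 0 = v 0)
    (h : ∀ k, u (k + 1) - u k = v (k + 1) - v k) : u = v := by
  funext k
  induction k using Int.induction_on with
  | zero => exact h0
  | succ i ih =>
    have := h i
    rw [ih] at this
    exact sub_left_injective this
  | pred i ih =>
    have := h (-i - 1)
    rw [show (-(i:ℤ) - 1 + 1) = -i by ring, ih] at this
    exact sub_right_injective this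

lemma rr_pos {D : ℝ} (h0 : 0 < D) (h1 : D < 1) (x : Circ) : 0 < rr D x := by
  unfold rr
  have := kap_pos h0
  split_ifs
  · positivity
  · apply div_pos (by linarith) this

lemma rr_ge {D : ℝ} (h0 : 0 < D) (x : Circ) : min D (1 - D) / kap D ≤ rr D x := by
  unfold rr
  have := kap_pos h0
  split_ifs
  · gcongr; exact min_le_left _ _
  · gcongr; exact min_le_right _ _

lemma rr_le {D : ℝ} (h0 : 0 < D) (h1 : D < 1) (x : Circ) : rr D x ≤ 1 / kap D := by
  unfold rr
  have := kap_pos h0
  split_ifs
  · gcongr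
  · gcongr; linarith

lemma measurable_rr (D : ℝ) : Measurable (rr D) := by
  unfold rr
  exact (Measurable.ite (measurableSet_lt measurable_fr measurable_const) measurable_const
    measurable_const).div_const _

lemma measurable_FF (D : ℝ) (a : Circ) (k : ℤ) : Measurable (FF D a k) := by
  unfold FF
  refine Measurable.sub ?_ ?_
  · exact Finset.measurable_fun_sum _ (fun i _ => (measurable_rr D).comp (measurable_add_const _))
  · exact Finset.measurable_fun_sum _ (fun i _ => (measurable_rr D).comp (measurable_add_const _))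

lemma rr_eq {D : ℝ} (x : Circ) :
    rr D x = (1 - D) / kap D + (2 * D - 1) / kap D * (if fr x < D then 1 else 0) := by
  unfold rr
  split_ifs <;> ring

lemma integral_rr {D : ℝ} (h0 : 0 < D) (h1 : D < 1) : ∫ x : Circ, rr D x = kap D := by
  simp_rw [rr_eq]
  have hm : Measurable (fun x : Circ => (if fr x < D then (1 : ℝ) else 0)) :=
    Measurable.ite (measurableSet_lt measurable_fr measurable_const) measurable_const measurable_const
  have hi1 : Integrable (fun x : Circ => (if fr x < D then (1 : ℝ) else 0)) :=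
    integrable_of_bdd hm (B := 1) (fun x => by split_ifs <;> simp)
  rw [integral_add (integrable_const _) (hi1.const_mul _), integral_const_mul, integral_ite_fr h0 h1]
  have := kap_pos h0
  have h2 := kap_sq D
  simp [Measure.real]
  field_simp
  rw [h2]; ring

lemma FF_ge {D : ℝ} (h0 : 0 < D) (h1 : D < 1) (a : Circ) (k : ℤ) (x : Circ) :
    min D (1 - D) / kap D * |(k : ℝ)| ≤ |FF D a k x| := by
  unfold FF
  rcases le_or_gt 0 k with hk | hk
  · rw [show Finset.Ico k 0 = ∅ from Finset.Ico_eq_empty_of_le hk]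
    simp only [Finset.sum_empty, sub_zero]
    rw [abs_of_nonneg (Finset.sum_nonneg (fun i _ => (rr_pos h0 h1 _).le)),
      abs_of_nonneg (by exact_mod_cast hk)]
    calc min D (1 - D) / kap D * (k : ℝ) = ∑ i ∈ Finset.Ico 0 k, min D (1 - D) / kap D := by
          rw [Finset.sum_const, Int.card_Ico, nsmul_eq_mul]
          have : (((k - 0).toNat : ℕ) : ℝ) = k := by
            have : (((k - 0).toNat : ℕ) : ℤ) = k := by omega
            exact_mod_cast this
          rw [this]; ring
      _ ≤ _ := Finset.sum_le_sum (fun i _ => rr_ge h0 _)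
  · rw [show Finset.Ico 0 k = ∅ from Finset.Ico_eq_empty_of_le hk.le]
    simp only [Finset.sum_empty, zero_sub, abs_neg]
    rw [abs_of_nonneg (Finset.sum_nonneg (fun i _ => (rr_pos h0 h1 _).le)),
      abs_of_neg (by exact_mod_cast hk)]
    calc min D (1 - D) / kap D * (-(k : ℝ)) = ∑ i ∈ Finset.Ico k 0, min D (1 - D) / kap D := by
          rw [Finset.sum_const, Int.card_Ico, nsmul_eq_mul]
          have : (((0 - k).toNat : ℕ) : ℝ) = -k := by
            have : (((0 - k).toNat : ℕ) : ℤ) = -k := by omega
            exact_mod_cast this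
          rw [this]; ring
      _ ≤ _ := Finset.sum_le_sum (fun i _ => rr_ge h0 _)

/-- cocycle identity -/
lemma FF_add (D : ℝ) (a : Circ) (n k : ℤ) (x : Circ) :
    FF D a (n + k) x - FF D a n x = FF D a k (x + n • a) := by
  have := int_ext (u := fun k => FF D a (n + k) x - FF D a n x)
    (v := fun k => FF D a k (x + n • a)) (by simp [FF_zero]) (by
      intro k
      have e1 := FF_succ D a (n + k) x
      have e2 := FF_succ D a k (x + n • a)
      rw [← add_assoc, e1, e2, add_smul, add_assoc]
      ring)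
  exact congrFun this k

lemma proj_staircase {D γ x₀ : ℝ} {p : ℤ → ℤ × ℤ} (hp : IsStaircase D γ x₀ p) (n : ℤ) :
    proj D (p n) = FF D (γ : Circ) n (x₀ : Circ) := by
  have := int_ext (u := fun n => proj D (p n)) (v := fun n => FF D (γ : Circ) n (x₀ : Circ))
    (by simp [FF_zero, hp.1, proj]) (by
      intro k
      rw [FF_succ]
      have hk := hp.2 k
      have hc : (x₀ : Circ) + k • (γ : Circ) = ((x₀ + k * γ : ℝ) : Circ) := by
        push_cast
        simp
      rw [hc]
      unfold rr
      rw [fr_coe]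
      have e1 : ((p (k+1)).1 : ℝ) - (p k).1 = (((p (k+1) - p k).1 : ℤ) : ℝ) := by
        simp
      have e2 : ((p (k+1)).2 : ℝ) - (p k).2 = (((p (k+1) - p k).2 : ℤ) : ℝ) := by
        simp
      have e3 : proj D (p (k+1)) - proj D (p k) =
          ((1 - D) * (((p (k+1)).1 : ℝ) - (p k).1) + D * (((p (k+1)).2 : ℝ) - (p k).2)) / kap D := by
        unfold proj kap; ring
      rw [e3, e1, e2, hk]
      split_ifs <;> simp)
  exact congrFun this n

end Pool.Agent.H382R3.KD
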