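import Mathlib
import Pool.Agent.H705R2.Weyl
import Pool.Agent.H382R3.KD.Defs

set_option autoImplicit false

open MeasureTheory Filter Topology Set

namespace Pool.Agent.H382R3.KD

open Pool.Agent.H705R2 (avg weyl)

/-- Weyl's theorem for bounded functions continuous off a closed null set. -/
theorem weyl_ext {a : Circ} (ha : addOrderOf a = 0) (s : Circ) {h : Circ → ℂ} {B : ℝ}
    (hB : ∀ x, ‖h x‖ ≤ B) (hm : Measurable h) {S : Set Circ} (hS : S.Finite) (hSn : S.Nonempty)
    (hc : ∀ x, x ∉ S → ContinuousAt h x) :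
    Tendsto (fun M => avg a s h M) atTop (𝓝 (∫ x : Circ, h x)) := by
  have hB0 : 0 ≤ B := (norm_nonneg _).trans (hB 0)
  have hScl : IsClosed S := hS.isClosed
  -- cut-offs
  let ψ : ℕ → Circ → ℝ := fun n x => min 1 ((n + 1) * Metric.infDist x S)
  have hψc : ∀ n, Continuous (ψ n) := fun n => by
    have : Continuous (fun x : Circ => Metric.infDist x S) := Metric.continuous_infDist_pt S
    show Continuous (fun x => min 1 (((n : ℝ) + 1) * Metric.infDist x S))
    fun_prop
  have hψ0 : ∀ n x, 0 ≤ ψ n x := fun n x => by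
    apply le_min zero_le_one
    have := Metric.infDist_nonneg (x := x) (s := S)
    positivity
  have hψ1 : ∀ n x, ψ n x ≤ 1 := fun n x => min_le_left _ _
  have hψS : ∀ n x, x ∈ S → ψ n x = 0 := fun n x hx => by
    show min 1 _ = _
    rw [Metric.infDist_zero_of_mem hx]; simp
  have hψlim : ∀ x, x ∉ S → Tendsto (fun n => ψ n x) atTop (𝓝 1) := fun x hx => by
    have hd : 0 < Metric.infDist x S := (hScl.notMem_iff_infDist_pos hSn).1 hx
    have : ∀ᶠ n : ℕ in atTop, ψ n x = 1 := by
      obtain ⟨N, hN⟩ := exists_nat_gt (1 / Metric.infDist x S)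
      filter_upwards [eventually_ge_atTop N] with n hn
      apply min_eq_left
      rw [div_lt_iff₀ hd] at hN
      have : (N : ℝ) ≤ n := by exact_mod_cast hn
      nlinarith
    exact tendsto_const_nhds.congr' (this.mono fun n hn => hn.symm)
  have hSnull : (volume : Measure Circ) S = 0 := by
    rw [← Set.biUnion_of_singleton S]
    refine (measure_biUnion_null_iff hS.countable).2 (fun x _ => ?_)
    have := AddCircle.volume_closedBall (T := 1) (x := x) 0
    rw [Metric.closedBall_zero] at this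
    rw [this]; simp
  have hint1 : Tendsto (fun n => ∫ x : Circ, (1 - ψ n x)) atTop (𝓝 0) := by
    have : Tendsto (fun n => ∫ x : Circ, (1 - ψ n x)) atTop (𝓝 (∫ _x : Circ, (0 : ℝ))) := by
      apply tendsto_integral_of_dominated_convergence (fun _ => (1 : ℝ))
      · intro n; exact (continuous_const.sub (hψc n)).aestronglyMeasurable
      · exact integrable_const _
      · intro n
        refine Eventually.of_forall (fun x => ?_)
        rw [Real.norm_eq_abs, abs_le]
        constructor <;> linarith [hψ0 n x, hψ1 n x]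
      · have : ∀ᵐ x : Circ, x ∉ S := by
          rw [ae_iff]; simpa using hSnull
        filter_upwards [this] with x hx
        have := (hψlim x hx).const_sub 1
        simpa using this
    simpa using this
  -- continuity of `ψ n * h`
  have hcont : ∀ n, Continuous (fun x => (ψ n x : ℂ) * h x) := by
    intro n
    rw [continuous_iff_continuousAt]
    intro x
    by_cases hx : x ∈ S
    · have h0 : (ψ n x : ℂ) * h x = 0 := by rw [hψS n x hx]; simp
      show Tendsto (fun y => (ψ n y : ℂ) * h y) (𝓝 x) (𝓝 ((ψ n x : ℂ) * h x))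
      rw [h0]
      rw [tendsto_zero_iff_norm_tendsto_zero]
      have hlim : Tendsto (fun y => ψ n y * B) (𝓝 x) (𝓝 0) := by
        have := ((hψc n).tendsto x).mul_const B
        rw [hψS n x hx, zero_mul] at this
        exact this
      refine squeeze_zero (fun y => norm_nonneg _) (fun y => ?_) hlim
      rw [norm_mul, Complex.norm_real, Real.norm_of_nonneg (hψ0 n y)]
      exact mul_le_mul_of_nonneg_left (hB y) (hψ0 n y)
    · exact (Complex.continuous_ofReal.comp (hψc n)).continuousAt.mul (hc x hx)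
  rw [Metric.tendsto_atTop]
  intro ε hε
  -- choose n
  have hε' : 0 < ε / (4 * (B + 1)) := by positivity
  obtain ⟨n, hn⟩ := (hint1.eventually_lt_const hε').exists
  have w1 := weyl ha s ⟨fun x => (ψ n x : ℂ) * h x, hcont n⟩
  have w2 := weyl ha s ⟨fun x => ((1 - ψ n x : ℝ) : ℂ), by
    have := hψc n; fun_prop⟩
  have hI2 : (∫ x : Circ, (((1 - ψ n x : ℝ) : ℂ))).re < ε / (4 * (B + 1)) := by
    rw [integral_complex_ofReal]; exact hn
  have w2' : Tendsto (fun M => (avg a s (fun x => ((1 - ψ n x : ℝ) : ℂ)) M).re) atTop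
      (𝓝 (∫ x : Circ, ((1 - ψ n x : ℝ) : ℂ)).re) := (Complex.continuous_re.tendsto _).comp w2
  obtain ⟨N1, hN1⟩ := eventually_atTop.1 (w2'.eventually_lt_const hI2)
  obtain ⟨N2, hN2⟩ := Metric.tendsto_atTop.1 w1 (ε / 2) (by positivity)
  refine ⟨max N1 N2, fun M hM => ?_⟩
  have hM1 := hN1 M ((le_max_left _ _).trans hM)
  have hM2 := hN2 M ((le_max_right _ _).trans hM)
  have havg_re : (avg a s (fun x => ((1 - ψ n x : ℝ) : ℂ)) M).re =
      (∑ m ∈ Finset.range M, (1 - ψ n (s + m • a))) / M := by
    unfold avg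
    have : (∑ m ∈ Finset.range M, (((1 - ψ n (s + m • a)) : ℝ) : ℂ)) / (M : ℂ)
      = (((∑ m ∈ Finset.range M, (1 - ψ n (s + m • a))) / M : ℝ) : ℂ) := by push_cast; rfl
    rw [this, Complex.ofReal_re]
  have e1 : ‖avg a s h M - avg a s (fun x => (ψ n x : ℂ) * h x) M‖ ≤ B * (ε / (4 * (B + 1))) := by
    have : avg a s h M - avg a s (fun x => (ψ n x : ℂ) * h x) M =
        (∑ m ∈ Finset.range M, ((1 - ψ n (s + m • a) : ℝ) : ℂ) * h (s + m • a)) / M := by
      unfold avg
      rw [← sub_div, ← Finset.sum_sub_distrib]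
      congr 1
      apply Finset.sum_congr rfl
      intro i _
      push_cast; ring
    rw [this, norm_div, Complex.norm_natCast]
    calc ‖∑ m ∈ Finset.range M, ((1 - ψ n (s + m • a) : ℝ) : ℂ) * h (s + m • a)‖ / M
        ≤ (∑ m ∈ Finset.range M, (1 - ψ n (s + m • a)) * B) / M := by
          gcongr
          refine (norm_sum_le _ _).trans (Finset.sum_le_sum fun i _ => ?_)
          rw [norm_mul, Complex.norm_real, Real.norm_of_nonneg (by linarith [hψ1 n (s + i • a)])]
          exact mul_le_mul_of_nonneg_left (hB _) (by linarith [hψ1 n (s + i • a)])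
      _ = B * ((∑ m ∈ Finset.range M, (1 - ψ n (s + m • a))) / M) := by
          rw [← Finset.sum_mul]; ring
      _ ≤ B * (ε / (4 * (B + 1))) := by
          rw [← havg_re]
          exact mul_le_mul_of_nonneg_left hM1.le hB0
  have hint_h : Integrable h := integrable_of_bddC hm hB
  have hint_ψh : Integrable (fun x => (ψ n x : ℂ) * h x) := by
    refine integrable_of_bddC ((hcont n).measurable) (B := B) (fun x => ?_)
    rw [norm_mul, Complex.norm_real, Real.norm_of_nonneg (hψ0 n x)]
    calc ψ n x * ‖h x‖ ≤ 1 * B := mul_le_mul (hψ1 n x) (hB x) (norm_nonneg _) zero_le_one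
      _ = B := one_mul _
  have e3 : ‖(∫ x : Circ, (ψ n x : ℂ) * h x) - ∫ x : Circ, h x‖ ≤ B * (ε / (4 * (B + 1))) := by
    rw [← integral_sub hint_ψh hint_h]
    calc ‖∫ x : Circ, ((ψ n x : ℂ) * h x - h x)‖ ≤ ∫ x : Circ, B * (1 - ψ n x) := by
          apply norm_integral_le_of_norm_le
          · exact ((integrable_const _).sub (integrable_of_bdd (hψc n).measurable (B := 1)
              (fun x => by rw [abs_of_nonneg (hψ0 n x)]; exact hψ1 n x))).const_mul _
          · refine Eventually.of_forall (fun x => ?_)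
            have : (ψ n x : ℂ) * h x - h x = -(((1 - ψ n x : ℝ) : ℂ) * h x) := by push_cast; ring
            rw [this, norm_neg, norm_mul, Complex.norm_real,
              Real.norm_of_nonneg (by linarith [hψ1 n x]), mul_comm]
            exact mul_le_mul_of_nonneg_right (hB _) (by linarith [hψ1 n x])
      _ = B * ∫ x : Circ, (1 - ψ n x) := integral_const_mul _ _
      _ ≤ B * (ε / (4 * (B + 1))) := mul_le_mul_of_nonneg_left hn.le hB0
  have e4 : B * (ε / (4 * (B + 1))) ≤ ε / 4 := by
    rw [mul_div_assoc', div_le_div_iff₀ (by positivity) (by norm_num)]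
    nlinarith
  have e2 : ‖avg a s (fun x => (ψ n x : ℂ) * h x) M - ∫ x : Circ, (ψ n x : ℂ) * h x‖ < ε / 2 := by
    rw [← dist_eq_norm]; exact hM2
  rw [dist_eq_norm]
  calc ‖avg a s h M - ∫ x : Circ, h x‖
      = ‖(avg a s h M - avg a s (fun x => (ψ n x : ℂ) * h x) M) +
        (avg a s (fun x => (ψ n x : ℂ) * h x) M - ∫ x : Circ, (ψ n x : ℂ) * h x) +
        ((∫ x : Circ, (ψ n x : ℂ) * h x) - ∫ x : Circ, h x)‖ := by congr 1; ring
    _ ≤ ‖avg a s h M - avg a s (fun x => (ψ n x : ℂ) * h x) M‖ +
        ‖avg a s (fun x => (ψ n x : ℂ) * h x) M - ∫ x : Circ, (ψ n x : ℂ) * h x‖ +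
        ‖(∫ x : Circ, (ψ n x : ℂ) * h x) - ∫ x : Circ, h x‖ := norm_add₃_le
    _ < ε := by linarith

lemma continuousAt_rr {D : ℝ} {x : Circ} (h0 : x ≠ 0) (hD : x ≠ (D : Circ)) :
    ContinuousAt (rr D) x := by
  have hf := continuousAt_fr h0
  have hne : fr x ≠ D := fun h => hD (by rw [← h, coe_fr])
  unfold rr
  apply ContinuousAt.div_const
  rcases lt_or_gt_of_ne hne with h | h
  · have : ∀ᶠ y in 𝓝 x, fr y < D := hf.eventually_lt_const h
    have h2 : (fun y => if fr y < D then D else 1 - D) =ᶠ[𝓝 x] fun _ => D := by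
      filter_upwards [this] with y hy; simp [hy]
    exact (continuousAt_const).congr h2.symm
  · have : ∀ᶠ y in 𝓝 x, D < fr y := hf.eventually_const_lt h
    have h2 : (fun y => if fr y < D then D else 1 - D) =ᶠ[𝓝 x] fun _ => 1 - D := by
      filter_upwards [this] with y hy; simp [not_lt.2 hy.le]
    exact (continuousAt_const).congr h2.symm

/-- exceptional set -/
def exS (D : ℝ) (a : Circ) (k : ℤ) : Set Circ :=
  {0} ∪ ⋃ i ∈ (Finset.Ico 0 k ∪ Finset.Ico k 0 : Finset ℤ), {-(i • a), (D : Circ) - i • a}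

lemma exS_finite (D : ℝ) (a : Circ) (k : ℤ) : (exS D a k).Finite := by
  unfold exS
  refine (finite_singleton _).union ?_
  refine Set.Finite.biUnion (Finset.finite_toSet _) (fun i _ => ?_)
  exact Set.toFinite _

lemma exS_nonempty (D : ℝ) (a : Circ) (k : ℤ) : (exS D a k).Nonempty := ⟨0, by simp [exS]⟩

lemma continuousAt_FF {D : ℝ} {a : Circ} {k : ℤ} {x : Circ} (hx : x ∉ exS D a k) :
    ContinuousAt (FF D a k) x := by
  have key : ∀ i ∈ (Finset.Ico 0 k ∪ Finset.Ico k 0 : Finset ℤ),
      ContinuousAt (fun y => rr D (y + i • a)) x := by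
    intro i hi
    have h1 : x + i • a ≠ 0 := by
      intro h
      apply hx
      right
      simp only [mem_iUnion]
      exact ⟨i, hi, Or.inl (eq_neg_of_add_eq_zero_left h)⟩
    have h2 : x + i • a ≠ (D : Circ) := by
      intro h
      apply hx
      right
      simp only [mem_iUnion]
      exact ⟨i, hi, Or.inr (eq_sub_of_add_eq h)⟩
    exact ContinuousAt.comp (f := fun y => y + i • a) (continuousAt_rr h1 h2) (by fun_prop)
  unfold FF
  refine ContinuousAt.sub ?_ ?_
  · exact tendsto_finsetSum _ (fun i hi => key i (Finset.mem_union_left _ hi))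
  · exact tendsto_finsetSum _ (fun i hi => key i (Finset.mem_union_right _ hi))

lemma weyl_FF {D : ℝ} {a : Circ} (ha : addOrderOf a = 0) (s a' : Circ) (k : ℤ) {φ : ℝ → ℝ}
    (hφ : Continuous φ) {B : ℝ} (hB : ∀ t, |φ t| ≤ B) :
    Tendsto (fun M : ℕ => (∑ m ∈ Finset.range M, φ (FF D a' k (s + m • a))) / M) atTop
      (𝓝 (∫ x : Circ, φ (FF D a' k x))) := by
  have := weyl_ext ha s (h := fun x => ((φ (FF D a' k x) : ℝ) : ℂ)) (B := B)
    (fun x => by rw [Complex.norm_real]; exact hB _)
    (Complex.measurable_ofReal.comp (hφ.measurable.comp (measurable_FF D a' k)))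
    (exS_finite D a' k) (exS_nonempty D a' k)
    (fun x hx => (Complex.continuous_ofReal.comp hφ).continuousAt.comp (continuousAt_FF hx))
  have h2 := (Complex.continuous_re.tendsto _).comp this
  rw [integral_complex_ofReal, Complex.ofReal_re] at h2
  refine h2.congr (fun M => ?_)
  simp only [Function.comp]
  unfold avg
  have : (∑ m ∈ Finset.range M, (((φ (FF D a' k (s + m • a))) : ℝ) : ℂ)) / (M : ℂ)
      = (((∑ m ∈ Finset.range M, φ (FF D a' k (s + m • a))) / M : ℝ) : ℂ) := by push_cast; rfl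
  rw [this, Complex.ofReal_re]

end Pool.Agent.H382R3.KD
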