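import Mathlib
import Pool.Agent.H382R3.KD.Equi

set_option autoImplicit false

open MeasureTheory Filter Topology Set
open scoped FourierTransform SchwartzMap

namespace Pool.Agent.H382R3.KD

/-- weight function -/
noncomputable def wt (t : ℝ) : ℝ := 1 / (1 + t ^ 2) ^ 2

lemma wt_pos (t : ℝ) : 0 < wt t := by unfold wt; positivity

lemma wt_le (t : ℝ) : wt t ≤ 1 / (1 + t ^ 2) := by
  unfold wt
  apply one_div_le_one_div_of_le (by positivity)
  nlinarith [sq_nonneg t]

lemma wt_le_one (t : ℝ) : wt t ≤ 1 := by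
  refine (wt_le t).trans ?_
  rw [div_le_one (by positivity)]
  nlinarith [sq_nonneg t]

lemma continuous_wt : Continuous wt := by
  unfold wt
  apply Continuous.div continuous_const (by fun_prop)
  intro x; positivity

lemma locFin_of_wt {η : Measure ℝ} (h : Integrable wt η) : IsLocallyFiniteMeasure η := by
  constructor
  intro x
  refine ⟨{t | wt x / 2 < wt t}, ?_, ?_⟩
  · apply (isOpen_lt continuous_const continuous_wt).mem_nhds
    simp only [mem_setOf_eq]
    linarith [wt_pos x]
  · refine lt_of_le_of_lt (measure_mono ?_) (h.measure_norm_ge_lt_top (ε := wt x / 2)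
      (by have := wt_pos x; positivity))
    intro t ht
    simp only [mem_setOf_eq] at ht ⊢
    rw [Real.norm_of_nonneg (wt_pos t).le]
    exact ht.le

lemma schwartz_wt (f : 𝓢(ℝ, ℂ)) : ∃ C : ℝ, 0 ≤ C ∧ ∀ t, ‖f t‖ ≤ C * wt t := by
  obtain ⟨C0, hC0⟩ := f.decay 0 0
  obtain ⟨C4, hC4⟩ := f.decay 4 0
  refine ⟨2 * C0 + 2 * C4, ?_, ?_⟩
  · have := hC0.2 0
    have h2 := hC4.2 0
    have e1 : 0 ≤ C0 := le_trans (by positivity) this
    have e2 : 0 ≤ C4 := le_trans (by positivity) h2
    positivity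
  · intro t
    have e1 := hC0.2 t
    have e2 := hC4.2 t
    simp only [pow_zero, one_mul, norm_iteratedFDeriv_zero] at e1 e2
    unfold wt
    rw [mul_one_div, le_div_iff₀ (by positivity)]
    have e3 : ‖t‖ ^ 4 = t ^ 4 := by
      rw [Real.norm_eq_abs, ← abs_pow, abs_of_nonneg (by positivity)]
    rw [e3] at e2
    have hn := norm_nonneg (f t)
    have : ‖f t‖ * (1 + t ^ 2) ^ 2 ≤ ‖f t‖ * (2 + 2 * t ^ 4) := by
      apply mul_le_mul_of_nonneg_left _ hn
      nlinarith [sq_nonneg (t ^ 2 - 1)]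
    linarith

lemma integrable_schwartz {η : Measure ℝ} (h : Integrable wt η) (f : 𝓢(ℝ, ℂ)) :
    Integrable (fun t => f t) η := by
  obtain ⟨C, hC0, hC⟩ := schwartz_wt f
  refine (h.const_mul C).mono' f.continuous.aestronglyMeasurable ?_
  exact Eventually.of_forall (fun t => hC t)

lemma summable_inv_sq : Summable (fun k : ℤ => 1 / (1 + (k : ℝ) ^ 2)) := by
  have h := (Real.summable_one_div_int_pow (p := 2)).2 (by norm_num)
  refine Summable.of_nonneg_of_le (fun k => by positivity) (fun k => ?_)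
    (h.add (summable_of_ne_finset_zero (f := fun k : ℤ => if k = 0 then (1 : ℝ) else 0) (s := {0})
      (fun b hb => by simp at hb; simp [hb])))
  by_cases hk : k = 0
  · subst hk; simp
  · have : (0 : ℝ) < (k : ℝ) ^ 2 := by
      have : (k : ℝ) ≠ 0 := by exact_mod_cast hk
      positivity
    simp only [hk, if_false, add_zero]
    apply one_div_le_one_div_of_le this
    linarith

/-- the autocorrelation measure -/
noncomputable def eta (D : ℝ) (a : Circ) : Measure ℝ :=
  Measure.sum fun k : ℤ => ENNReal.ofReal (1 / kap D) • Measure.map (FF D a k) (volume : Measure Circ)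

/-- lower gap constant -/
noncomputable def del (D : ℝ) : ℝ := min D (1 - D) / kap D

lemma del_pos {D : ℝ} (h0 : 0 < D) (h1 : D < 1) : 0 < del D :=
  div_pos (lt_min h0 (by linarith)) (kap_pos h0)

lemma FF_wt {D : ℝ} (h0 : 0 < D) (h1 : D < 1) (a : Circ) (k : ℤ) (x : Circ) :
    wt (FF D a k x) ≤ max 1 (1 / del D ^ 2) * (1 / (1 + (k : ℝ) ^ 2)) := by
  refine (wt_le _).trans ?_
  have hd := del_pos h0 h1
  have h := FF_ge h0 h1 a k x
  have h2 : del D ^ 2 * (k : ℝ) ^ 2 ≤ FF D a k x ^ 2 := by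
    rw [← mul_pow, ← sq_abs (FF D a k x), ← sq_abs (del D * k), abs_mul, abs_of_pos hd]
    gcongr
    exact h
  rw [mul_one_div, div_le_div_iff₀ (by positivity) (by positivity), one_mul]
  have hm1 : 1 ≤ max 1 (1 / del D ^ 2) := le_max_left _ _
  have hm2 : 1 ≤ max 1 (1 / del D ^ 2) * del D ^ 2 := by
    have := le_max_right 1 (1 / del D ^ 2)
    calc (1 : ℝ) = 1 / del D ^ 2 * del D ^ 2 := by field_simp
      _ ≤ _ := by gcongr
  have hk := sq_nonneg (k : ℝ)
  nlinarith [mul_le_mul_of_nonneg_left h2 (zero_le_one.trans hm1),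
    mul_le_mul_of_nonneg_right hm2 hk]

lemma integrable_comp_FF (D : ℝ) (a : Circ) (k : ℤ) : 
    Integrable wt (ENNReal.ofReal (1 / kap D) • Measure.map (FF D a k) (volume : Measure Circ)) := by
  apply Integrable.smul_measure _ (by simp)
  rw [integrable_map_measure continuous_wt.aestronglyMeasurable (measurable_FF D a k).aemeasurable]
  exact integrable_of_bdd (continuous_wt.measurable.comp (measurable_FF D a k)) (B := 1)
    (fun x => by
      rw [Function.comp, abs_of_nonneg (wt_pos _).le]; exact wt_le_one _)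

lemma integrable_wt_eta {D : ℝ} (h0 : 0 < D) (h1 : D < 1) (a : Circ) :
    Integrable wt (eta D a) := by
  have hk := kap_pos h0
  apply integrable_sum_measure (integrable_comp_FF D a)
  refine Summable.of_nonneg_of_le (fun k => integral_nonneg (fun _ => norm_nonneg _)) (fun k => ?_)
    (summable_inv_sq.mul_left (1 / kap D * max 1 (1 / del D ^ 2)))
  rw [integral_smul_measure, ENNReal.toReal_ofReal (by positivity),
    integral_map (measurable_FF D a k).aemeasurable continuous_wt.norm.aestronglyMeasurable,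
    smul_eq_mul, mul_assoc]
  apply mul_le_mul_of_nonneg_left _ (by positivity)
  calc ∫ x : Circ, ‖wt (FF D a k x)‖ ≤ ∫ x : Circ, max 1 (1 / del D ^ 2) * (1 / (1 + (k : ℝ) ^ 2)) := by
        apply integral_mono_of_nonneg
        · exact Eventually.of_forall (fun _ => norm_nonneg _)
        · exact integrable_const _
        · refine Eventually.of_forall (fun x => ?_)
          simp only
          rw [Real.norm_of_nonneg (wt_pos _).le]
          exact FF_wt h0 h1 a k x
    _ = _ := by simp [Measure.real]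

lemma integral_eta {E : Type*} [NormedAddCommGroup E] [NormedSpace ℝ E] {D : ℝ} (h0 : 0 < D) (a : Circ) {ψ : ℝ → E}
    (hc : StronglyMeasurable ψ) (hi : Integrable ψ (eta D a)) :
    ∫ t, ψ t ∂(eta D a) = ∑' k : ℤ, (1 / kap D) • ∫ x : Circ, ψ (FF D a k x) := by
  have hk := kap_pos h0
  unfold eta at hi ⊢
  rw [integral_sum_measure hi]
  congr 1
  funext k
  rw [integral_smul_measure, ENNReal.toReal_ofReal (by positivity),
    integral_map (measurable_FF D a k).aemeasurable hc.aestronglyMeasurable]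

/-! ### counting -/

lemma count_lim {z : ℕ → ℝ} (hz : Monotone z) {κ : ℝ} (hκ : 0 < κ)
    (hlim : Tendsto (fun n : ℕ => z n / n) atTop (𝓝 κ)) {N : ℝ → ℕ}
    (hN : ∀ T : ℝ, 0 ≤ T → z (N T) ≤ T ∧ T < z (N T + 1)) :
    Tendsto N atTop atTop ∧ Tendsto (fun T : ℝ => (N T : ℝ) / T) atTop (𝓝 (1 / κ)) := by
  have hNt : Tendsto N atTop atTop := by
    rw [tendsto_atTop]
    intro n
    filter_upwards [eventually_ge_atTop (max 0 (z n))] with T hT
    by_contra hlt
    push Not at hlt
    have h1 := (hN T ((le_max_left _ _).trans hT)).2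
    have h2 : z (N T + 1) ≤ z n := hz hlt
    have h3 := (le_max_right _ _).trans hT
    linarith
  refine ⟨hNt, ?_⟩
  have h1 : Tendsto (fun T : ℝ => z (N T) / (N T : ℕ)) atTop (𝓝 κ) := hlim.comp hNt
  have h2 : Tendsto (fun n : ℕ => z (n + 1) / n) atTop (𝓝 κ) := by
    have e1 : Tendsto (fun n : ℕ => z (n + 1) / ((n + 1 : ℕ) : ℝ)) atTop (𝓝 κ) :=
      hlim.comp (tendsto_add_atTop_nat 1)
    have e2 : Tendsto (fun n : ℕ => (((n + 1 : ℕ) : ℝ)) / n) atTop (𝓝 1) := by
      have : Tendsto (fun n : ℕ => 1 + 1 / (n : ℝ)) atTop (𝓝 (1 + 0)) :=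
        tendsto_const_nhds.add tendsto_one_div_atTop_nhds_zero_nat
      rw [add_zero] at this
      refine this.congr' ?_
      filter_upwards [eventually_gt_atTop 0] with n hn
      have : (n : ℝ) ≠ 0 := by positivity
      push_cast
      field_simp
    have e3 := e1.mul e2
    rw [mul_one] at e3
    refine e3.congr' ?_
    filter_upwards [eventually_gt_atTop 0] with n hn
    have : (n : ℝ) ≠ 0 := by positivity
    have : ((n + 1 : ℕ) : ℝ) ≠ 0 := by positivity
    field_simp
  have h3 : Tendsto (fun T : ℝ => z (N T + 1) / (N T : ℕ)) atTop (𝓝 κ) := h2.comp hNt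
  have h4 : Tendsto (fun T : ℝ => T / (N T : ℝ)) atTop (𝓝 κ) := by
    refine tendsto_of_tendsto_of_tendsto_of_le_of_le' h1 h3 ?_ ?_
    · filter_upwards [eventually_ge_atTop 0] with T hT
      gcongr
      exact (hN T hT).1
    · filter_upwards [eventually_ge_atTop 0] with T hT
      gcongr
      exact (hN T hT).2.le
  have h5 := h4.inv₀ hκ.ne'
  rw [one_div]
  refine h5.congr (fun T => ?_)
  rw [inv_div]

lemma exists_N {z : ℕ → ℝ} (h0 : z 0 = 0) (hz : Tendsto z atTop atTop) (T : ℝ) (hT : 0 ≤ T) :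
    ∃ N : ℕ, z N ≤ T ∧ T < z (N + 1) := by
  classical
  have hex : ∃ n, T < z n := (hz.eventually_gt_atTop T).exists
  have hn := Nat.find_spec hex
  have hpos : Nat.find hex ≠ 0 := by
    intro h
    rw [h, h0] at hn
    linarith
  obtain ⟨m, hm⟩ := Nat.exists_eq_succ_of_ne_zero hpos
  refine ⟨m, ?_, ?_⟩
  · have := Nat.find_min hex (m := m) (by omega)
    exact not_lt.1 this
  · rw [hm] at hn; exact hn

end Pool.Agent.H382R3.KD
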