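import Mathlib
import Pool.Agent.H382R3.KD.Auto

set_option autoImplicit false

open MeasureTheory Filter Topology Set
open scoped FourierTransform SchwartzMap ComplexConjugate Real

namespace Pool.Agent.H382R3.KD

lemma vol_eq_haar : (volume : Measure Circ) = AddCircle.haarAddCircle := by
  rw [AddCircle.volume_eq_smul_haarAddCircle]; simp

/-- the function `e(-s g(x))` -/
noncomputable def uu (g : Circ → ℝ) (s : ℝ) (x : Circ) : ℂ :=
  Complex.exp (((-2 * π * s * g x : ℝ) : ℂ) * Complex.I)

lemma norm_uu (g : Circ → ℝ) (s : ℝ) (x : Circ) : ‖uu g s x‖ = 1 := by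
  unfold uu; exact Complex.norm_exp_ofReal_mul_I _

lemma measurable_uu {g : Circ → ℝ} (hg : Measurable g) (s : ℝ) : Measurable (uu g s) := by
  unfold uu
  fun_prop

/-- squared Fourier coefficients of `e(-s g)` -/
noncomputable def WW (g : Circ → ℝ) (s : ℝ) (m : ℤ) : ℝ := ‖fourierCoeff (uu g s) m‖ ^ 2

lemma WW_nonneg (g : Circ → ℝ) (s : ℝ) (m : ℤ) : 0 ≤ WW g s m := by unfold WW; positivity

lemma fc_eq (u : Circ → ℂ) (m : ℤ) : fourierCoeff u m = ∫ x : Circ, fourier (-m) x * u x := by
  unfold fourierCoeff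
  rw [← vol_eq_haar]
  simp

lemma norm_fourier_apply (m : ℤ) (x : Circ) : ‖(fourier m x : ℂ)‖ = 1 := by
  rw [fourier_apply]; exact Circle.norm_coe _

lemma integrable_four {u : Circ → ℂ} (hu : Measurable u) (h1 : ∀ x, ‖u x‖ ≤ 1) (m : ℤ) :
    Integrable (fun x : Circ => (fourier m x : ℂ) * u x) :=
  integrable_of_bddC ((fourier m).continuous.measurable.mul hu) (B := 1) (fun x => by
    rw [norm_mul, norm_fourier_apply, one_mul]; exact h1 x)

lemma fourier_add_pt (m : ℤ) (x y : Circ) : (fourier m (x + y) : ℂ) = fourier m x * fourier m y := by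
  simp only [fourier_apply, smul_add, AddCircle.toCircle_add]; simp

lemma fc_translate {u : Circ → ℂ} (m : ℤ) (b : Circ) :
    fourierCoeff (fun x => u (x + b)) m = fourier m b * fourierCoeff u m := by
  rw [fc_eq, fc_eq, ← integral_const_mul]
  rw [← integral_sub_right_eq_self (fun x : Circ => (fourier (-m) x : ℂ) * u (x + b)) b]
  congr 1
  funext x
  rw [sub_add_cancel, sub_eq_add_neg, fourier_add_pt]
  have : (fourier (-m) (-b) : ℂ) = fourier m b := by
    simp only [fourier_apply]
    rw [smul_neg, neg_smul, neg_neg]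
  rw [this]; ring

lemma WW_le_one {g : Circ → ℝ} (hg : Measurable g) (s : ℝ) (m : ℤ) : WW g s m ≤ 1 := by
  unfold WW
  have : ‖fourierCoeff (uu g s) m‖ ≤ 1 := by
    rw [fc_eq]
    calc ‖∫ x : Circ, fourier (-m) x * uu g s x‖ ≤ ∫ x : Circ, (1 : ℝ) := by
          apply norm_integral_le_of_norm_le (integrable_const _)
          refine Eventually.of_forall (fun x => ?_)
          rw [norm_mul, norm_fourier_apply, norm_uu, one_mul]
      _ = 1 := by simp [Measure.real]
  exact pow_le_one₀ (norm_nonneg _) this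

lemma norm_uu_sub (g : Circ → ℝ) (s : ℝ) (x y : Circ) :
    ‖uu g s x - uu g s y‖ ≤ 2 * π * |s| * |g x - g y| := by
  unfold uu
  have e : Complex.exp (((-2 * π * s * g x : ℝ) : ℂ) * Complex.I) - Complex.exp (((-2 * π * s * g y : ℝ) : ℂ) * Complex.I)
     = Complex.exp (((-2 * π * s * g y : ℝ) : ℂ) * Complex.I) *
      (Complex.exp (Complex.I * ((-2 * π * s * (g x - g y) : ℝ) : ℂ)) - 1) := by
    rw [mul_sub, ← Complex.exp_add, mul_one]
    congr 2
    push_cast; ring
  rw [e, norm_mul, Complex.norm_exp_ofReal_mul_I, one_mul]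
  refine Real.norm_exp_I_mul_ofReal_sub_one_le.trans ?_
  rw [Real.norm_eq_abs, abs_mul, abs_mul, abs_mul]
  simp [abs_of_pos Real.pi_pos]

lemma WW_bound_ne {g : Circ → ℝ} (hg : Measurable g) {Bg : ℝ} (hBg : ∀ x, |g x| ≤ Bg) {C : ℝ}
    (hC0 : 0 ≤ C) (hC : ∀ h : ℝ, 0 < h → h < 1 → ∫ x : Circ, |g (x + (h : Circ)) - g x| ≤ C * h)
    (s : ℝ) {m : ℤ} (hm : m ≠ 0) : ‖fourierCoeff (uu g s) m‖ ≤ π * |s| * C / (2 * |(m : ℝ)|) := by
  have hmR : (m : ℝ) ≠ 0 := by exact_mod_cast hm
  have hmabs : 1 ≤ |(m : ℝ)| := by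
    have : (1 : ℤ) ≤ |m| := Int.one_le_abs hm
    exact_mod_cast this
  set h : ℝ := 1 / (2 * |(m : ℝ)|) with hh
  have hpos : 0 < h := by positivity
  have hlt : h < 1 := by
    rw [hh, div_lt_one (by positivity)]; linarith
  have hshift : (fourier m ((h : ℝ) : Circ) : ℂ) = -1 := by
    rcases lt_or_gt_of_ne hm with hneg | hp
    · have hx := fourier_add_half_inv_index (T := 1) (n := -m) (by omega) one_pos (0 : Circ)
      rw [zero_add, fourier_eval_zero] at hx
      have e : (1 / 2 / ((-m : ℤ) : ℝ)) = h := by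
        rw [hh, abs_of_neg (by exact_mod_cast hneg)]; push_cast; field_simp
      rw [e, fourier_neg] at hx
      have := congrArg (starRingEnd ℂ) hx
      simpa using this
    · have hx := fourier_add_half_inv_index (T := 1) (n := m) (by omega) one_pos (0 : Circ)
      rw [zero_add, fourier_eval_zero] at hx
      have e : (1 / 2 / ((m : ℤ) : ℝ)) = h := by
        rw [hh, abs_of_pos (by exact_mod_cast hp)]; field_simp
      rw [e] at hx
      exact hx
  have hmu := measurable_uu hg s
  have hmu' : Measurable (fun x : Circ => uu g s (x + (h : Circ))) := hmu.comp (measurable_add_const _)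
  have h2 : 2 * fourierCoeff (uu g s) m =
      ∫ x : Circ, fourier (-m) x * (uu g s x - uu g s (x + (h : Circ))) := by
    have e1 := fc_translate (u := uu g s) m (h : Circ)
    rw [hshift] at e1
    have e2 : 2 * fourierCoeff (uu g s) m = fourierCoeff (uu g s) m -
      fourierCoeff (fun x => uu g s (x + (h : Circ))) m := by rw [e1]; ring
    rw [e2, fc_eq, fc_eq, ← integral_sub (integrable_four hmu (fun x => (norm_uu g s x).le) _)
      (integrable_four hmu' (fun x => (norm_uu g s _).le) _)]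
    congr 1; funext x; ring
  have hgi : Integrable (fun x : Circ => |g (x + (h : Circ)) - g x|) :=
    integrable_of_bdd ((hg.comp (measurable_add_const _)).sub hg).abs (B := 2 * Bg) (fun x => by
      rw [abs_abs]
      have e1 := hBg (x + (h : Circ)); have e2 := hBg x
      rw [abs_le] at e1 e2 ⊢
      constructor <;> linarith)
  have h3 : ‖2 * fourierCoeff (uu g s) m‖ ≤ 2 * π * |s| * (C * h) := by
    rw [h2]
    calc ‖∫ x : Circ, fourier (-m) x * (uu g s x - uu g s (x + (h : Circ)))‖
        ≤ ∫ x : Circ, 2 * π * |s| * |g (x + (h : Circ)) - g x| := by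
          apply norm_integral_le_of_norm_le (hgi.const_mul _)
          refine Eventually.of_forall (fun x => ?_)
          rw [norm_mul, norm_fourier_apply, one_mul, norm_sub_rev]
          exact norm_uu_sub g s _ _
      _ = 2 * π * |s| * ∫ x : Circ, |g (x + (h : Circ)) - g x| := integral_const_mul _ _
      _ ≤ 2 * π * |s| * (C * h) := by
          apply mul_le_mul_of_nonneg_left (hC h hpos hlt)
          have := Real.pi_pos; positivity
  rw [norm_mul, Complex.norm_ofNat] at h3
  have e : π * |s| * C / (2 * |(m : ℝ)|) = π * |s| * (C * h) := by rw [hh]; ring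
  rw [e]; linarith

lemma WW_bound {g : Circ → ℝ} (hg : Measurable g) {Bg : ℝ} (hBg : ∀ x, |g x| ≤ Bg) {C : ℝ}
    (hC0 : 0 ≤ C) (hC : ∀ h : ℝ, 0 < h → h < 1 → ∫ x : Circ, |g (x + (h : Circ)) - g x| ≤ C * h)
    (s : ℝ) (m : ℤ) :
    WW g s m ≤ (1 + (π * C) ^ 2) * ((1 + s ^ 2) * (1 / (1 + (m : ℝ) ^ 2))) := by
  rw [mul_one_div, mul_div_assoc', le_div_iff₀ (by positivity)]
  by_cases hm : m = 0
  · subst hm
    have := WW_le_one hg s 0
    simp only [Int.cast_zero, ne_eq, OfNat.ofNat_ne_zero, not_false_eq_true, zero_pow, add_zero, mul_one]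
    nlinarith [sq_nonneg s, sq_nonneg (π * C), mul_nonneg (sq_nonneg (π * C)) (sq_nonneg s)]
  · have h := WW_bound_ne hg hBg hC0 hC s hm
    have hmR : (m : ℝ) ≠ 0 := by exact_mod_cast hm
    have hmabs : 1 ≤ |(m : ℝ)| := by
      have : (1 : ℤ) ≤ |m| := Int.one_le_abs hm
      exact_mod_cast this
    have hm2 : 1 ≤ (m : ℝ) ^ 2 := by rw [← sq_abs]; nlinarith
    have h2 : WW g s m ≤ (π * |s| * C / (2 * |(m : ℝ)|)) ^ 2 := by
      unfold WW
      exact pow_le_pow_left₀ (norm_nonneg _) h 2
    have h3 : (π * |s| * C / (2 * |(m : ℝ)|)) ^ 2 = (π * C) ^ 2 * s ^ 2 / (4 * (m : ℝ) ^ 2) := by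
      rw [div_pow, mul_pow, mul_pow, mul_pow, sq_abs, mul_pow, sq_abs]; ring
    rw [h3] at h2
    calc WW g s m * (1 + (m : ℝ) ^ 2) ≤ (π * C) ^ 2 * s ^ 2 / (4 * (m : ℝ) ^ 2) * (1 + (m : ℝ) ^ 2) := by
          gcongr
      _ ≤ (π * C) ^ 2 * s ^ 2 := by
          rw [div_mul_eq_mul_div, div_le_iff₀ (by positivity)]
          have : 0 ≤ (π * C) ^ 2 * s ^ 2 := by positivity
          nlinarith
      _ ≤ (1 + (π * C) ^ 2) * (1 + s ^ 2) := by
          nlinarith [sq_nonneg s, sq_nonneg (π * C), mul_nonneg (sq_nonneg (π * C)) (sq_nonneg s)]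

lemma continuous_WW {g : Circ → ℝ} (hg : Measurable g) (m : ℤ) : Continuous (fun s => WW g s m) := by
  unfold WW
  have : Continuous (fun s => fourierCoeff (uu g s) m) := by
    simp_rw [fc_eq]
    apply continuous_of_dominated (bound := fun _ => (1 : ℝ))
    · intro s
      exact (integrable_four (measurable_uu hg s) (fun x => (norm_uu g s x).le) _).aestronglyMeasurable
    · intro s
      refine Eventually.of_forall (fun x => ?_)
      rw [norm_mul, norm_fourier_apply, norm_uu, one_mul]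
    · exact integrable_const _
    · refine Eventually.of_forall (fun x => ?_)
      unfold uu
      fun_prop
  fun_prop

lemma parseval_aux {g : Circ → ℝ} (hg : Measurable g) (s : ℝ) (b : Circ) (m : ℤ)
    (hU : MemLp (uu g s) 2 (AddCircle.haarAddCircle (T := 1)))
    (hV : MemLp (fun x : Circ => uu g s (x + b)) 2 (AddCircle.haarAddCircle (T := 1))) :
    (WW g s m : ℂ) * fourier m b = (inner ℂ (hU.toLp _) (fourierBasis (T := 1) m) : ℂ) *
        inner ℂ (fourierBasis (T := 1) m) (hV.toLp _) := by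
  have r1 : (inner ℂ (fourierBasis (T := 1) m) (hV.toLp _) : ℂ) = fourier m b * fourierCoeff (uu g s) m := by
    rw [← HilbertBasis.repr_apply_apply, fourierBasis_repr, fourierCoeff_congr_ae hV.coeFn_toLp,
      fc_translate]
  have r2 : (inner ℂ (hU.toLp _) (fourierBasis (T := 1) m) : ℂ) = conj (fourierCoeff (uu g s) m) := by
    rw [← inner_conj_symm, ← HilbertBasis.repr_apply_apply, fourierBasis_repr,
      fourierCoeff_congr_ae hU.coeFn_toLp]
  rw [r1, r2]
  unfold WW
  have : ((‖fourierCoeff (uu g s) m‖ ^ 2 : ℝ) : ℂ) = conj (fourierCoeff (uu g s) m) * fourierCoeff (uu g s) m := by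
    rw [mul_comm, Complex.mul_conj, Complex.normSq_eq_norm_sq]
  rw [this]; ring

/-- Parseval -/
lemma parseval {g : Circ → ℝ} (hg : Measurable g) (s : ℝ) (b : Circ) :
    HasSum (fun m : ℤ => (WW g s m : ℂ) * fourier m b) (∫ x : Circ, uu g s (x + b) * conj (uu g s x)) := by
  have hmu := measurable_uu hg s
  have hmu' : Measurable (fun x : Circ => uu g s (x + b)) := hmu.comp (measurable_add_const _)
  have hU : MemLp (uu g s) 2 (AddCircle.haarAddCircle (T := 1)) :=
    MemLp.of_bound hmu.aestronglyMeasurable 1 (Eventually.of_forall (fun x => (norm_uu g s x).le))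
  have hV : MemLp (fun x : Circ => uu g s (x + b)) 2 (AddCircle.haarAddCircle (T := 1)) :=
    MemLp.of_bound hmu'.aestronglyMeasurable 1 (Eventually.of_forall (fun x => (norm_uu g s _).le))
  have key := (fourierBasis (T := 1)).hasSum_inner_mul_inner (hU.toLp _) (hV.toLp _)
  have e1 : (inner ℂ (hU.toLp _) (hV.toLp _) : ℂ) = ∫ x : Circ, uu g s (x + b) * conj (uu g s x) := by
    rw [L2.inner_def, vol_eq_haar]
    apply integral_congr_ae
    filter_upwards [hU.coeFn_toLp, hV.coeFn_toLp] with x h1 h2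
    rw [h1, h2]
    simp [mul_comm]
  rw [e1] at key
  have hfun : (fun m : ℤ => (WW g s m : ℂ) * fourier m b) =
      fun m : ℤ => (inner ℂ (hU.toLp _) (fourierBasis (T := 1) m) : ℂ) *
        inner ℂ (fourierBasis (T := 1) m) (hV.toLp _) := by
    funext m
    exact parseval_aux hg s b m hU hV
  rw [hfun]
  exact key
end Pool.Agent.H382R3.KD
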