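import Mathlib
import Pool.Agent.H382R3.KD.PP

set_option autoImplicit false

open MeasureTheory Filter Topology Set
open scoped FourierTransform SchwartzMap ComplexConjugate Real

namespace Pool.Agent.H382R3.KD

/-- representative of `m • a` in `[0,1)` -/
noncomputable def cc (a : Circ) (m : ℤ) : ℝ := fr (m • a)

/-- support points -/
noncomputable def sp (κ : ℝ) (a : Circ) (q : ℤ × ℤ) : ℝ := (q.2 + cc a q.1) / κ

/-- `G_m` -/
noncomputable def GG (κ : ℝ) (a : Circ) (g : Circ → ℝ) (f : 𝓢(ℝ, ℂ)) (m : ℤ) (v : ℝ) : ℂ :=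
  f ((v + cc a m) / κ) * (WW g ((v + cc a m) / κ) m : ℂ)

lemma cc_nonneg (a : Circ) (m : ℤ) : 0 ≤ cc a m := fr_nonneg _
lemma cc_lt (a : Circ) (m : ℤ) : cc a m < 1 := fr_lt_one _

lemma continuous_GG (κ : ℝ) (a : Circ) {g : Circ → ℝ} (hg : Measurable g) (f : 𝓢(ℝ, ℂ)) (m : ℤ) :
    Continuous (GG κ a g f m) := by
  unfold GG
  have h1 : Continuous (fun v : ℝ => (v + cc a m) / κ) := by fun_prop
  exact (f.continuous.comp h1).mul (Complex.continuous_ofReal.comp ((continuous_WW hg m).comp h1))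

lemma shift_bound {κ : ℝ} (hκ : 0 < κ) {z R : ℝ} {j : ℤ} (h : |z - j| ≤ R) :
    1 / (1 + (z / κ) ^ 2) ≤ max 1 (κ ^ 2) * (2 + 2 * R ^ 2) * (1 / (1 + (j : ℝ) ^ 2)) := by
  rw [mul_one_div, div_le_div_iff₀ (by positivity) (by positivity), one_mul]
  have hR : 0 ≤ R := (abs_nonneg _).trans h
  have h2 : (z - j) ^ 2 ≤ R ^ 2 := by rw [← sq_abs]; gcongr
  have e1 : 1 + (j : ℝ) ^ 2 ≤ (2 + 2 * R ^ 2) * (1 + z ^ 2) := by
    nlinarith [sq_nonneg (z + (z - j)), sq_nonneg z, mul_nonneg (sq_nonneg R) (sq_nonneg z)]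
  have e2 : 1 + z ^ 2 ≤ max 1 (κ ^ 2) * (1 + (z / κ) ^ 2) := by
    have h3 : z ^ 2 = κ ^ 2 * (z / κ) ^ 2 := by field_simp
    have m1 : 1 ≤ max 1 (κ ^ 2) := le_max_left _ _
    have m2 : κ ^ 2 ≤ max 1 (κ ^ 2) := le_max_right _ _
    have := mul_le_mul_of_nonneg_right m2 (sq_nonneg (z / κ))
    rw [h3]; linarith
  calc 1 + (j : ℝ) ^ 2 ≤ (2 + 2 * R ^ 2) * (1 + z ^ 2) := e1
    _ ≤ (2 + 2 * R ^ 2) * (max 1 (κ ^ 2) * (1 + (z / κ) ^ 2)) := by gcongr
    _ = _ := by ring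

/-- the standing data for the pure point computation -/
structure PPData (a : Circ) where
  g : Circ → ℝ
  hg : Measurable g
  Bg : ℝ
  hBg : ∀ x, |g x| ≤ Bg
  C : ℝ
  hC0 : 0 ≤ C
  hC : ∀ h : ℝ, 0 < h → h < 1 → ∫ x : Circ, |g (x + (h : Circ)) - g x| ≤ C * h
  κ : ℝ
  hκ : 0 < κ

variable {a : Circ} (P : PPData a)

/-- constant in the bound of `WW` -/
noncomputable def PPData.C1 : ℝ := 1 + (π * P.C) ^ 2

lemma PPData.C1_nonneg : 0 ≤ P.C1 := by unfold PPData.C1; positivity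

lemma PPData.wW (s : ℝ) (m : ℤ) :
    wt s * WW P.g s m ≤ P.C1 * (1 / (1 + (m : ℝ) ^ 2)) * (1 / (1 + s ^ 2)) := by
  have h := WW_bound P.hg P.hBg P.hC0 P.hC s m
  calc wt s * WW P.g s m ≤ wt s * ((1 + (π * P.C) ^ 2) * ((1 + s ^ 2) * (1 / (1 + (m : ℝ) ^ 2)))) :=
        mul_le_mul_of_nonneg_left h (wt_pos s).le
    _ = _ := by
        unfold PPData.C1 wt
        field_simp

lemma PPData.GG_bound {f : 𝓢(ℝ, ℂ)} {Cf : ℝ} (hCf : 0 ≤ Cf) (hf : ∀ t, ‖f t‖ ≤ Cf * wt t) (m : ℤ)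
    {v R : ℝ} {j : ℤ} (h : |v - j| ≤ R) :
    ‖GG P.κ a P.g f m v‖ ≤ (Cf * P.C1 * (max 1 (P.κ ^ 2) * (2 + 2 * (R + 1) ^ 2))) *
      (1 / (1 + (m : ℝ) ^ 2)) * (1 / (1 + (j : ℝ) ^ 2)) := by
  unfold GG
  set s := (v + cc a m) / P.κ with hs
  rw [norm_mul, Complex.norm_real, Real.norm_of_nonneg (WW_nonneg _ _ _)]
  have hz : |(v + cc a m) - j| ≤ R + 1 := by
    have e1 := cc_nonneg a m
    have e2 := cc_lt a m
    rw [abs_le] at h ⊢
    constructor <;> linarith
  have hb := shift_bound P.hκ hz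
  have hC1 := P.C1_nonneg
  calc ‖f s‖ * WW P.g s m ≤ (Cf * wt s) * WW P.g s m :=
        mul_le_mul_of_nonneg_right (hf s) (WW_nonneg _ _ _)
    _ = Cf * (wt s * WW P.g s m) := by ring
    _ ≤ Cf * (P.C1 * (1 / (1 + (m : ℝ) ^ 2)) * (1 / (1 + s ^ 2))) :=
        mul_le_mul_of_nonneg_left (P.wW s m) hCf
    _ ≤ Cf * (P.C1 * (1 / (1 + (m : ℝ) ^ 2)) *
        (max 1 (P.κ ^ 2) * (2 + 2 * (R + 1) ^ 2) * (1 / (1 + (j : ℝ) ^ 2)))) := by
        gcongr
    _ = _ := by ring

/-- `G_m` as a continuous map -/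
noncomputable def PPData.Gc (f : 𝓢(ℝ, ℂ)) (m : ℤ) : C(ℝ, ℂ) :=
  ⟨GG P.κ a P.g f m, continuous_GG P.κ a P.hg f m⟩

open TopologicalSpace in
lemma PPData.h_norm (f : 𝓢(ℝ, ℂ)) (m : ℤ) (K : Compacts ℝ) :
    Summable fun n : ℤ => ‖((P.Gc f m).comp (ContinuousMap.addRight (n : ℝ))).restrict K‖ := by
  obtain ⟨Cf, hCf, hf⟩ := schwartz_wt f
  obtain ⟨R, hR⟩ := K.isCompact.isBounded.subset_closedBall (0 : ℝ)
  have hb : ∀ n : ℤ, ‖((P.Gc f m).comp (ContinuousMap.addRight (n : ℝ))).restrict K‖ ≤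
      ((Cf * P.C1 * (max 1 (P.κ ^ 2) * (2 + 2 * (R + 1) ^ 2))) *
      (1 / (1 + (m : ℝ) ^ 2))) * (1 / (1 + (n : ℝ) ^ 2)) := by
    intro n
    have hC1 := P.C1_nonneg
    rw [ContinuousMap.norm_le _ (by positivity)]
    rintro ⟨x, hx⟩
    simp only [ContinuousMap.restrict_apply, ContinuousMap.comp_apply, ContinuousMap.coe_addRight]
    apply P.GG_bound hCf hf m (R := R) (j := n)
    have := hR hx
    rw [mem_closedBall_zero_iff, Real.norm_eq_abs] at this
    simpa using this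
  exact Summable.of_nonneg_of_le (fun _ => norm_nonneg _) hb (summable_inv_sq.mul_left _)

/-- periodisation of `G_m` -/
noncomputable def PPData.Pm (f : 𝓢(ℝ, ℂ)) (m : ℤ) : C(UnitAddCircle, ℂ) :=
  ⟨((P.Gc f m).periodic_tsum_comp_add_zsmul 1).lift, continuous_coinduced_dom.mpr (map_continuous _)⟩

lemma PPData.Pm_apply (f : 𝓢(ℝ, ℂ)) (m : ℤ) (v : ℝ) :
    HasSum (fun n : ℤ => GG P.κ a P.g f m (v + n)) (P.Pm f m (v : UnitAddCircle)) := by
  have h := ContinuousMap.hasSum_apply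
    (ContinuousMap.summable_of_locally_summable_norm (P.h_norm f m)).hasSum v
  have e : P.Pm f m (v : UnitAddCircle) =
      (∑' n : ℤ, (P.Gc f m).comp (ContinuousMap.addRight (n : ℝ))) v := by
    unfold PPData.Pm
    simp only [ContinuousMap.coe_mk, Function.Periodic.lift_coe, zsmul_one]
  rw [e]
  exact h

lemma PPData.norm_Pm (f : 𝓢(ℝ, ℂ)) : ∃ B : ℝ, ∀ m : ℤ, ‖P.Pm f m‖ ≤ B * (1 / (1 + (m : ℝ) ^ 2)) := by
  obtain ⟨Cf, hCf, hf⟩ := schwartz_wt f
  have hC1 := P.C1_nonneg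
  have hs := summable_inv_sq
  refine ⟨(Cf * P.C1 * (max 1 (P.κ ^ 2) * (2 + 2 * (1 + 1) ^ 2))) * ∑' n : ℤ, 1 / (1 + (n : ℝ) ^ 2),
    fun m => ?_⟩
  have hpos : 0 ≤ ∑' n : ℤ, 1 / (1 + (n : ℝ) ^ 2) := tsum_nonneg (fun n => by positivity)
  rw [ContinuousMap.norm_le _ (by positivity)]
  intro x
  rw [← coe_fr x]
  have h := P.Pm_apply f m (fr x)
  have hb : ∀ n : ℤ, ‖GG P.κ a P.g f m (fr x + n)‖ ≤
      ((Cf * P.C1 * (max 1 (P.κ ^ 2) * (2 + 2 * (1 + 1) ^ 2))) *
      (1 / (1 + (m : ℝ) ^ 2))) * (1 / (1 + (n : ℝ) ^ 2)) := by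
    intro n
    apply P.GG_bound hCf hf m (R := 1) (j := n)
    rw [add_sub_cancel_right, abs_of_nonneg (fr_nonneg x)]
    exact (fr_lt_one x).le
  rw [← h.tsum_eq]
  refine (tsum_of_norm_bounded (hs.mul_left _).hasSum hb).trans ?_
  rw [tsum_mul_left]
  apply le_of_eq; ring

/-- Fourier coefficient functional on continuous functions -/
noncomputable def Lk (k : ℤ) : C(UnitAddCircle, ℂ) →L[ℂ] ℂ :=
  LinearMap.mkContinuous
    { toFun := fun f => fourierCoeff f k
      map_add' := by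
        intro f g
        rw [fc_eq, fc_eq, fc_eq, ← integral_add]
        · congr 1; funext x; simp [mul_add]
        · exact ((fourier (-k)) * f).continuous.integrable_of_hasCompactSupport
            (HasCompactSupport.of_compactSpace _)
        · exact ((fourier (-k)) * g).continuous.integrable_of_hasCompactSupport
            (HasCompactSupport.of_compactSpace _)
      map_smul' := by
        intro c f
        rw [fc_eq, fc_eq, RingHom.id_apply, smul_eq_mul, ← integral_const_mul]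
        congr 1; funext x
        simp only [ContinuousMap.coe_smul, Pi.smul_apply, smul_eq_mul]; ring } 1
    (by
      intro f
      simp only [LinearMap.coe_mk, AddHom.coe_mk, one_mul]
      rw [fc_eq]
      calc ‖∫ x : Circ, fourier (-k) x * f x‖ ≤ ∫ x : Circ, ‖f‖ := by
            apply norm_integral_le_of_norm_le (integrable_const _)
            refine Eventually.of_forall (fun x => ?_)
            rw [norm_mul, norm_fourier_apply, one_mul]
            exact f.norm_coe_le_norm x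
        _ = ‖f‖ := by simp [Measure.real])

lemma Lk_apply (k : ℤ) (f : C(UnitAddCircle, ℂ)) : Lk k f = fourierCoeff f k := rfl

lemma PPData.fc_Pm (f : 𝓢(ℝ, ℂ)) (m k : ℤ) :
    fourierCoeff (P.Pm f m) k = 𝓕 (GG P.κ a P.g f m) k := by
  have := Real.fourierCoeff_tsum_comp_add (P.h_norm f m) k
  exact this

lemma PPData.F_GG (f : 𝓢(ℝ, ℂ)) (m k : ℤ) :
    𝓕 (GG P.κ a P.g f m) k = P.κ * ∫ s : ℝ,
      f s * Complex.exp (((-2 * π * s * (P.κ * k) : ℝ) : ℂ) * Complex.I) *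
        ((WW P.g s m : ℂ) * fourier m (k • a)) := by
  rw [Real.fourier_real_eq_integral_exp_smul]
  have hκ := P.hκ
  set h : ℝ → ℂ := fun s => f s * Complex.exp (((-2 * π * s * (P.κ * k) : ℝ) : ℂ) * Complex.I) *
        ((WW P.g s m : ℂ) * fourier m (k • a)) with hh
  have key : ∀ v : ℝ, Complex.exp (((-2 * π * v * k : ℝ) : ℂ) * Complex.I) • GG P.κ a P.g f m v =
      h ((v + cc a m) / P.κ) := by
    intro v
    rw [hh]
    unfold GG
    have e1 : (fourier m (k • a) : ℂ) = Complex.exp (((2 * π * cc a m * k : ℝ) : ℂ) * Complex.I) := by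
      have e2 : (fourier m (k • a) : ℂ) = fourier k ((cc a m : ℝ) : Circ) := by
        unfold cc
        rw [coe_fr, fourier_apply, fourier_apply, smul_comm]
      rw [e2, fourier_coe_apply]
      congr 1
      push_cast; ring
    rw [e1]
    have e3 : Complex.exp (((-2 * π * v * k : ℝ) : ℂ) * Complex.I) =
      Complex.exp (((-2 * π * ((v + cc a m) / P.κ) * (P.κ * k) : ℝ) : ℂ) * Complex.I) *
      Complex.exp (((2 * π * cc a m * k : ℝ) : ℂ) * Complex.I) := by
      rw [← Complex.exp_add]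
      congr 1
      rw [← add_mul]
      congr 1
      have : -2 * π * v * k = -2 * π * ((v + cc a m) / P.κ) * (P.κ * k) + 2 * π * cc a m * k := by
        field_simp; ring
      rw [this]; push_cast; ring
    rw [e3]
    simp only [smul_eq_mul]
    ring
  simp_rw [key]
  rw [integral_add_right_eq_self (fun v : ℝ => h (v / P.κ)) (cc a m)]
  rw [Measure.integral_comp_div h P.κ, abs_of_pos hκ]
  simp

/-- the main identity for the Fourier coefficients -/
lemma PPData.hasSum_coeff (f : 𝓢(ℝ, ℂ)) (k : ℤ) (F : Circ → ℝ) (hFm : Measurable F)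
    (hF : ∀ x, F x = P.κ * k + P.g (x + k • a) - P.g x) :
    HasSum (fun m : ℤ => 𝓕 (GG P.κ a P.g f m) k) (P.κ * ∫ x : Circ, (𝓕 f : 𝓢(ℝ, ℂ)) (F x)) := by
  obtain ⟨Cf, hCf, hf⟩ := schwartz_wt f
  have hC1 := P.C1_nonneg
  have hcexp : Continuous (fun s : ℝ => Complex.exp (((-2 * π * s * (P.κ * k) : ℝ) : ℂ) * Complex.I)) := by
    fun_prop
  set Fm : ℤ → ℝ → ℂ := fun m s =>
    f s * Complex.exp (((-2 * π * s * (P.κ * k) : ℝ) : ℂ) * Complex.I) *
        ((WW P.g s m : ℂ) * fourier m (k • a)) with hFmdef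
  have hnorm : ∀ m s, ‖Fm m s‖ ≤ (Cf * P.C1 * (1 / (1 + (m : ℝ) ^ 2))) * (1 + s ^ 2)⁻¹ := by
    intro m s
    rw [hFmdef]
    simp only
    rw [norm_mul, norm_mul, norm_mul, Complex.norm_exp_ofReal_mul_I, norm_fourier_apply, mul_one, mul_one,
      Complex.norm_real, Real.norm_of_nonneg (WW_nonneg _ _ _)]
    calc ‖f s‖ * WW P.g s m ≤ (Cf * wt s) * WW P.g s m :=
          mul_le_mul_of_nonneg_right (hf s) (WW_nonneg _ _ _)
      _ = Cf * (wt s * WW P.g s m) := by ring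
      _ ≤ Cf * (P.C1 * (1 / (1 + (m : ℝ) ^ 2)) * (1 / (1 + s ^ 2))) :=
          mul_le_mul_of_nonneg_left (P.wW s m) hCf
      _ = _ := by rw [one_div (1 + s ^ 2)]; ring
  have hcont : ∀ m, Continuous (Fm m) := by
    intro m
    rw [hFmdef]
    exact (f.continuous.mul hcexp).mul ((Complex.continuous_ofReal.comp (continuous_WW P.hg m)).mul
      continuous_const)
  have hint : ∀ m, Integrable (Fm m) := fun m =>
    (integrable_inv_one_add_sq.const_mul _).mono' (hcont m).aestronglyMeasurable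
      (Eventually.of_forall (hnorm m))
  have hsum : Summable (fun m => ∫ s, ‖Fm m s‖) := by
    refine Summable.of_nonneg_of_le (fun m => integral_nonneg (fun _ => norm_nonneg _)) (fun m => ?_)
      (summable_inv_sq.mul_left (Cf * P.C1 * ∫ s : ℝ, (1 + s ^ 2)⁻¹))
    calc ∫ s, ‖Fm m s‖ ≤ ∫ s : ℝ, (Cf * P.C1 * (1 / (1 + (m : ℝ) ^ 2))) * (1 + s ^ 2)⁻¹ :=
          integral_mono (hint m).norm (integrable_inv_one_add_sq.const_mul _) (hnorm m)
      _ = _ := by rw [integral_const_mul]; ring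
  have h1 := hasSum_integral_of_summable_integral_norm hint hsum
  have h2 : ∀ s : ℝ, ∑' m, Fm m s = ∫ x : Circ,
      f s * Complex.exp (((-2 * π * s * F x : ℝ) : ℂ) * Complex.I) := by
    intro s
    have hp := parseval P.hg s (k • a)
    have hp2 := hp.mul_left (f s * Complex.exp (((-2 * π * s * (P.κ * k) : ℝ) : ℂ) * Complex.I))
    have e1 := hp2.tsum_eq
    rw [hFmdef]
    simp only
    rw [e1, ← integral_const_mul]
    congr 1
    funext x
    have e2 : conj (uu P.g s x) = Complex.exp (((2 * π * s * P.g x : ℝ) : ℂ) * Complex.I) := by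
      unfold uu
      rw [← Complex.exp_conj]
      congr 1
      rw [map_mul, Complex.conj_ofReal, Complex.conj_I]
      push_cast; ring
    rw [e2]
    unfold uu
    rw [← Complex.exp_add, mul_assoc, ← Complex.exp_add]
    congr 2
    rw [hF x]
    push_cast; ring
  have h3 : (∫ s : ℝ, ∑' m, Fm m s) = ∫ x : Circ, (𝓕 f : 𝓢(ℝ, ℂ)) (F x) := by
    simp_rw [h2]
    rw [integral_integral_swap]
    · congr 1
      funext x
      rw [SchwartzMap.fourier_coe, Real.fourier_real_eq_integral_exp_smul]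
      congr 1
      funext s
      rw [smul_eq_mul, mul_comm]
    · have hfi : Integrable (fun s : ℝ => f s) := f.integrable
      have hb := (hfi.norm).mul_prod (integrable_const (1 : ℝ) (μ := (volume : Measure Circ)))
      refine hb.mono' ?_ ?_
      · apply Measurable.aestronglyMeasurable
        have hfm : Measurable (fun s : ℝ => f s) := f.continuous.measurable
        have : Measurable (fun p : ℝ × Circ => f p.1 *
          Complex.exp (((-2 * π * p.1 * F p.2 : ℝ) : ℂ) * Complex.I)) := by fun_prop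
        exact this
      · refine Eventually.of_forall (fun p => ?_)
        simp only [Function.uncurry]
        rw [norm_mul, Complex.norm_exp_ofReal_mul_I]
  rw [h3] at h1
  have h4 := h1.mul_left (P.κ : ℂ)
  refine h4.congr_fun ?_
  intro m
  rw [P.F_GG f m k]

end Pool.Agent.H382R3.KD
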