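import Mathlib
import Pool.Agent.H382R3.KD.PP2

set_option autoImplicit false

open MeasureTheory Filter Topology Set
open scoped FourierTransform SchwartzMap ComplexConjugate Real

namespace Pool.Agent.H382R3.KD

variable {a : Circ} (P : PPData a)

lemma PPData.summable_Pm (f : 𝓢(ℝ, ℂ)) : Summable (fun m => P.Pm f m) := by
  obtain ⟨B, hB⟩ := P.norm_Pm f
  exact Summable.of_norm_bounded (summable_inv_sq.mul_left B) hB

/-- sum of the periodisations -/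
noncomputable def PPData.H (f : 𝓢(ℝ, ℂ)) : C(UnitAddCircle, ℂ) := ∑' m, P.Pm f m

lemma PPData.fc_H (f : 𝓢(ℝ, ℂ)) (k : ℤ) :
    fourierCoeff (P.H f) k = ∑' m, 𝓕 (GG P.κ a P.g f m) k := by
  have h := (P.summable_Pm f).hasSum.mapL (Lk k)
  have e : fourierCoeff (P.H f) k = Lk k (∑' m, P.Pm f m) := rfl
  rw [e, ← h.tsum_eq]
  congr 1
  funext m
  rw [Lk_apply, P.fc_Pm]

lemma PPData.H_zero (f : 𝓢(ℝ, ℂ)) :
    P.H f 0 = ∑' m : ℤ, ∑' n : ℤ, GG P.κ a P.g f m n := by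
  have h := ContinuousMap.hasSum_apply (P.summable_Pm f).hasSum (0 : UnitAddCircle)
  have e : P.H f 0 = (∑' m, P.Pm f m) 0 := rfl
  rw [e, ← h.tsum_eq]
  congr 1
  funext m
  have h2 := (P.Pm_apply f m 0).tsum_eq
  simp only [zero_add] at h2
  rw [h2]
  simp

lemma PPData.GG_int (f : 𝓢(ℝ, ℂ)) (q : ℤ × ℤ) :
    GG P.κ a P.g f q.1 q.2 = f (sp P.κ a q) * (WW P.g (sp P.κ a q) q.1 : ℂ) := rfl

lemma summable_prod_inv : Summable (fun q : ℤ × ℤ => (1 / (1 + (q.1 : ℝ) ^ 2)) * (1 / (1 + (q.2 : ℝ) ^ 2))) :=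
  summable_inv_sq.mul_of_nonneg summable_inv_sq (fun _ => by positivity) (fun _ => by positivity)

lemma PPData.wt_bound (q : ℤ × ℤ) :
    wt (sp P.κ a q) * WW P.g (sp P.κ a q) q.1 ≤
      (P.C1 * (max 1 (P.κ ^ 2) * (2 + 2 * (1 : ℝ) ^ 2))) *
        ((1 / (1 + (q.1 : ℝ) ^ 2)) * (1 / (1 + (q.2 : ℝ) ^ 2))) := by
  have h := P.wW (sp P.κ a q) q.1
  have hz : |((q.2 : ℝ) + cc a q.1) - q.2| ≤ 1 := by
    rw [add_sub_cancel_left, abs_of_nonneg (cc_nonneg _ _)]; exact (cc_lt _ _).le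
  have hb := shift_bound P.hκ hz
  have hC1 := P.C1_nonneg
  refine h.trans ?_
  calc P.C1 * (1 / (1 + (q.1 : ℝ) ^ 2)) * (1 / (1 + (sp P.κ a q) ^ 2))
      ≤ P.C1 * (1 / (1 + (q.1 : ℝ) ^ 2)) *
        (max 1 (P.κ ^ 2) * (2 + 2 * (1 : ℝ) ^ 2) * (1 / (1 + (q.2 : ℝ) ^ 2))) := by
        gcongr
        exact hb
    _ = _ := by ring

lemma PPData.summable_wt :
    Summable (fun q : ℤ × ℤ => wt (sp P.κ a q) * WW P.g (sp P.κ a q) q.1) :=
  Summable.of_nonneg_of_le (fun q => mul_nonneg (wt_pos _).le (WW_nonneg _ _ _)) P.wt_bound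
    (summable_prod_inv.mul_left _)

/-- weights of the atoms -/
noncomputable def PPData.wgt (q : ℤ × ℤ) : ENNReal :=
  ENNReal.ofReal (WW P.g (sp P.κ a q) q.1 / P.κ ^ 2)

lemma PPData.wgt_toReal (q : ℤ × ℤ) : (P.wgt q).toReal = WW P.g (sp P.κ a q) q.1 / P.κ ^ 2 := by
  unfold PPData.wgt
  rw [ENNReal.toReal_ofReal (div_nonneg (WW_nonneg _ _ _) (sq_nonneg _))]

/-- the diffraction measure -/
noncomputable def PPData.mu : Measure ℝ :=
  Measure.sum fun q : ℤ × ℤ => P.wgt q • Measure.dirac (sp P.κ a q)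

lemma PPData.integrable_wt_mu : Integrable wt P.mu := by
  apply integrable_sum_dirac (fun q => by unfold PPData.wgt; simp)
  refine (P.summable_wt.mul_left (1 / P.κ ^ 2)).congr (fun q => ?_)
  rw [P.wgt_toReal, Real.norm_of_nonneg (wt_pos _).le]; ring

lemma PPData.summable_GG (f : 𝓢(ℝ, ℂ)) : Summable (fun q : ℤ × ℤ => GG P.κ a P.g f q.1 q.2) := by
  obtain ⟨Cf, hCf, hf⟩ := schwartz_wt f
  refine Summable.of_norm_bounded (P.summable_wt.mul_left Cf) (fun q => ?_)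
  rw [P.GG_int, norm_mul, Complex.norm_real, Real.norm_of_nonneg (WW_nonneg _ _ _), ← mul_assoc]
  exact mul_le_mul_of_nonneg_right (hf _) (WW_nonneg _ _ _)

lemma PPData.integral_mu (f : 𝓢(ℝ, ℂ)) :
    ∫ s, f s ∂P.mu = (1 / P.κ ^ 2 : ℂ) * P.H f 0 := by
  have hi := integrable_schwartz P.integrable_wt_mu f
  unfold PPData.mu at hi ⊢
  rw [integral_sum_dirac_eq_tsum (fun q => by unfold PPData.wgt; simp) hi.summable_of_dirac,
    P.H_zero, ← (P.summable_GG f).tsum_prod, ← tsum_mul_left]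
  congr 1
  funext q
  rw [P.wgt_toReal, P.GG_int, Complex.real_smul]
  push_cast
  ring

theorem PPData.isFT {D : ℝ} (h0 : 0 < D) (h1 : D < 1) (hκ : P.κ = kap D)
    (hF : ∀ (k : ℤ) (x : Circ), FF D a k x = P.κ * k + P.g (x + k • a) - P.g x) :
    IsFourierTransformOf (eta D a) P.mu := by
  refine ⟨locFin_of_wt P.integrable_wt_mu, fun f => ?_⟩
  have hie := integrable_schwartz (integrable_wt_eta h0 h1 a) (𝓕 f : 𝓢(ℝ, ℂ))
  refine ⟨hie, integrable_schwartz P.integrable_wt_mu f, ?_⟩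
  have hcoef : ∀ k : ℤ, fourierCoeff (P.H f) k = P.κ * ∫ x : Circ, (𝓕 f : 𝓢(ℝ, ℂ)) (FF D a k x) := by
    intro k
    rw [P.fc_H]
    exact (P.hasSum_coeff f k (FF D a k) (measurable_FF D a k) (hF k)).tsum_eq
  have hκ0 := P.hκ
  obtain ⟨Cf, hCf, hf⟩ := schwartz_wt (𝓕 f : 𝓢(ℝ, ℂ))
  have hbound : ∀ k : ℤ, ‖∫ x : Circ, (𝓕 f : 𝓢(ℝ, ℂ)) (FF D a k x)‖ ≤
      Cf * (max 1 (1 / del D ^ 2)) * (1 / (1 + (k : ℝ) ^ 2)) := by
    intro k
    calc ‖∫ x : Circ, (𝓕 f : 𝓢(ℝ, ℂ)) (FF D a k x)‖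
        ≤ ∫ x : Circ, Cf * (max 1 (1 / del D ^ 2)) * (1 / (1 + (k : ℝ) ^ 2)) := by
          apply norm_integral_le_of_norm_le (integrable_const _)
          refine Eventually.of_forall (fun x => (hf _).trans ?_)
          rw [mul_assoc]
          exact mul_le_mul_of_nonneg_left (FF_wt h0 h1 a k x) hCf
      _ = _ := by simp [Measure.real]
  have hsum : Summable (fourierCoeff (P.H f)) := by
    refine Summable.of_norm_bounded
      (summable_inv_sq.mul_left (P.κ * (Cf * (max 1 (1 / del D ^ 2))))) (fun k => ?_)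
    rw [hcoef k, norm_mul, Complex.norm_real, Real.norm_of_nonneg hκ0.le, mul_assoc]
    exact mul_le_mul_of_nonneg_left (hbound k) hκ0.le
  have hpt := has_pointwise_sum_fourier_series_of_summable hsum (0 : UnitAddCircle)
  rw [P.integral_mu, ← hpt.tsum_eq, integral_eta h0 a (𝓕 f : 𝓢(ℝ, ℂ)).continuous.stronglyMeasurable hie,
    ← tsum_mul_left]
  congr 1
  funext k
  rw [fourier_eval_zero, hcoef k, smul_eq_mul, mul_one, ← hκ, Complex.real_smul]
  have : (P.κ : ℂ) ≠ 0 := by exact_mod_cast hκ0.ne'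
  push_cast
  field_simp

end Pool.Agent.H382R3.KD
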