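import Mathlib
import Pool.Agent.H382R3.KD.PP3

set_option autoImplicit false

open MeasureTheory Filter Topology Set
open scoped FourierTransform SchwartzMap ComplexConjugate Real ContDiff

namespace Pool.Agent.H382R3.KD

lemma exists_test {ε : ℝ} (hε : 0 < ε) : ∃ (f : 𝓢(ℝ, ℂ)) (b : ℝ → ℝ), (∀ s, ‖f s‖ ≤ 2 * ε) ∧
    (∀ x, (𝓕 f : 𝓢(ℝ, ℂ)) x = (b x : ℂ)) ∧ (∀ x, 0 ≤ b x) ∧ b 0 = 1 ∧ Continuous b := by
  let φ : ContDiffBump (0 : ℝ) := ⟨ε / 2, ε, by positivity, by linarith⟩
  have hc : HasCompactSupport (fun x => ((φ x : ℝ) : ℂ)) := by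
    have := φ.hasCompactSupport
    exact this.comp_left (g := fun t : ℝ => (t : ℂ)) (by simp)
  have hd : ContDiff ℝ ∞ (fun x => ((φ x : ℝ) : ℂ)) := Complex.ofRealCLM.contDiff.comp φ.contDiff
  let B : 𝓢(ℝ, ℂ) := hc.toSchwartzMap hd
  refine ⟨𝓕⁻ B, fun x => φ x, ?_, ?_, fun x => φ.nonneg, ?_, φ.continuous⟩
  · intro s
    rw [SchwartzMap.fourierInv_coe, Real.fourierInv_eq']
    have hφi : ∀ v : ℝ, ‖Complex.exp ((↑(2 * π * inner ℝ v s) * Complex.I)) • B v‖ ≤
        (Icc (-ε) ε).indicator (fun _ => (1 : ℝ)) v := by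
      intro v
      rw [norm_smul, Complex.norm_exp_ofReal_mul_I, one_mul]
      show ‖((φ v : ℝ) : ℂ)‖ ≤ _
      rw [Complex.norm_real, Real.norm_of_nonneg φ.nonneg]
      by_cases hv : v ∈ Icc (-ε) ε
      · rw [indicator_of_mem hv]; exact φ.le_one
      · rw [indicator_of_notMem hv]
        apply le_of_eq
        apply φ.zero_of_le_dist
        rw [Real.dist_eq, sub_zero]
        by_contra h
        push Not at h
        have h2 : |v| < ε := h
        apply hv
        rw [abs_lt] at h2
        exact ⟨h2.1.le, h2.2.le⟩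
    calc ‖∫ v : ℝ, Complex.exp ((↑(2 * π * inner ℝ v s) * Complex.I)) • B v‖
        ≤ ∫ v : ℝ, (Icc (-ε) ε).indicator (fun _ => (1 : ℝ)) v := by
          apply norm_integral_le_of_norm_le
          · rw [integrable_indicator_iff measurableSet_Icc]
            exact integrableOn_const (by simp)
          · exact Eventually.of_forall hφi
      _ = 2 * ε := by
          rw [integral_indicator measurableSet_Icc]
          simp only [integral_const, MeasurableSet.univ, measureReal_restrict_apply, univ_inter,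
            smul_eq_mul, mul_one, Real.volume_real_Icc]
          rw [max_eq_left (by linarith)]; ring
  · intro x
    have : (𝓕 (𝓕⁻ B) : 𝓢(ℝ, ℂ)) = B := FourierTransform.fourier_fourierInv_eq B
    rw [this]
    rfl
  · apply φ.one_of_mem_closedBall
    exact Metric.mem_closedBall_self (by positivity)

/-- a finite measure cannot be the Fourier transform of a measure with an atom at `0` -/
lemma not_finite_of_atom {η μ : Measure ℝ} (hη : IsLocallyFiniteMeasure η) (h0 : η {0} ≠ 0)
    (hft : IsFourierTransformOf η μ) : ¬ IsFiniteMeasure μ := by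
  intro hfin
  obtain ⟨_, hft⟩ := hft
  set c : ℝ := (η {0}).toReal with hc
  have hη0 : η {0} ≠ ⊤ := by
    have := (isCompact_singleton (x := (0 : ℝ))).measure_lt_top (μ := η)
    exact this.ne
  have hcpos : 0 < c := ENNReal.toReal_pos h0 hη0
  set m : ℝ := μ.real univ with hm
  have hm0 : 0 ≤ m := measureReal_nonneg
  obtain ⟨f, b, hf, hb, hb0, hb1, hbc⟩ := exists_test (ε := c / (4 * (m + 1))) (by positivity)
  obtain ⟨hi1, hi2, heq⟩ := hft f
  have e1 : ‖∫ s, f s ∂μ‖ ≤ 2 * (c / (4 * (m + 1))) * m := by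
    refine norm_integral_le_of_norm_le_const (Eventually.of_forall hf)
  have hib : Integrable b η := by
    have : Integrable (fun x => (b x : ℂ)) η := hi1.congr (Eventually.of_forall (fun x => hb x))
    exact this.re.congr (Eventually.of_forall (fun x => by simp))
  have e2 : c ≤ ‖∫ x, (𝓕 f : 𝓢(ℝ, ℂ)) x ∂η‖ := by
    simp_rw [hb]
    rw [integral_complex_ofReal, Complex.norm_real, Real.norm_of_nonneg (integral_nonneg hb0)]
    calc c = ∫ x in ({0} : Set ℝ), b x ∂η := by
          rw [integral_singleton, hb1]; simp [hc, Measure.real]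
      _ ≤ ∫ x, b x ∂η := setIntegral_le_integral hib (Eventually.of_forall hb0)
  rw [heq] at e2
  have e3 : 2 * (c / (4 * (m + 1))) * m < c := by
    rw [mul_div_assoc', div_mul_eq_mul_div, div_lt_iff₀ (by positivity)]
    nlinarith
  linarith

lemma infinite_atoms_sum {ι : Type*} [Countable ι] {w : ι → ENNReal} {p : ι → ℝ}
    (hloc : IsLocallyFiniteMeasure (Measure.sum fun i => w i • Measure.dirac (p i)))
    (hinf : ¬ IsFiniteMeasure (Measure.sum fun i => w i • Measure.dirac (p i))) :
    {s : ℝ | (Measure.sum fun i => w i • Measure.dirac (p i)) {s} ≠ 0}.Infinite := by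
  intro hfin
  apply hinf
  set μ := Measure.sum fun i => w i • Measure.dirac (p i) with hμ
  set A := {s : ℝ | μ {s} ≠ 0} with hA
  have hAm : MeasurableSet A := hfin.measurableSet
  have hcompl : μ Aᶜ = 0 := by
    rw [hμ, Measure.sum_apply _ hAm.compl]
    simp only [Measure.smul_apply, smul_eq_mul, ENNReal.tsum_eq_zero, mul_eq_zero]
    intro i
    by_cases hw : w i = 0
    · left; exact hw
    · right
      rw [Measure.dirac_apply' _ hAm.compl]
      rw [indicator_of_notMem]
      simp only [mem_compl_iff, not_not]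
      rw [hA]
      show μ {p i} ≠ 0
      have : w i ≤ μ {p i} := by
        calc w i = (w i • Measure.dirac (p i)) {p i} := by simp
          _ ≤ μ {p i} := Measure.le_sum (fun i => w i • Measure.dirac (p i)) i _
      intro h0
      rw [h0] at this
      exact hw (le_antisymm this (zero_le))
  constructor
  calc μ univ = μ (A ∪ Aᶜ) := by rw [union_compl_self]
    _ ≤ μ A + μ Aᶜ := measure_union_le _ _
    _ = μ A := by rw [hcompl, add_zero]
    _ < ⊤ := hfin.isCompact.measure_lt_top

lemma countable_atoms {μ : Measure ℝ} (h : IsLocallyFiniteMeasure μ) :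
    {s : ℝ | μ {s} ≠ 0}.Countable := by
  have := Measure.countable_meas_pos_of_disjoint_iUnion (μ := μ) (As := fun s : ℝ => ({s} : Set ℝ))
    (fun s => measurableSet_singleton s) (fun s t hst => by simpa using hst)
  refine this.mono (fun s hs => ?_)
  exact pos_iff_ne_zero.2 hs

lemma eta_zero {D : ℝ} (h0 : 0 < D) (a : Circ) : eta D a {0} ≠ 0 := by
  have hk := kap_pos h0
  have h : (ENNReal.ofReal (1 / kap D) • Measure.map (FF D a 0) (volume : Measure Circ)) {0} ≤ eta D a {0} :=
    Measure.le_sum (fun k : ℤ => ENNReal.ofReal (1 / kap D) • Measure.map (FF D a k) (volume : Measure Circ)) 0 _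
  intro hz
  rw [hz] at h
  have h2 := le_antisymm h (zero_le)
  rw [Measure.smul_apply, Measure.map_apply (measurable_FF D a 0) (measurableSet_singleton 0)] at h2
  have : FF D a 0 ⁻¹' {0} = univ := by
    ext x; simp [FF_zero]
  rw [this] at h2
  simp only [smul_eq_mul, mul_eq_zero, ENNReal.ofReal_eq_zero] at h2
  rcases h2 with h2 | h2
  · have : 0 < 1 / kap D := by positivity
    linarith
  · simp at h2

end Pool.Agent.H382R3.KD
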