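import Mathlib
import Pool.Agent.H382R3.KD.Auto

set_option autoImplicit false

open MeasureTheory Filter Topology Set
open scoped FourierTransform SchwartzMap

namespace Pool.Agent.H382R3.KD

lemma sum_Icc_split (h : ℤ → ℝ) (M N : ℕ) :
    ∑ n ∈ Finset.Icc (-(M : ℤ)) N, h n =
      ∑ n ∈ Finset.range (N + 1), h n + ∑ m ∈ Finset.range M, h (-1 - m) := by
  induction M with
  | zero =>
    simp only [Nat.cast_zero, neg_zero, Finset.range_zero, Finset.sum_empty, add_zero]
    induction N with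
    | zero => simp
    | succ N ih =>
      rw [Finset.sum_range_succ, ← ih]
      have : Finset.Icc (0 : ℤ) ((N + 1 : ℕ) : ℤ) = insert ((N + 1 : ℕ) : ℤ) (Finset.Icc 0 (N : ℤ)) := by
        ext i; simp only [Finset.mem_Icc, Finset.mem_insert]; push_cast; omega
      rw [this, Finset.sum_insert (by simp), add_comm]
  | succ M ih =>
    rw [Finset.sum_range_succ (fun m : ℕ => h (-1 - m)) M, ← add_assoc, ← ih]
    have : Finset.Icc (-((M + 1 : ℕ) : ℤ)) (N : ℤ) =
        insert (-1 - (M : ℤ)) (Finset.Icc (-(M : ℤ)) (N : ℤ)) := by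
      ext i; simp only [Finset.mem_Icc, Finset.mem_insert]; push_cast; omega
    rw [this, Finset.sum_insert (by simp), add_comm]

lemma strictMono_FF {D : ℝ} (h0 : 0 < D) (h1 : D < 1) (a x : Circ) :
    StrictMono (fun n : ℤ => FF D a n x) := by
  apply strictMono_int_of_lt_succ
  intro n
  rw [FF_succ]
  linarith [rr_pos h0 h1 (x + n • a)]

lemma FF_one (D : ℝ) (a x : Circ) : FF D a 1 x = rr D x := by
  have := FF_succ D a 0 x
  rw [FF_zero] at this
  simpa using this

lemma FF_nat (D : ℝ) (a x : Circ) (n : ℕ) :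
    FF D a n x = ∑ m ∈ Finset.range n, rr D (x + m • a) := by
  induction n with
  | zero => simp [FF_zero]
  | succ n ih =>
    rw [Finset.sum_range_succ, ← ih]
    push_cast
    rw [FF_succ]; simp

lemma FF_neg_nat (D : ℝ) (a x : Circ) (n : ℕ) :
    -FF D a (-(n : ℤ)) x = ∑ m ∈ Finset.range n, rr D ((x - a) + m • (-a)) := by
  induction n with
  | zero => simp [FF_zero]
  | succ n ih =>
    rw [Finset.sum_range_succ, ← ih]
    have := FF_succ D a (-((n : ℤ) + 1)) x
    rw [show -((n : ℤ) + 1) + 1 = -n by ring] at this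
    push_cast
    rw [this]
    have e : x + (-((n : ℤ) + 1)) • a = x - a + n • (-a) := by
      rw [neg_smul, add_smul, one_smul, smul_neg, natCast_zsmul]; abel
    rw [e]; ring

lemma avg_rr {D : ℝ} (h0 : 0 < D) (h1 : D < 1) {a : Circ} (ha : addOrderOf a = 0) (s : Circ) :
    Tendsto (fun M : ℕ => (∑ m ∈ Finset.range M, rr D (s + m • a)) / M) atTop (𝓝 (kap D)) := by
  have hk := kap_pos h0
  have key : ∀ x : Circ, min |FF D a 1 x| (1 / kap D) = rr D x := by
    intro x
    rw [FF_one, abs_of_pos (rr_pos h0 h1 x), min_eq_left (rr_le h0 h1 x)]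
  have := weyl_FF (D := D) ha s a 1 (φ := fun t => min |t| (1 / kap D)) (by fun_prop) (B := 1 / kap D)
    (fun t => by
      rw [abs_of_nonneg (le_min (abs_nonneg _) (by positivity))]; exact min_le_right _ _)
  simp_rw [key] at this
  rwa [integral_rr h0 h1] at this

lemma pair_bound {y : ℤ → ℝ} {δ : ℝ} (hδ : 0 < δ) (hy : ∀ n k : ℤ, δ * |(k : ℝ)| ≤ |y (n + k) - y n|)
    {φ : ℝ → ℝ} {B R : ℝ} (hB : ∀ t, |φ t| ≤ B) (hR : ∀ t, R < |t| → φ t = 0) {K : ℕ}
    (hK : R < δ * K) (M N : ℕ) :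
    |∑ n ∈ Finset.Icc (-(M : ℤ)) N, ∑ m ∈ Finset.Icc (-(M : ℤ)) N, φ (y m - y n) -
      ∑ n ∈ Finset.Icc (-(M : ℤ)) N, ∑ k ∈ Finset.Icc (-(K : ℤ)) K, φ (y (n + k) - y n)|
      ≤ (2 * K) * (B * (2 * K + 1)) := by
  classical
  have hB0 : 0 ≤ B := (abs_nonneg _).trans (hB 0)
  set I := Finset.Icc (-(M : ℤ)) (N : ℤ) with hI
  rw [← Finset.sum_sub_distrib]
  -- vanishing
  have hvan : ∀ n m : ℤ, (K : ℤ) < |m - n| → φ (y m - y n) = 0 := by
    intro n m hm
    apply hR
    have h := hy n (m - n)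
    rw [add_sub_cancel] at h
    refine lt_of_lt_of_le hK (le_trans ?_ h)
    apply mul_le_mul_of_nonneg_left _ hδ.le
    have : ((K : ℤ) : ℝ) < ((|m - n| : ℤ) : ℝ) := by exact_mod_cast hm
    push_cast at this
    push_cast
    exact this.le
  have hterm : ∀ n ∈ I, |∑ m ∈ I, φ (y m - y n) - ∑ k ∈ Finset.Icc (-(K : ℤ)) K, φ (y (n + k) - y n)|
      ≤ if n < -(M : ℤ) + K ∨ (N : ℤ) - K < n then B * (2 * K + 1) else 0 := by
    intro n hn
    have e1 : ∑ k ∈ Finset.Icc (-(K : ℤ)) K, φ (y (n + k) - y n) =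
        ∑ m ∈ Finset.Icc (n - K) (n + K), φ (y m - y n) := by
      refine Finset.sum_bij (fun k _ => n + k) ?_ ?_ ?_ ?_
      · intro k hk; simp only [Finset.mem_Icc] at hk ⊢; omega
      · intro k _ k' _ h; simpa using h
      · intro m hm
        simp only [Finset.mem_Icc] at hm
        exact ⟨m - n, by simp only [Finset.mem_Icc]; omega, by ring⟩
      · intro k _; rfl
    have e2 : ∑ m ∈ I, φ (y m - y n) = ∑ m ∈ I ∩ Finset.Icc (n - K) (n + K), φ (y m - y n) := by
      symm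
      apply Finset.sum_subset Finset.inter_subset_left
      intro m hm hm2
      apply hvan
      by_contra hle
      push Not at hle
      apply hm2
      rw [Finset.mem_inter]
      refine ⟨hm, ?_⟩
      rw [abs_le] at hle
      simp only [Finset.mem_Icc]; omega
    have e3 : ∑ m ∈ Finset.Icc (n - K) (n + K), φ (y m - y n) =
        ∑ m ∈ Finset.Icc (n - (K:ℤ)) (n + K) \ I, φ (y m - y n) +
        ∑ m ∈ I ∩ Finset.Icc (n - (K:ℤ)) (n + K), φ (y m - y n) := by
      rw [Finset.inter_comm, ← Finset.sum_union (Finset.disjoint_sdiff_inter _ _),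
        Finset.sdiff_union_inter]
    rw [e1, e2, e3]
    have e4 : ∀ u v : ℝ, v - (u + v) = -u := fun u v => by ring
    rw [e4, abs_neg]
    have hcard : ∑ m ∈ Finset.Icc (n - (K:ℤ)) (n + K), B = B * (2 * K + 1) := by
      rw [Finset.sum_const, Int.card_Icc, nsmul_eq_mul]
      have : ((n + (K:ℤ) + 1 - (n - K)).toNat : ℤ) = 2 * K + 1 := by omega
      have : (((n + (K:ℤ) + 1 - (n - K)).toNat : ℕ) : ℝ) = 2 * K + 1 := by exact_mod_cast this
      rw [this]; ring
    split_ifs with hcase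
    · calc |∑ m ∈ Finset.Icc (n - (K:ℤ)) (n + K) \ I, φ (y m - y n)|
          ≤ ∑ m ∈ Finset.Icc (n - (K:ℤ)) (n + K) \ I, |φ (y m - y n)| := Finset.abs_sum_le_sum_abs _ _
        _ ≤ ∑ m ∈ Finset.Icc (n - (K:ℤ)) (n + K) \ I, B := Finset.sum_le_sum (fun m _ => hB _)
        _ ≤ ∑ m ∈ Finset.Icc (n - (K:ℤ)) (n + K), B :=
            Finset.sum_le_sum_of_subset_of_nonneg Finset.sdiff_subset (fun _ _ _ => hB0)
        _ = _ := hcard
    · push Not at hcase
      have : Finset.Icc (n - (K:ℤ)) (n + K) \ I = ∅ := by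
        rw [Finset.sdiff_eq_empty_iff_subset]
        intro m hm
        rw [hI]
        simp only [Finset.mem_Icc] at hm ⊢; omega
      rw [this]; simp
  refine (Finset.abs_sum_le_sum_abs _ _).trans ((Finset.sum_le_sum hterm).trans ?_)
  rw [← Finset.sum_filter, Finset.sum_const, nsmul_eq_mul]
  apply mul_le_mul_of_nonneg_right _ (by positivity)
  have hsub : I.filter (fun n => n < -(M : ℤ) + K ∨ (N : ℤ) - K < n) ⊆
      Finset.Ico (-(M : ℤ)) (-(M : ℤ) + K) ∪ Finset.Ioc ((N : ℤ) - K) N := by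
    intro n hn
    rw [hI] at hn
    simp only [Finset.mem_filter, Finset.mem_Icc, Finset.mem_union, Finset.mem_Ico, Finset.mem_Ioc] at hn ⊢
    omega
  have hc := (Finset.card_le_card hsub).trans (Finset.card_union_le _ _)
  rw [Int.card_Ico, Int.card_Ioc] at hc
  have : (I.filter (fun n => n < -(M : ℤ) + K ∨ (N : ℤ) - K < n)).card ≤ 2 * K := by omega
  exact_mod_cast this

lemma half_lim {N : ℝ → ℕ} {κ I : ℝ} (hN : Tendsto N atTop atTop)
    (hN2 : Tendsto (fun T : ℝ => (N T : ℝ) / T) atTop (𝓝 (1 / κ))) {S : ℕ → ℝ}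
    (hS : Tendsto (fun n : ℕ => S n / n) atTop (𝓝 I)) :
    Tendsto (fun T : ℝ => S (N T) / (2 * T)) atTop (𝓝 (1 / κ * I / 2)) := by
  have h := ((hN2.mul (hS.comp hN)).div_const 2)
  refine h.congr' ?_
  filter_upwards [hN.eventually_gt_atTop 0, eventually_gt_atTop 0] with T hT hT0
  have : (N T : ℝ) ≠ 0 := by positivity
  simp only [Function.comp]
  field_simp

lemma succ_lim {S : ℕ → ℝ} {I : ℝ} (hS : Tendsto (fun n : ℕ => S n / n) atTop (𝓝 I)) :
    Tendsto (fun n : ℕ => S (n + 1) / n) atTop (𝓝 I) := by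
  have e1 : Tendsto (fun n : ℕ => S (n + 1) / ((n + 1 : ℕ) : ℝ)) atTop (𝓝 I) :=
    hS.comp (tendsto_add_atTop_nat 1)
  have e2 : Tendsto (fun n : ℕ => (((n + 1 : ℕ) : ℝ)) / n) atTop (𝓝 1) := by
    have : Tendsto (fun n : ℕ => 1 + 1 / (n : ℝ)) atTop (𝓝 (1 + 0)) :=
      tendsto_const_nhds.add tendsto_one_div_atTop_nhds_zero_nat
    rw [add_zero] at this
    refine this.congr' ?_
    filter_upwards [eventually_gt_atTop 0] with n hn
    have : (n : ℝ) ≠ 0 := by positivity
    push_cast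
    field_simp
  have e3 := e1.mul e2
  rw [mul_one] at e3
  refine e3.congr' ?_
  filter_upwards [eventually_gt_atTop 0] with n hn
  have : (n : ℝ) ≠ 0 := by positivity
  have : ((n + 1 : ℕ) : ℝ) ≠ 0 := by positivity
  field_simp

theorem isAutocorr {D : ℝ} (h0 : 0 < D) (h1 : D < 1) {a : Circ} (ha : addOrderOf a = 0) (x : Circ) :
    IsAutocorrelation (range (fun n : ℤ => FF D a n x)) (eta D a) := by
  classical
  have hk := kap_pos h0
  have hdel := del_pos h0 h1
  set y : ℤ → ℝ := fun n => FF D a n x with hy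
  have hmono : StrictMono y := strictMono_FF h0 h1 a x
  have hloc := locFin_of_wt (integrable_wt_eta h0 h1 a)
  have ha' : addOrderOf (-a) = 0 := by rw [addOrderOf_neg]; exact ha
  -- counting functions
  have hlimp : Tendsto (fun n : ℕ => y n / n) atTop (𝓝 (kap D)) := by
    refine (avg_rr h0 h1 ha x).congr (fun n => ?_)
    rw [hy]; simp only; rw [FF_nat]
  have hlimm : Tendsto (fun n : ℕ => -y (-(n : ℤ)) / n) atTop (𝓝 (kap D)) := by
    refine (avg_rr h0 h1 ha' (x - a)).congr (fun n => ?_)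
    rw [hy]; simp only; rw [FF_neg_nat]
  have hzp : Monotone (fun n : ℕ => y n) := fun m n h => hmono.monotone (by exact_mod_cast h)
  have hzm : Monotone (fun n : ℕ => -y (-(n : ℤ))) := fun m n h => by
    apply neg_le_neg
    apply hmono.monotone
    have : (m : ℤ) ≤ n := by exact_mod_cast h
    omega
  have hge : ∀ n k : ℤ, del D * |(k : ℝ)| ≤ |y (n + k) - y n| := fun n k => by
    rw [hy]; simp only
    rw [FF_add]; exact FF_ge h0 h1 a k _
  have hy0 : y 0 = 0 := FF_zero D a x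
  have htp : Tendsto (fun n : ℕ => y n) atTop atTop := by
    have h2 : Tendsto (fun n : ℕ => del D * (n : ℝ)) atTop atTop :=
      tendsto_natCast_atTop_atTop.const_mul_atTop hdel
    refine tendsto_atTop_mono (fun n => ?_) h2
    have h := hge 0 n
    rw [zero_add, hy0, sub_zero] at h
    have hn : 0 ≤ y n := by rw [← hy0]; exact hmono.monotone (by positivity)
    rw [abs_of_nonneg hn] at h
    simpa using h
  have htm : Tendsto (fun n : ℕ => -y (-(n : ℤ))) atTop atTop := by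
    have h2 : Tendsto (fun n : ℕ => del D * (n : ℝ)) atTop atTop :=
      tendsto_natCast_atTop_atTop.const_mul_atTop hdel
    refine tendsto_atTop_mono (fun n => ?_) h2
    have h := hge 0 (-(n : ℤ))
    rw [zero_add, hy0, sub_zero] at h
    have hn : y (-(n : ℤ)) ≤ 0 := by rw [← hy0]; exact hmono.monotone (by simp)
    rw [abs_of_nonpos hn] at h
    simpa using h
  have hexp : ∀ T : ℝ, ∃ N : ℕ, 0 ≤ T → y N ≤ T ∧ T < y ((N + 1 : ℕ) : ℤ) := fun T => by
    by_cases hT : 0 ≤ T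
    · obtain ⟨N, hN⟩ := exists_N (z := fun n : ℕ => y n) (by simpa using hy0) htp T hT
      exact ⟨N, fun _ => hN⟩
    · exact ⟨0, fun h => absurd h hT⟩
  have hexm : ∀ T : ℝ, ∃ N : ℕ, 0 ≤ T → -y (-(N : ℤ)) ≤ T ∧ T < -y (-((N + 1 : ℕ) : ℤ)) := fun T => by
    by_cases hT : 0 ≤ T
    · obtain ⟨N, hN⟩ := exists_N (z := fun n : ℕ => -y (-(n : ℤ))) (by simpa using hy0) htm T hT
      exact ⟨N, fun _ => hN⟩
    · exact ⟨0, fun h => absurd h hT⟩
  choose N hN using hexp
  choose M hM using hexm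
  obtain ⟨hNt, hNl⟩ := count_lim hzp hk hlimp hN
  obtain ⟨hMt, hMl⟩ := count_lim hzm hk hlimm hM
  have hmem : ∀ T : ℝ, 0 ≤ T → ∀ n : ℤ, n ∈ Finset.Icc (-(M T : ℤ)) (N T) ↔ y n ∈ Icc (-T) T := by
    intro T hT n
    obtain ⟨hN1, hN2⟩ := hN T hT
    obtain ⟨hM1, hM2⟩ := hM T hT
    rw [Finset.mem_Icc, mem_Icc]
    constructor
    · rintro ⟨h1, h2⟩
      have e1 := hmono.monotone h1
      have e2 := hmono.monotone h2
      constructor <;> linarith
    · rintro ⟨e1, e2⟩
      constructor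
      · by_contra h
        push Not at h
        have : n ≤ -((M T + 1 : ℕ) : ℤ) := by push_cast; omega
        have := hmono.monotone this
        linarith
      · by_contra h
        push Not at h
        have : ((N T + 1 : ℕ) : ℤ) ≤ n := by push_cast; omega
        have := hmono.monotone this
        linarith
  have hset : ∀ T : ℝ, 0 ≤ T → range y ∩ Icc (-T) T =
      (((Finset.Icc (-(M T : ℤ)) (N T)).image y : Finset ℝ) : Set ℝ) := by
    intro T hT
    ext t
    simp only [mem_inter_iff, mem_range, Finset.coe_image, mem_image, Finset.mem_coe]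
    constructor
    · rintro ⟨⟨n, rfl⟩, hn⟩
      exact ⟨n, (hmem T hT n).2 hn, rfl⟩
    · rintro ⟨n, hn, rfl⟩
      exact ⟨⟨n, rfl⟩, (hmem T hT n).1 hn⟩
  refine ⟨hloc, ?_, ?_⟩
  · intro T
    rcases le_or_gt 0 T with hT | hT
    · rw [hset T hT]; exact Finset.finite_toSet _
    · rw [Icc_eq_empty (by linarith), inter_empty]; exact finite_empty
  intro φ hφ hφc
  obtain ⟨B, hB⟩ : ∃ B, ∀ t, |φ t| ≤ B := by
    obtain ⟨B, hB⟩ := hφ.bounded_above_of_compact_support hφc
    exact ⟨B, fun t => hB t⟩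
  obtain ⟨R, hR⟩ : ∃ R : ℝ, ∀ t, R < |t| → φ t = 0 := by
    obtain ⟨R, hR⟩ := hφc.isCompact.isBounded.subset_closedBall (0 : ℝ)
    refine ⟨R, fun t ht => ?_⟩
    by_contra hne
    have := hR (subset_tsupport _ hne)
    rw [mem_closedBall_zero_iff, Real.norm_eq_abs] at this
    linarith
  obtain ⟨K, hK⟩ : ∃ K : ℕ, R < del D * K := by
    obtain ⟨K, hK⟩ := exists_nat_gt (R / del D)
    refine ⟨K, ?_⟩
    rw [div_lt_iff₀ hdel] at hK
    linarith
  -- integral
  have hφi : Integrable φ (eta D a) := hφ.integrable_of_hasCompactSupport hφc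
  have hvan : ∀ k : ℤ, k ∉ Finset.Icc (-(K : ℤ)) K → ∀ x, φ (FF D a k x) = 0 := by
    intro k hk x
    apply hR
    refine lt_of_lt_of_le hK (le_trans ?_ (FF_ge h0 h1 a k x))
    apply mul_le_mul_of_nonneg_left _ hdel.le
    have : (K : ℤ) ≤ |k| := by
      rw [Finset.mem_Icc, not_and_or] at hk
      rcases hk with hk | hk
      · have := neg_abs_le k; omega
      · have := le_abs_self k; omega
    have : ((K : ℤ) : ℝ) ≤ ((|k| : ℤ) : ℝ) := by exact_mod_cast this
    simpa using this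
  have hint : ∫ t, φ t ∂(eta D a) =
      ∑ k ∈ Finset.Icc (-(K : ℤ)) K, 1 / kap D * ∫ x : Circ, φ (FF D a k x) := by
    rw [integral_eta h0 a hφ.stronglyMeasurable hφi]
    rw [tsum_eq_sum (s := Finset.Icc (-(K : ℤ)) K)]
    · simp
    · intro k hk
      simp_rw [hvan k hk]; simp
  rw [hint]
  -- limit of S'
  have hS' : Tendsto (fun T : ℝ => ∑ k ∈ Finset.Icc (-(K : ℤ)) K,
      (∑ n ∈ Finset.Icc (-(M T : ℤ)) (N T), φ (y (n + k) - y n)) / (2 * T)) atTop
      (𝓝 (∑ k ∈ Finset.Icc (-(K : ℤ)) K, 1 / kap D * ∫ x : Circ, φ (FF D a k x))) := by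
    apply tendsto_finsetSum
    intro k _
    have w1 := weyl_FF (D := D) ha x a k hφ hB
    have w2 := weyl_FF (D := D) ha' (x - a) a k hφ hB
    have l1 := half_lim hNt hNl (S := fun n => ∑ m ∈ Finset.range (n + 1), φ (FF D a k (x + m • a)))
      (succ_lim (S := fun n => ∑ m ∈ Finset.range n, φ (FF D a k (x + m • a))) w1)
    have l2 := half_lim hMt hMl (S := fun n => ∑ m ∈ Finset.range n, φ (FF D a k (x - a + m • (-a)))) w2
    have l3 := l1.add l2
    have e : 1 / kap D * (∫ x : Circ, φ (FF D a k x)) / 2 + 1 / kap D * (∫ x : Circ, φ (FF D a k x)) / 2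
      = 1 / kap D * ∫ x : Circ, φ (FF D a k x) := by ring
    rw [e] at l3
    refine l3.congr (fun T => ?_)
    rw [← add_div, sum_Icc_split]
    congr 2
    · apply Finset.sum_congr rfl
      intro m _
      rw [hy]; simp only; rw [FF_add, natCast_zsmul]
    · apply Finset.sum_congr rfl
      intro m _
      rw [hy]; simp only; rw [FF_add]
      congr 2
      rw [sub_smul, neg_smul, one_smul, natCast_zsmul, smul_neg]; abel
  have hdiff : Tendsto (fun T : ℝ => (∑ n ∈ Finset.Icc (-(M T : ℤ)) (N T),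
      ∑ m ∈ Finset.Icc (-(M T : ℤ)) (N T), φ (y m - y n) -
      ∑ n ∈ Finset.Icc (-(M T : ℤ)) (N T), ∑ k ∈ Finset.Icc (-(K : ℤ)) K, φ (y (n + k) - y n)) / (2 * T))
      atTop (𝓝 0) := by
    have hlim : Tendsto (fun T : ℝ => ((2 * K) * (B * (2 * K + 1))) / (2 * T)) atTop (𝓝 0) :=
      tendsto_const_nhds.div_atTop (tendsto_id.const_mul_atTop (by norm_num))
    rw [tendsto_zero_iff_norm_tendsto_zero]
    refine squeeze_zero' (Eventually.of_forall (fun _ => norm_nonneg _)) ?_ hlim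
    filter_upwards [eventually_gt_atTop 0] with T hT
    rw [norm_div, Real.norm_eq_abs, Real.norm_of_nonneg (by positivity : (0:ℝ) ≤ 2 * T)]
    gcongr
    exact pair_bound hdel hge hB hR hK (M T) (N T)
  have hfin := hdiff.add hS'
  rw [zero_add] at hfin
  refine hfin.congr' ?_
  filter_upwards [eventually_ge_atTop 0] with T hT
  have hpr : (range y ∩ Icc (-T) T) ×ˢ (range y ∩ Icc (-T) T) =
      (((Finset.Icc (-(M T : ℤ)) (N T) ×ˢ Finset.Icc (-(M T : ℤ)) (N T)).image
        (fun q : ℤ × ℤ => (y q.2, y q.1)) : Finset (ℝ × ℝ)) : Set (ℝ × ℝ)) := by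
    rw [hset T hT]
    ext ⟨u, v⟩
    simp only [mem_prod, Finset.coe_image, mem_image, Finset.mem_coe, Finset.mem_product, Prod.mk.injEq,
      Prod.exists]
    constructor
    · rintro ⟨⟨m, hm, rfl⟩, ⟨n, hn, rfl⟩⟩
      exact ⟨n, m, ⟨hn, hm⟩, rfl, rfl⟩
    · rintro ⟨n, m, ⟨hn, hm⟩, rfl, rfl⟩
      exact ⟨⟨m, hm, rfl⟩, ⟨n, hn, rfl⟩⟩
  rw [hpr, finsum_mem_coe_finset, Finset.sum_image, Finset.sum_product]
  · rw [← Finset.sum_div, Finset.sum_comm (s := Finset.Icc (-(K:ℤ)) K)]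
    ring
  · intro q _ q' _ h
    simp only [Prod.mk.injEq] at h
    exact Prod.ext (hmono.injective h.2) (hmono.injective h.1)

end Pool.Agent.H382R3.KD
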