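import Mathlib
import Pool.Agent.H382R3.KD.PP3

set_option autoImplicit false

open MeasureTheory Filter Topology Set
open scoped FourierTransform SchwartzMap ComplexConjugate Real

namespace Pool.Agent.H382R3.KD

/-- two-sided Birkhoff sums -/
noncomputable def birk (φ : Circ → ℝ) (a : Circ) (k : ℤ) (x : Circ) : ℝ :=
  ∑ i ∈ Finset.Ico 0 k, φ (x + i • a) - ∑ i ∈ Finset.Ico k 0, φ (x + i • a)

lemma birk_zero (φ : Circ → ℝ) (a x : Circ) : birk φ a 0 x = 0 := by simp [birk]

lemma birk_succ (φ : Circ → ℝ) (a : Circ) (k : ℤ) (x : Circ) :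
    birk φ a (k + 1) x = birk φ a k x + φ (x + k • a) := by
  unfold birk
  rcases le_or_gt 0 k with hk | hk
  · rw [show Finset.Ico (k+1) 0 = ∅ from Finset.Ico_eq_empty_of_le (by omega),
      show Finset.Ico k 0 = ∅ from Finset.Ico_eq_empty_of_le hk]
    have : Finset.Ico 0 (k+1) = insert k (Finset.Ico 0 k) := by
      ext i; simp only [Finset.mem_Ico, Finset.mem_insert]; omega
    rw [this, Finset.sum_insert (by simp)]
    simp; ring
  · rw [show Finset.Ico 0 (k+1) = ∅ from Finset.Ico_eq_empty_of_le (by omega),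
      show Finset.Ico 0 k = ∅ from Finset.Ico_eq_empty_of_le hk.le]
    have : Finset.Ico k 0 = insert k (Finset.Ico (k+1) 0) := by
      ext i; simp only [Finset.mem_Ico, Finset.mem_insert]; omega
    rw [this, Finset.sum_insert (by simp)]
    simp

lemma birk_shift (φ : Circ → ℝ) (a : Circ) (k : ℤ) (x : Circ) :
    birk φ a k (x + a) - birk φ a k x = φ (x + k • a) - φ x := by
  have := int_ext (u := fun k => birk φ a k (x + a) - birk φ a k x)
    (v := fun k => φ (x + k • a) - φ x) (by simp [birk_zero]) (by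
      intro k
      have e1 := birk_succ φ a k x
      have e2 := birk_succ φ a k (x + a)
      rw [e1, e2, show x + a + k • a = x + (k + 1) • a by rw [add_smul, one_smul]; abel]
      ring)
  exact congrFun this k

lemma measurable_birk {φ : Circ → ℝ} (hφ : Measurable φ) (a : Circ) (k : ℤ) :
    Measurable (birk φ a k) := by
  unfold birk
  refine Measurable.sub ?_ ?_
  · exact Finset.measurable_fun_sum _ (fun i _ => hφ.comp (measurable_add_const _))
  · exact Finset.measurable_fun_sum _ (fun i _ => hφ.comp (measurable_add_const _))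

/-- number of terms -/
noncomputable def cnt (k : ℤ) : ℕ := (Finset.Ico 0 k).card + (Finset.Ico k 0).card

lemma birk_bound {φ : Circ → ℝ} {B : ℝ} (hB : ∀ x, |φ x| ≤ B) (a : Circ) (k : ℤ) (x : Circ) :
    |birk φ a k x| ≤ cnt k * B := by
  unfold birk cnt
  have h1 : |∑ i ∈ Finset.Ico 0 k, φ (x + i • a)| ≤ (Finset.Ico 0 k).card * B := by
    refine (Finset.abs_sum_le_sum_abs _ _).trans ?_
    rw [← nsmul_eq_mul]
    exact Finset.sum_le_card_nsmul _ _ _ (fun i _ => hB _)
  have h2 : |∑ i ∈ Finset.Ico k 0, φ (x + i • a)| ≤ (Finset.Ico k 0).card * B := by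
    refine (Finset.abs_sum_le_sum_abs _ _).trans ?_
    rw [← nsmul_eq_mul]
    exact Finset.sum_le_card_nsmul _ _ _ (fun i _ => hB _)
  refine (abs_sub _ _).trans ?_
  push_cast
  linarith

lemma abs_fr_le (x : Circ) : |fr x| ≤ 1 := by
  rw [abs_of_nonneg (fr_nonneg x)]; exact (fr_lt_one x).le

lemma integrable_diff_fr (h y : Circ) : Integrable (fun x : Circ => |fr (x + y + h) - fr (x + y)|) :=
  integrable_of_bdd (((measurable_fr.comp (measurable_add_const h)).comp (measurable_add_const y)).sub
    (measurable_fr.comp (measurable_add_const y))).abs (B := 2) (fun x => by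
      rw [abs_abs]
      have e1 := abs_fr_le (x + y + h); have e2 := abs_fr_le (x + y)
      rw [abs_le] at e1 e2 ⊢
      constructor <;> linarith)

lemma birk_var (a : Circ) (k : ℤ) {h : ℝ} (h0 : 0 < h) (h1 : h < 1) :
    ∫ x : Circ, |birk fr a k (x + (h : Circ)) - birk fr a k x| ≤ (cnt k * 2) * h := by
  have hpt : ∀ x : Circ, |birk fr a k (x + (h : Circ)) - birk fr a k x| ≤
      ∑ i ∈ Finset.Ico 0 k, |fr (x + i • a + (h : Circ)) - fr (x + i • a)| +
      ∑ i ∈ Finset.Ico k 0, |fr (x + i • a + (h : Circ)) - fr (x + i • a)| := by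
    intro x
    have e : birk fr a k (x + (h : Circ)) - birk fr a k x =
      ∑ i ∈ Finset.Ico 0 k, (fr (x + i • a + (h : Circ)) - fr (x + i • a)) -
      ∑ i ∈ Finset.Ico k 0, (fr (x + i • a + (h : Circ)) - fr (x + i • a)) := by
      unfold birk
      rw [Finset.sum_sub_distrib, Finset.sum_sub_distrib]
      simp_rw [add_right_comm x (h : Circ)]
      ring
    rw [e]
    refine (abs_sub _ _).trans ?_
    exact add_le_add (Finset.abs_sum_le_sum_abs _ _) (Finset.abs_sum_le_sum_abs _ _)
  have hi : ∀ s : Finset ℤ, Integrable (fun x : Circ =>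
      ∑ i ∈ s, |fr (x + i • a + (h : Circ)) - fr (x + i • a)|) := fun s =>
    integrable_finsetSum _ (fun i _ => integrable_diff_fr _ _)
  have hsum : ∀ s : Finset ℤ, ∫ x : Circ, ∑ i ∈ s, |fr (x + i • a + (h : Circ)) - fr (x + i • a)| ≤
      s.card * (2 * h) := by
    intro s
    rw [integral_finsetSum _ (fun i _ => integrable_diff_fr _ _), ← nsmul_eq_mul]
    apply Finset.sum_le_card_nsmul
    intro i _
    rw [integral_add_right_eq_self (fun x : Circ => |fr (x + (h : Circ)) - fr x|) (i • a)]
    exact integral_abs_fr h0 h1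
  calc ∫ x : Circ, |birk fr a k (x + (h : Circ)) - birk fr a k x|
      ≤ ∫ x : Circ, (∑ i ∈ Finset.Ico 0 k, |fr (x + i • a + (h : Circ)) - fr (x + i • a)| +
        ∑ i ∈ Finset.Ico k 0, |fr (x + i • a + (h : Circ)) - fr (x + i • a)|) := by
        apply integral_mono_of_nonneg
        · exact Eventually.of_forall (fun x => abs_nonneg _)
        · exact (hi _).add (hi _)
        · exact Eventually.of_forall hpt
    _ = _ := integral_add (hi _) (hi _)
    _ ≤ (Finset.Ico 0 k).card * (2 * h) + (Finset.Ico k 0).card * (2 * h) :=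
        add_le_add (hsum _) (hsum _)
    _ = _ := by unfold cnt; push_cast; ring

/-- slope -/
noncomputable def bet (D : ℝ) : ℝ := (2 * D - 1) / kap D

/-- the data in the Kesten case -/
noncomputable def kestenData {D : ℝ} (h0 : 0 < D) (a : Circ) (j : ℤ) : PPData a where
  g := fun x => bet D * birk fr a (-j) x
  hg := (measurable_birk measurable_fr a (-j)).const_mul _
  Bg := |bet D| * (cnt (-j) * 1)
  hBg := fun x => by
    rw [abs_mul]
    exact mul_le_mul_of_nonneg_left (birk_bound abs_fr_le a (-j) x) (abs_nonneg _)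
  C := |bet D| * (cnt (-j) * 2)
  hC0 := by positivity
  hC := fun h hp hl => by
    have e : ∀ x : Circ, |bet D * birk fr a (-j) (x + (h : Circ)) - bet D * birk fr a (-j) x| =
        |bet D| * |birk fr a (-j) (x + (h : Circ)) - birk fr a (-j) x| := by
      intro x; rw [← mul_sub, abs_mul]
    simp_rw [e]
    rw [integral_const_mul, mul_assoc]
    exact mul_le_mul_of_nonneg_left (birk_var a (-j) hp hl) (abs_nonneg _)
  κ := kap D
  hκ := kap_pos h0

lemma kesten_cocycle {D : ℝ} (h0 : 0 < D) (h1 : D < 1) {a : Circ} {j : ℤ} (hj : (D : Circ) = j • a)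
    (k : ℤ) (x : Circ) :
    FF D a k x = (kestenData h0 a j).κ * k + (kestenData h0 a j).g (x + k • a) -
      (kestenData h0 a j).g x := by
  have hk := kap_pos h0
  have hk2 := kap_sq D
  have hone : ∀ y : Circ, rr D y = kap D + bet D * birk fr a (-j) (y + a) - bet D * birk fr a (-j) y := by
    intro y
    have e1 := birk_shift fr a (-j) y
    have e2 := fr_sub y h0 h1
    rw [hj] at e2
    rw [neg_smul, ← sub_eq_add_neg] at e1
    have e3 : kap D + bet D * birk fr a (-j) (y + a) - bet D * birk fr a (-j) y =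
      kap D + bet D * (birk fr a (-j) (y + a) - birk fr a (-j) y) := by ring
    rw [e3, e1, rr_eq]
    have e4 : (if fr y < D then (1 : ℝ) else 0) = D + (fr (y - j • a) - fr y) := by linarith
    rw [e4]
    unfold bet
    field_simp
    rw [hk2]; ring
  have := int_ext (u := fun k : ℤ => FF D a k x)
    (v := fun k : ℤ => (kestenData h0 a j).κ * k + (kestenData h0 a j).g (x + k • a) -
      (kestenData h0 a j).g x) (by simp [FF_zero]) (by
      intro k
      rw [FF_succ, hone]
      have e : x + (k + 1) • a = x + k • a + a := by rw [add_smul, one_smul]; abel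
      rw [e]
      simp only [kestenData]
      push_cast
      ring)
  exact congrFun this k

end Pool.Agent.H382R3.KD
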