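import Mathlib
import Pool.Agent.H382R3.KD.Auto2
import Pool.Agent.H382R3.KD.Kest
import Pool.Agent.H382R3.KD.Atoms

set_option autoImplicit false

open MeasureTheory Filter Topology Set
open scoped FourierTransform SchwartzMap ComplexConjugate Real

namespace Pool.Agent.H382R3.KD

lemma addOrderOf_irr {γ : ℝ} (hγ : Irrational γ) : addOrderOf (γ : Circ) = 0 := by
  rw [addOrderOf_eq_zero_iff, isOfFinAddOrder_iff_zsmul_eq_zero]
  rintro ⟨n, hn, h⟩
  have h2 : ((n * γ : ℝ) : Circ) = 0 := by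
    rw [← h, ← zsmul_eq_mul]; simp
  rw [AddCircle.coe_eq_zero_iff] at h2
  obtain ⟨m, hm⟩ := h2
  apply hγ
  refine ⟨(m : ℚ) / n, ?_⟩
  have hn' : (n : ℝ) ≠ 0 := by exact_mod_cast hn
  push_cast
  rw [div_eq_iff hn']
  simp only [smul_eq_mul, zsmul_eq_mul, mul_one] at hm
  linarith

lemma image_eq {D γ x₀ : ℝ} {p : ℤ → ℤ × ℤ} (hp : IsStaircase D γ x₀ p) :
    proj D '' range p = range (fun n : ℤ => FF D (γ : Circ) n (x₀ : Circ)) := by
  ext t
  simp only [mem_image, mem_range, exists_exists_eq_and]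
  constructor
  · rintro ⟨n, rfl⟩; exact ⟨n, (proj_staircase hp n).symm⟩
  · rintro ⟨n, rfl⟩; exact ⟨n, proj_staircase hp n⟩

/-- the explicit staircase -/
noncomputable def stair (D γ x₀ : ℝ) (n : ℤ) : ℤ × ℤ :=
  ∑ i ∈ Finset.Ico 0 n, (if Int.fract (x₀ + i * γ) < D then ((0, 1) : ℤ × ℤ) else (1, 0)) -
  ∑ i ∈ Finset.Ico n 0, (if Int.fract (x₀ + i * γ) < D then ((0, 1) : ℤ × ℤ) else (1, 0))

lemma stair_isStaircase (D γ x₀ : ℝ) : IsStaircase D γ x₀ (stair D γ x₀) := by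
  refine ⟨by simp [stair], fun k => ?_⟩
  unfold stair
  rcases le_or_gt 0 k with hk | hk
  · rw [show Finset.Ico (k+1) 0 = ∅ from Finset.Ico_eq_empty_of_le (by omega),
      show Finset.Ico k 0 = ∅ from Finset.Ico_eq_empty_of_le hk]
    have : Finset.Ico 0 (k+1) = insert k (Finset.Ico 0 k) := by
      ext i; simp only [Finset.mem_Ico, Finset.mem_insert]; omega
    rw [this, Finset.sum_insert (by simp)]
    simp
  · rw [show Finset.Ico 0 (k+1) = ∅ from Finset.Ico_eq_empty_of_le (by omega),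
      show Finset.Ico 0 k = ∅ from Finset.Ico_eq_empty_of_le hk.le]
    have : Finset.Ico k 0 = insert k (Finset.Ico (k+1) 0) := by
      ext i; simp only [Finset.mem_Ico, Finset.mem_insert]; omega
    rw [this, Finset.sum_insert (by simp)]
    simp

lemma stair_unique (D γ x₀ : ℝ) : ∃! p : ℤ → ℤ × ℤ, IsStaircase D γ x₀ p := by
  refine ⟨stair D γ x₀, stair_isStaircase D γ x₀, fun p hp => ?_⟩
  apply int_ext
  · rw [hp.1, (stair_isStaircase D γ x₀).1]
  · intro k
    rw [hp.2, (stair_isStaircase D γ x₀).2]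

/-- sufficiency of the Kesten condition -/
theorem sufficiency {D γ x₀ : ℝ} (h0 : 0 < D) (h1 : D < 1) (hγ : Irrational γ) (hK : Kesten D γ)
    {p : ℤ → ℤ × ℤ} (hp : IsStaircase D γ x₀ p) : DiffractionCondition (proj D '' range p) := by
  obtain ⟨j, l, hjl⟩ := hK
  have hj : (D : Circ) = j • (γ : Circ) := by
    have h2 : ((l : ℝ) : Circ) = 0 := by
      rw [AddCircle.coe_eq_zero_iff]; exact ⟨l, by simp⟩
    rw [hjl, AddCircle.coe_add, h2, add_zero, ← zsmul_eq_mul]
    simp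
  have ha := addOrderOf_irr hγ
  rw [image_eq hp]
  have hft := (kestenData h0 (γ : Circ) j).isFT h0 h1 rfl (kesten_cocycle h0 h1 hj)
  have hau := isAutocorr h0 h1 ha (x₀ : Circ)
  refine ⟨eta D γ, (kestenData h0 (γ : Circ) j).mu, hau, hft, ?_, countable_atoms hft.1⟩
  exact infinite_atoms_sum hft.1 (not_finite_of_atom hau.1 (eta_zero h0 _) hft)

end Pool.Agent.H382R3.KD
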