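import Mathlib
import Pool.Agent.H382R3.KD.Atoms

set_option autoImplicit false

open MeasureTheory Filter Topology Set
open scoped FourierTransform SchwartzMap ComplexConjugate Real ContDiff

namespace Pool.Agent.H382R3.KD

/-- the character -/
noncomputable def ex (t : ℝ) : ℂ := Complex.exp (((-2 * π * t : ℝ) : ℂ) * Complex.I)

lemma norm_ex (t : ℝ) : ‖ex t‖ = 1 := Complex.norm_exp_ofReal_mul_I _

lemma ex_add (s t : ℝ) : ex (s + t) = ex s * ex t := by
  unfold ex; rw [← Complex.exp_add]; congr 1; push_cast; ring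

lemma conj_ex (t : ℝ) : conj (ex t) = ex (-t) := by
  unfold ex
  rw [← Complex.exp_conj, map_mul, Complex.conj_ofReal, Complex.conj_I]
  congr 1; push_cast; ring

lemma ex_zero : ex 0 = 1 := by simp [ex]

lemma continuous_ex : Continuous ex := by unfold ex; fun_prop

lemma norm_ex_sub (s t : ℝ) : ‖ex s - ex t‖ ≤ 2 * π * |s - t| := by
  have e : ex s - ex t = ex t * (Complex.exp (Complex.I * ((-2 * π * (s - t) : ℝ) : ℂ)) - 1) := by
    unfold ex
    rw [mul_sub, ← Complex.exp_add, mul_one]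
    congr 2
    push_cast; ring
  rw [e, norm_mul, norm_ex, one_mul]
  refine Real.norm_exp_I_mul_ofReal_sub_one_le.trans ?_
  rw [Real.norm_eq_abs, abs_mul, abs_mul]
  simp [abs_of_pos Real.pi_pos]

/-- exponential sums -/
noncomputable def SN (D : ℝ) (a : Circ) (N : ℕ) (s : ℝ) (x : Circ) : ℂ :=
  ∑ n ∈ Finset.Ico (0 : ℤ) N, ex (s * FF D a n x)

/-- densities -/
noncomputable def hN (D : ℝ) (a : Circ) (N : ℕ) (s : ℝ) : ℝ :=
  1 / (kap D * N) * ∫ x : Circ, ‖SN D a N s x‖ ^ 2

lemma measurable_SN (D : ℝ) (a : Circ) (N : ℕ) (s : ℝ) : Measurable (SN D a N s) := by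
  unfold SN
  refine Finset.measurable_fun_sum _ (fun n _ => ?_)
  exact continuous_ex.measurable.comp ((measurable_FF D a n).const_mul s)

lemma norm_SN_le (D : ℝ) (a : Circ) (N : ℕ) (s : ℝ) (x : Circ) : ‖SN D a N s x‖ ≤ N := by
  unfold SN
  refine (norm_sum_le _ _).trans ?_
  simp [norm_ex]

lemma continuous_hN (D : ℝ) (a : Circ) (N : ℕ) : Continuous (hN D a N) := by
  unfold hN
  apply Continuous.mul continuous_const
  apply continuous_of_dominated (bound := fun _ => (N : ℝ) ^ 2)
  · intro s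
    exact ((measurable_SN D a N s).norm.pow_const 2).aestronglyMeasurable
  · intro s
    refine Eventually.of_forall (fun x => ?_)
    rw [norm_pow, norm_norm]
    exact pow_le_pow_left₀ (norm_nonneg _) (norm_SN_le D a N s x) 2
  · exact integrable_const _
  · refine Eventually.of_forall (fun x => ?_)
    unfold SN
    apply Continuous.pow
    apply Continuous.norm
    refine continuous_finsetSum _ (fun n _ => ?_)
    exact continuous_ex.comp (by fun_prop)

lemma hN_nonneg {D : ℝ} (h0 : 0 < D) (a : Circ) (N : ℕ) (s : ℝ) : 0 ≤ hN D a N s := by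
  unfold hN
  have := kap_pos h0
  have h2 : 0 ≤ ∫ x : Circ, ‖SN D a N s x‖ ^ 2 := integral_nonneg (fun _ => by positivity)
  positivity

/-- correlation coefficients -/
noncomputable def cf (D : ℝ) (a : Circ) (ψ : ℝ → ℂ) (k : ℤ) : ℂ := ∫ x : Circ, ψ (FF D a k x)

lemma sq_SN (D : ℝ) (a : Circ) (N : ℕ) (s : ℝ) (x : Circ) :
    ((‖SN D a N s x‖ ^ 2 : ℝ) : ℂ) = ∑ n ∈ Finset.Ico (0 : ℤ) N, ∑ m ∈ Finset.Ico (0 : ℤ) N,
      ex (s * FF D a (n - m) (x + m • a)) := by
  have h1 : ((‖SN D a N s x‖ ^ 2 : ℝ) : ℂ) = SN D a N s x * conj (SN D a N s x) := by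
    rw [Complex.mul_conj, Complex.normSq_eq_norm_sq]
  rw [h1]
  unfold SN
  rw [map_sum, Finset.sum_mul_sum]
  refine Finset.sum_congr rfl (fun n _ => Finset.sum_congr rfl (fun m _ => ?_))
  rw [conj_ex, ← ex_add]
  congr 1
  have := FF_add D a m (n - m) x
  rw [add_sub_cancel] at this
  rw [← this]; ring

/-- key formula: integrals against `hN` -/
lemma integral_hN {D : ℝ} (h0 : 0 < D) (a : Circ) (N : ℕ) {f : ℝ → ℂ} (hf : Integrable f) :
    ∫ s, f s * (hN D a N s : ℂ) =
      1 / (kap D * N) * ∑ n ∈ Finset.Ico (0 : ℤ) N, ∑ m ∈ Finset.Ico (0 : ℤ) N,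
        cf D a (fun t => ∫ s, f s * ex (s * t)) (n - m) := by
  have hterm : ∀ k : ℤ, ∀ b : Circ, Integrable (fun p : ℝ × Circ => f p.1 * ex (p.1 * FF D a k (p.2 + b)))
      (volume.prod (volume : Measure Circ)) := by
    intro k b
    have hb := (hf.norm).mul_prod (integrable_const (1 : ℝ) (μ := (volume : Measure Circ)))
    refine hb.mono' ?_ ?_
    · have h1 : AEStronglyMeasurable (fun p : ℝ × Circ => f p.1) (volume.prod (volume : Measure Circ)) :=
        hf.aestronglyMeasurable.comp_fst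
      have h2 : Measurable (fun p : ℝ × Circ => ex (p.1 * FF D a k (p.2 + b))) := by
        apply continuous_ex.measurable.comp
        exact measurable_fst.mul ((measurable_FF D a k).comp (measurable_snd.add_const b))
      exact h1.mul h2.aestronglyMeasurable
    · refine Eventually.of_forall (fun p => ?_)
      rw [norm_mul, norm_ex]
  have hs : ∀ s : ℝ, f s * (hN D a N s : ℂ) = 1 / (kap D * N) *
      ∑ n ∈ Finset.Ico (0 : ℤ) N, ∑ m ∈ Finset.Ico (0 : ℤ) N,
        ∫ x : Circ, f s * ex (s * FF D a (n - m) (x + m • a)) := by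
    intro s
    unfold hN
    have hint : ∀ n m : ℤ, Integrable (fun x : Circ => ex (s * FF D a (n - m) (x + m • a))) := by
      intro n m
      apply integrable_of_bddC (B := 1)
      · apply continuous_ex.measurable.comp
        exact ((measurable_FF D a (n - m)).comp (measurable_add_const _)).const_mul s
      · intro x; rw [norm_ex]
    have e1 : ((∫ x : Circ, ‖SN D a N s x‖ ^ 2 : ℝ) : ℂ) =
        ∑ n ∈ Finset.Ico (0 : ℤ) N, ∑ m ∈ Finset.Ico (0 : ℤ) N,
          ∫ x : Circ, ex (s * FF D a (n - m) (x + m • a)) := by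
      rw [← integral_complex_ofReal]
      simp_rw [sq_SN]
      rw [integral_finsetSum _ (fun n _ => integrable_finsetSum _ (fun m _ => hint n m))]
      refine Finset.sum_congr rfl (fun n _ => ?_)
      rw [integral_finsetSum _ (fun m _ => hint n m)]
    rw [Complex.ofReal_mul, e1]
    simp_rw [integral_const_mul]
    simp_rw [← Finset.mul_sum]
    push_cast
    ring
  simp_rw [hs]
  have hs1 : ∀ n m : ℤ, Integrable (fun s : ℝ => ∫ x : Circ, f s * ex (s * FF D a (n - m) (x + m • a))) :=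
    fun n m => (hterm (n - m) (m • a)).integral_prod_left
  rw [integral_const_mul, integral_finsetSum _ (fun n _ => integrable_finsetSum _ (fun m _ => hs1 n m))]
  congr 1
  refine Finset.sum_congr rfl (fun n _ => ?_)
  rw [integral_finsetSum _ (fun m _ => hs1 n m)]
  refine Finset.sum_congr rfl (fun m _ => ?_)
  rw [integral_integral_swap (f := fun s x => f s * ex (s * FF D a (n - m) (x + m • a)))
    (hterm (n - m) (m • a))]
  unfold cf
  exact integral_add_right_eq_self (fun x : Circ => ∫ s, f s * ex (s * FF D a (n - m) x)) (m • a)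

/-- number of representations divided by `N` -/
noncomputable def AN (N : ℕ) (k : ℤ) : ℝ :=
  ((Finset.Ico (0 : ℤ) N).filter (fun n => n - k ∈ Finset.Ico (0 : ℤ) N)).card / (N : ℝ)

lemma AN_nonneg (N : ℕ) (k : ℤ) : 0 ≤ AN N k := by unfold AN; positivity

lemma AN_le (N : ℕ) (k : ℤ) : AN N k ≤ 1 := by
  unfold AN
  apply div_le_one_of_le₀ _ (by positivity)
  have := Finset.card_filter_le (Finset.Ico (0 : ℤ) N) (fun n => n - k ∈ Finset.Ico (0 : ℤ) N)
  rw [Int.card_Ico] at this
  simp only [sub_zero, Int.toNat_natCast] at this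
  exact_mod_cast this

lemma AN_tendsto (k : ℤ) : Tendsto (fun N : ℕ => AN N k) atTop (𝓝 1) := by
  have hcard : ∀ N : ℕ, k < N → -k < N → AN N k = 1 - |(k : ℝ)| / N := by
    intro N hN hN'
    unfold AN
    have hN0 : N ≠ 0 := by omega
    have e : (Finset.Ico (0 : ℤ) N).filter (fun n => n - k ∈ Finset.Ico (0 : ℤ) N) =
        Finset.Ico (max 0 k) (min (N : ℤ) (N + k)) := by
      ext n; simp only [Finset.mem_filter, Finset.mem_Ico]; omega
    rw [e, Int.card_Ico]
    have e2 : ((min (N : ℤ) (N + k) - max 0 k).toNat : ℤ) = N - |k| := by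
      rcases le_total 0 k with h | h
      · rw [abs_of_nonneg h, max_eq_right h, min_eq_left (by omega)]; omega
      · rw [abs_of_nonpos h, max_eq_left h, min_eq_right (by omega)]; omega
    have e3 : (((min (N : ℤ) (N + k) - max 0 k).toNat : ℕ) : ℝ) = N - |(k : ℝ)| := by
      have := congrArg (Int.cast : ℤ → ℝ) e2
      push_cast at this
      push_cast
      exact this
    rw [e3, sub_div, div_self (by exact_mod_cast hN0)]
  have h1 : Tendsto (fun N : ℕ => 1 - |(k : ℝ)| / (N : ℝ)) atTop (𝓝 (1 - 0)) :=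
    tendsto_const_nhds.sub (tendsto_const_div_atTop_nhds_zero_nat _)
  rw [sub_zero] at h1
  refine h1.congr' ?_
  filter_upwards [eventually_ge_atTop (k.natAbs + 1)] with N hN
  exact (hcard N (by omega) (by omega)).symm

lemma double_sum {c : ℤ → ℂ} (N : ℕ) :
    1 / (N : ℂ) * ∑ n ∈ Finset.Ico (0 : ℤ) N, ∑ m ∈ Finset.Ico (0 : ℤ) N, c (n - m) =
      ∑' k : ℤ, (AN N k : ℂ) * c k := by
  have h1 : ∀ n ∈ Finset.Ico (0 : ℤ) N, ∑ m ∈ Finset.Ico (0 : ℤ) N, c (n - m) =
      ∑ k ∈ Finset.Ioo (-(N : ℤ)) N, if n - k ∈ Finset.Ico (0 : ℤ) N then c k else 0 := by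
    intro n hn
    rw [← Finset.sum_filter]
    refine Finset.sum_bij (fun m _ => n - m) ?_ ?_ ?_ ?_
    · intro m hm
      simp only [Finset.mem_filter, Finset.mem_Ioo, Finset.mem_Ico] at *; omega
    · intro m _ m' _ h; simpa using h
    · intro k hk
      simp only [Finset.mem_filter, Finset.mem_Ioo, Finset.mem_Ico] at *
      exact ⟨n - k, by omega, by ring⟩
    · intro m _; rfl
  rw [Finset.sum_congr rfl h1, Finset.sum_comm]
  rw [tsum_eq_sum (s := Finset.Ioo (-(N : ℤ)) N)]
  · rw [Finset.mul_sum]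
    refine Finset.sum_congr rfl (fun k _ => ?_)
    rw [← Finset.sum_filter, Finset.sum_const, nsmul_eq_mul]
    unfold AN
    push_cast
    ring
  · intro k hk
    have : AN N k = 0 := by
      unfold AN
      rw [Finset.filter_false_of_mem, Finset.card_empty]
      · simp
      · intro n hn
        simp only [Finset.mem_Ioo, Finset.mem_Ico] at *; omega
    rw [this]; simp

lemma double_sum_tendsto {c : ℤ → ℂ} (hc : Summable (fun k => ‖c k‖)) :
    Tendsto (fun N : ℕ => 1 / (N : ℂ) * ∑ n ∈ Finset.Ico (0 : ℤ) N, ∑ m ∈ Finset.Ico (0 : ℤ) N, c (n - m))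
      atTop (𝓝 (∑' k : ℤ, c k)) := by
  simp_rw [double_sum]
  apply tendsto_tsum_of_dominated_convergence hc
  · intro k
    have := (Complex.continuous_ofReal.tendsto _).comp (AN_tendsto k)
    have h2 := this.mul_const (c k)
    simpa using h2
  · refine Eventually.of_forall (fun N k => ?_)
    rw [norm_mul, Complex.norm_real, Real.norm_of_nonneg (AN_nonneg N k)]
    exact mul_le_of_le_one_left (norm_nonneg _) (AN_le N k)

lemma double_sum_bound {c : ℤ → ℂ} (hc : Summable (fun k => ‖c k‖)) (N : ℕ) :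
    ‖1 / (N : ℂ) * ∑ n ∈ Finset.Ico (0 : ℤ) N, ∑ m ∈ Finset.Ico (0 : ℤ) N, c (n - m)‖ ≤
      ∑' k : ℤ, ‖c k‖ := by
  rw [double_sum]
  apply tsum_of_norm_bounded hc.hasSum
  intro k
  rw [norm_mul, Complex.norm_real, Real.norm_of_nonneg (AN_nonneg N k)]
  exact mul_le_of_le_one_left (norm_nonneg _) (AN_le N k)

end Pool.Agent.H382R3.KD
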