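import Mathlib
import Pool.Agent.H382R3.KD.Gen

set_option autoImplicit false

open MeasureTheory Filter Topology Set
open scoped FourierTransform SchwartzMap ComplexConjugate Real ContDiff NNReal ENNReal

namespace Pool.Agent.H382R3.KD

lemma four_eq (f : 𝓢(ℝ, ℂ)) (t : ℝ) : ∫ s, f s * ex (s * t) = (𝓕 f : 𝓢(ℝ, ℂ)) t := by
  rw [SchwartzMap.fourier_coe, Real.fourier_real_eq_integral_exp_smul]
  congr 1
  funext s
  rw [smul_eq_mul, mul_comm]
  unfold ex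
  congr 4
  ring

lemma cf_bound {D : ℝ} (h0 : 0 < D) (h1 : D < 1) (a : Circ) {ψ : ℝ → ℂ} {C : ℝ} (hC : 0 ≤ C)
    (hψ : ∀ t, ‖ψ t‖ ≤ C * wt t) (k : ℤ) :
    ‖cf D a ψ k‖ ≤ C * (max 1 (1 / del D ^ 2)) * (1 / (1 + (k : ℝ) ^ 2)) := by
  unfold cf
  calc ‖∫ x : Circ, ψ (FF D a k x)‖
      ≤ ∫ x : Circ, C * (max 1 (1 / del D ^ 2)) * (1 / (1 + (k : ℝ) ^ 2)) := by
        apply norm_integral_le_of_norm_le (integrable_const _)
        refine Eventually.of_forall (fun x => (hψ _).trans ?_)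
        rw [mul_assoc]
        exact mul_le_mul_of_nonneg_left (FF_wt h0 h1 a k x) hC
    _ = _ := by simp [Measure.real]

lemma summable_cf {D : ℝ} (h0 : 0 < D) (h1 : D < 1) (a : Circ) {ψ : ℝ → ℂ} {C : ℝ} (hC : 0 ≤ C)
    (hψ : ∀ t, ‖ψ t‖ ≤ C * wt t) : Summable (fun k => ‖cf D a ψ k‖) :=
  Summable.of_nonneg_of_le (fun _ => norm_nonneg _) (cf_bound h0 h1 a hC hψ)
    (summable_inv_sq.mul_left _)

lemma tendsto_hN {D : ℝ} (h0 : 0 < D) (h1 : D < 1) (a : Circ) (f : 𝓢(ℝ, ℂ)) :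
    Tendsto (fun N : ℕ => ∫ s, f s * (hN D a N s : ℂ)) atTop
      (𝓝 (∫ x, (𝓕 f : 𝓢(ℝ, ℂ)) x ∂(eta D a))) := by
  obtain ⟨C, hC, hb⟩ := schwartz_wt (𝓕 f : 𝓢(ℝ, ℂ))
  have hi := integrable_schwartz (integrable_wt_eta h0 h1 a) (𝓕 f : 𝓢(ℝ, ℂ))
  have hs := summable_cf h0 h1 a hC hb
  have ht := (double_sum_tendsto hs).const_mul (1 / (kap D : ℂ))
  have e1 : ∫ x, (𝓕 f : 𝓢(ℝ, ℂ)) x ∂(eta D a) = 1 / (kap D : ℂ) * ∑' k : ℤ, cf D a (𝓕 f : 𝓢(ℝ, ℂ)) k := by
    rw [integral_eta h0 a (𝓕 f : 𝓢(ℝ, ℂ)).continuous.stronglyMeasurable hi, ← tsum_mul_left]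
    congr 1
    funext k
    rw [Complex.real_smul]
    push_cast
    rfl
  rw [e1]
  refine ht.congr (fun N => ?_)
  rw [integral_hN h0 a N f.integrable]
  have e2 : (fun t => ∫ s, f s * ex (s * t)) = (𝓕 f : 𝓢(ℝ, ℂ)) := by
    funext t; exact four_eq f t
  rw [e2]
  push_cast
  ring

/-- a bump function -/
noncomputable def bmp : ContDiffBump (0 : ℝ) := ⟨1, 2, one_pos, one_lt_two⟩

lemma bmp_hc : HasCompactSupport (fun x : ℝ => ((bmp x : ℝ) : ℂ)) :=
  bmp.hasCompactSupport.comp_left (g := fun t : ℝ => (t : ℂ)) (by simp)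

lemma bmp_cd : ContDiff ℝ ∞ (fun x : ℝ => ((bmp x : ℝ) : ℂ)) := Complex.ofRealCLM.contDiff.comp bmp.contDiff

lemma bmp_bound {D : ℝ} (h0 : 0 < D) (h1 : D < 1) (a : Circ) :
    ∃ C : ℝ, 0 ≤ C ∧ ∀ (N : ℕ) (τ : ℝ), ∫ s, bmp (s - τ) * hN D a N s ≤ C := by
  let B : 𝓢(ℝ, ℂ) := bmp_hc.toSchwartzMap bmp_cd
  have hk := kap_pos h0
  obtain ⟨C, hC, hb⟩ := schwartz_wt (𝓕 B : 𝓢(ℝ, ℂ))
  have hss := (summable_inv_sq.mul_left (C * (max 1 (1 / del D ^ 2))))
  refine ⟨1 / kap D * ∑' k : ℤ, C * (max 1 (1 / del D ^ 2)) * (1 / (1 + (k : ℝ) ^ 2)), ?_, ?_⟩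
  · apply mul_nonneg (by positivity)
    exact tsum_nonneg (fun k => by positivity)
  intro N τ
  have hBi : Integrable (fun s : ℝ => B (s - τ)) := B.integrable.comp_sub_right τ
  have hψ : ∀ t, ‖∫ s, B (s - τ) * ex (s * t)‖ ≤ C * wt t := by
    intro t
    have e : ∫ s, B (s - τ) * ex (s * t) = ex (τ * t) * (𝓕 B : 𝓢(ℝ, ℂ)) t := by
      rw [← four_eq, ← integral_const_mul,
        ← integral_sub_right_eq_self (fun s => ex (τ * t) * (B s * ex (s * t))) τ]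
      congr 1
      funext s
      have : ex (s * t) = ex (τ * t) * ex ((s - τ) * t) := by rw [← ex_add]; congr 1; ring
      rw [this]; ring
    rw [e, norm_mul, norm_ex, one_mul]
    exact hb t
  have hform := integral_hN h0 a N hBi
  have hcs := summable_cf h0 h1 a hC hψ
  have hds := double_sum_bound hcs N
  have e1 : ((∫ s, bmp (s - τ) * hN D a N s : ℝ) : ℂ) = ∫ s, B (s - τ) * (hN D a N s : ℂ) := by
    rw [← integral_complex_ofReal]
    congr 1
    funext s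
    push_cast
    rfl
  have e2 : ‖∫ s, B (s - τ) * (hN D a N s : ℂ)‖ ≤ 1 / kap D * ∑' k : ℤ,
      ‖cf D a (fun t => ∫ s, B (s - τ) * ex (s * t)) k‖ := by
    rw [hform]
    have : (1 / ((kap D : ℂ) * N)) = (1 / (kap D : ℂ)) * (1 / (N : ℂ)) := by
      rw [one_div_mul_one_div]
    rw [this, mul_assoc, norm_mul]
    have h3 : ‖(1 / (kap D : ℂ))‖ = 1 / kap D := by
      rw [norm_div, norm_one, Complex.norm_real, Real.norm_of_nonneg hk.le]
    rw [h3]
    exact mul_le_mul_of_nonneg_left hds (by positivity)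
  calc ∫ s, bmp (s - τ) * hN D a N s ≤ ‖((∫ s, bmp (s - τ) * hN D a N s : ℝ) : ℂ)‖ := by
        rw [Complex.norm_real]; exact le_abs_self _
    _ = ‖∫ s, B (s - τ) * (hN D a N s : ℂ)‖ := by rw [e1]
    _ ≤ 1 / kap D * ∑' k : ℤ, ‖cf D a (fun t => ∫ s, B (s - τ) * ex (s * t)) k‖ := e2
    _ ≤ _ := by
        apply mul_le_mul_of_nonneg_left _ (by positivity)
        exact hcs.tsum_le_tsum (cf_bound h0 h1 a hC hψ) hss

lemma bmp_nonneg (x : ℝ) : 0 ≤ bmp x := bmp.nonneg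

lemma bmp_one {x : ℝ} (hx : |x| ≤ 1) : bmp x = 1 := by
  apply bmp.one_of_mem_closedBall
  rw [mem_closedBall_zero_iff]
  exact hx

lemma lintegral_bound {D : ℝ} (h0 : 0 < D) (h1 : D < 1) (a : Circ) :
    ∃ C : ℝ≥0, ∀ N : ℕ, ∫⁻ s, ENNReal.ofReal (hN D a N s * (1 / (1 + s ^ 2))) ≤ C := by
  obtain ⟨C, hC, hb⟩ := bmp_bound h0 h1 a
  have hs : Summable (fun j : ℤ => (4 * C) * (1 / (1 + (j : ℝ) ^ 2))) := summable_inv_sq.mul_left _
  refine ⟨(∑' j : ℤ, (4 * C) * (1 / (1 + (j : ℝ) ^ 2))).toNNReal, fun N => ?_⟩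
  have hpt : ∀ s : ℝ, ENNReal.ofReal (hN D a N s * (1 / (1 + s ^ 2))) ≤
      ∑' j : ℤ, ENNReal.ofReal (4 * (1 / (1 + (j : ℝ) ^ 2)) * (bmp (s - j) * hN D a N s)) := by
    intro s
    refine le_trans ?_ (ENNReal.le_tsum (round s))
    apply ENNReal.ofReal_le_ofReal
    have hr : |s - round s| ≤ 1 := (abs_sub_round s).trans (by norm_num)
    rw [bmp_one hr, one_mul]
    have hsb := shift_bound (κ := 1) one_pos hr
    have hh := hN_nonneg h0 a N s
    rw [div_one] at hsb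
    have h4 : max 1 ((1 : ℝ) ^ 2) * (2 + 2 * 1 ^ 2) = 4 := by norm_num
    rw [h4] at hsb
    calc hN D a N s * (1 / (1 + s ^ 2)) ≤ hN D a N s * (4 * (1 / (1 + (round s : ℝ) ^ 2))) :=
          mul_le_mul_of_nonneg_left hsb hh
      _ = _ := by ring
  have hcont : ∀ j : ℤ, Continuous (fun s : ℝ => bmp (s - j) * hN D a N s) := fun j =>
    (bmp.continuous.comp (by fun_prop)).mul (continuous_hN D a N)
  calc ∫⁻ s, ENNReal.ofReal (hN D a N s * (1 / (1 + s ^ 2)))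
      ≤ ∫⁻ s, ∑' j : ℤ, ENNReal.ofReal (4 * (1 / (1 + (j : ℝ) ^ 2)) * (bmp (s - j) * hN D a N s)) :=
        lintegral_mono hpt
    _ = ∑' j : ℤ, ∫⁻ s, ENNReal.ofReal (4 * (1 / (1 + (j : ℝ) ^ 2)) * (bmp (s - j) * hN D a N s)) := by
        apply lintegral_tsum
        intro j
        exact (ENNReal.measurable_ofReal.comp ((hcont j).measurable.const_mul _)).aemeasurable
    _ ≤ ∑' j : ℤ, ENNReal.ofReal ((4 * C) * (1 / (1 + (j : ℝ) ^ 2))) := by
        apply ENNReal.tsum_le_tsum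
        intro j
        rw [← ofReal_integral_eq_lintegral_ofReal]
        · apply ENNReal.ofReal_le_ofReal
          rw [integral_const_mul]
          have := hb N j
          calc 4 * (1 / (1 + (j : ℝ) ^ 2)) * ∫ s, bmp (s - j) * hN D a N s
              ≤ 4 * (1 / (1 + (j : ℝ) ^ 2)) * C := by gcongr
            _ = _ := by ring
        · apply Integrable.const_mul
          apply (hcont j).integrable_of_hasCompactSupport
          apply HasCompactSupport.mul_right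
          have : HasCompactSupport (fun x : ℝ => bmp x) := bmp.hasCompactSupport
          exact this.comp_homeomorph (Homeomorph.subRight (j : ℝ))
        · refine Eventually.of_forall (fun s => ?_)
          have := bmp_nonneg (s - j)
          have := hN_nonneg h0 a N s
          show 0 ≤ 4 * (1 / (1 + (j : ℝ) ^ 2)) * (bmp (s - j) * hN D a N s)
          positivity
    _ = ENNReal.ofReal (∑' j : ℤ, (4 * C) * (1 / (1 + (j : ℝ) ^ 2))) :=
        (ENNReal.ofReal_tsum_of_nonneg (fun j => by positivity) hs).symm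
    _ = _ := rfl

end Pool.Agent.H382R3.KD
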