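import Mathlib
import Pool.Agent.H382R3.KD.Gen2

set_option autoImplicit false

open MeasureTheory Filter Topology Set
open scoped FourierTransform SchwartzMap ComplexConjugate Real ContDiff NNReal ENNReal BoundedContinuousFunction

namespace Pool.Agent.H382R3.KD

/-- weighted finite-volume intensities -/
noncomputable def nuN (D : ℝ) (a : Circ) (N : ℕ) : Measure ℝ :=
  (volume : Measure ℝ).withDensity (fun s => ENNReal.ofReal (hN D a N s * wt s))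

lemma wt_eq (s : ℝ) : wt s = (1 / (1 + s ^ 2)) * (1 / (1 + s ^ 2)) := by
  unfold wt; field_simp

lemma nuN_univ {D : ℝ} (h0 : 0 < D) {a : Circ} {C : ℝ≥0}
    (hC : ∀ N : ℕ, ∫⁻ s, ENNReal.ofReal (hN D a N s * (1 / (1 + s ^ 2))) ≤ C) (N : ℕ) :
    nuN D a N univ ≤ C := by
  unfold nuN
  rw [withDensity_apply _ MeasurableSet.univ, Measure.restrict_univ]
  refine (lintegral_mono (fun s => ENNReal.ofReal_le_ofReal ?_)).trans (hC N)
  exact mul_le_mul_of_nonneg_left (wt_le s) (hN_nonneg h0 a N s)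

lemma nuN_tail {D : ℝ} (h0 : 0 < D) {a : Circ} {C : ℝ≥0}
    (hC : ∀ N : ℕ, ∫⁻ s, ENNReal.ofReal (hN D a N s * (1 / (1 + s ^ 2))) ≤ C) (N : ℕ) (n : ℕ) :
    nuN D a N (Icc (-(n : ℝ)) n)ᶜ ≤ ((1 / (1 + (n : ℝ≥0) ^ 2) * C : ℝ≥0) : ℝ≥0∞) := by
  unfold nuN
  rw [withDensity_apply _ measurableSet_Icc.compl]
  have hpt : ∀ s ∈ (Icc (-(n : ℝ)) n)ᶜ, ENNReal.ofReal (hN D a N s * wt s) ≤
      ((1 / (1 + (n : ℝ≥0) ^ 2) : ℝ≥0) : ℝ≥0∞) * ENNReal.ofReal (hN D a N s * (1 / (1 + s ^ 2))) := by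
    intro s hs
    have hs2 : (n : ℝ) ^ 2 ≤ s ^ 2 := by
      rw [mem_compl_iff, mem_Icc, not_and_or] at hs
      rcases hs with hs | hs
      · push Not at hs; nlinarith [Nat.cast_nonneg (α := ℝ) n]
      · push Not at hs; nlinarith [Nat.cast_nonneg (α := ℝ) n]
    have e : ((1 / (1 + (n : ℝ≥0) ^ 2) : ℝ≥0) : ℝ≥0∞) = ENNReal.ofReal (1 / (1 + (n : ℝ) ^ 2)) := by
      rw [ENNReal.ofReal]
      congr 1
      rw [← NNReal.coe_inj, Real.coe_toNNReal _ (by positivity)]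
      push_cast; rfl
    rw [e, ← ENNReal.ofReal_mul (by positivity)]
    apply ENNReal.ofReal_le_ofReal
    rw [wt_eq]
    have hh := hN_nonneg h0 a N s
    calc hN D a N s * (1 / (1 + s ^ 2) * (1 / (1 + s ^ 2)))
        = (1 / (1 + s ^ 2)) * (hN D a N s * (1 / (1 + s ^ 2))) := by ring
      _ ≤ (1 / (1 + (n : ℝ) ^ 2)) * (hN D a N s * (1 / (1 + s ^ 2))) := by
          apply mul_le_mul_of_nonneg_right _ (by positivity)
          apply one_div_le_one_div_of_le (by positivity)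
          linarith
  calc ∫⁻ s in (Icc (-(n : ℝ)) n)ᶜ, ENNReal.ofReal (hN D a N s * wt s)
      ≤ ∫⁻ s in (Icc (-(n : ℝ)) n)ᶜ, ((1 / (1 + (n : ℝ≥0) ^ 2) : ℝ≥0) : ℝ≥0∞) *
          ENNReal.ofReal (hN D a N s * (1 / (1 + s ^ 2))) :=
        setLIntegral_mono' measurableSet_Icc.compl hpt
    _ ≤ ∫⁻ s, ((1 / (1 + (n : ℝ≥0) ^ 2) : ℝ≥0) : ℝ≥0∞) *
          ENNReal.ofReal (hN D a N s * (1 / (1 + s ^ 2))) := setLIntegral_le_lintegral _ _
    _ = ((1 / (1 + (n : ℝ≥0) ^ 2) : ℝ≥0) : ℝ≥0∞) *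
          ∫⁻ s, ENNReal.ofReal (hN D a N s * (1 / (1 + s ^ 2))) := by
        apply lintegral_const_mul'
        exact ENNReal.coe_ne_top
    _ ≤ ((1 / (1 + (n : ℝ≥0) ^ 2) : ℝ≥0) : ℝ≥0∞) * C := by gcongr; exact hC N
    _ = _ := by push_cast; rfl

/-- integrals against `nuN` -/
lemma integral_nuN {D : ℝ} (h0 : 0 < D) (a : Circ) (N : ℕ) {E : Type*} [NormedAddCommGroup E]
    [NormedSpace ℝ E] (φ : ℝ → E) :
    ∫ s, φ s ∂(nuN D a N) = ∫ s, (hN D a N s * wt s) • φ s := by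
  unfold nuN
  rw [integral_withDensity_eq_integral_toReal_smul]
  · congr 1
    funext s
    rw [ENNReal.toReal_ofReal (mul_nonneg (hN_nonneg h0 a N s) (wt_pos s).le)]
  · exact ENNReal.measurable_ofReal.comp ((continuous_hN D a N).mul continuous_wt).measurable
  · exact Eventually.of_forall (fun s => ENNReal.ofReal_lt_top)

theorem exists_limit {D : ℝ} (h0 : 0 < D) (h1 : D < 1) (a : Circ) :
    ∃ ν : Measure ℝ, IsFiniteMeasure ν ∧ (∀ φ : ℝ →ᵇ ℝ,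
      Tendsto (fun N : ℕ => ∫ s, φ s ∂(nuN D a N)) (hyperfilter ℕ) (𝓝 (∫ s, φ s ∂ν))) ∧
      (∀ φ : ℝ →ᵇ ℂ,
      Tendsto (fun N : ℕ => ∫ s, φ s ∂(nuN D a N)) (hyperfilter ℕ) (𝓝 (∫ s, φ s ∂ν))) := by
  obtain ⟨C, hC⟩ := lintegral_bound h0 h1 a
  have hfin : ∀ N, IsFiniteMeasure (nuN D a N) := fun N =>
    ⟨lt_of_le_of_lt (nuN_univ h0 hC N) ENNReal.coe_lt_top⟩
  let μs : ℕ → FiniteMeasure ℝ := fun N => ⟨nuN D a N, hfin N⟩
  have hu : Tendsto (fun n : ℕ => 1 / (1 + (n : ℝ≥0) ^ 2) * C) atTop (𝓝 0) := by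
    rw [← NNReal.tendsto_coe]
    push_cast
    have h1 : Tendsto (fun n : ℕ => 1 / (1 + (n : ℝ) ^ 2)) atTop (𝓝 0) := by
      apply tendsto_const_nhds.div_atTop
      apply tendsto_atTop_add_const_left
      exact (tendsto_pow_atTop two_ne_zero).comp tendsto_natCast_atTop_atTop
    have := h1.mul_const (C : ℝ)
    simpa using this
  have hcomp := isCompact_setOfPred_finiteMeasure_mass_le_compl_isCompact_le (E := ℝ)
    (u := fun n : ℕ => 1 / (1 + (n : ℝ≥0) ^ 2) * C) (K := fun n : ℕ => Icc (-(n : ℝ)) n) C hu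
    (fun n => isCompact_Icc) (Or.inl inferInstance)
  have hmem : ∀ N, μs N ∈ {μ : FiniteMeasure ℝ | μ.mass ≤ C ∧
      ∀ n : ℕ, μ (Icc (-(n : ℝ)) n)ᶜ ≤ 1 / (1 + (n : ℝ≥0) ^ 2) * C} := by
    intro N
    refine ⟨?_, fun n => ?_⟩
    · rw [← ENNReal.coe_le_coe, FiniteMeasure.ennreal_mass]
      exact nuN_univ h0 hC N
    · rw [← ENNReal.coe_le_coe, FiniteMeasure.ennreal_coeFn_eq_coeFn_toMeasure]
      exact nuN_tail h0 hC N n
  obtain ⟨ν, -, hν⟩ := hcomp.ultrafilter_le_nhds ((hyperfilter ℕ).map μs) (by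
    rw [le_principal_iff]
    exact Ultrafilter.mem_map.2 (Filter.univ_mem' hmem))
  have hν' : Tendsto μs (hyperfilter ℕ) (𝓝 ν) := hν
  refine ⟨ν, inferInstance, fun φ => ?_, fun φ => ?_⟩
  · exact (FiniteMeasure.tendsto_iff_forall_integral_tendsto.1 hν') φ
  · exact ((FiniteMeasure.tendsto_iff_forall_integral_rclike_tendsto ℂ).1 hν') φ

end Pool.Agent.H382R3.KD
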