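import Mathlib
import Pool.Agent.H382R3.KD.Gen3

set_option autoImplicit false

open MeasureTheory Filter Topology Set
open scoped FourierTransform SchwartzMap ComplexConjugate Real ContDiff NNReal ENNReal BoundedContinuousFunction

namespace Pool.Agent.H382R3.KD

lemma measurable_invwt : Measurable (fun s : ℝ => ENNReal.ofReal (1 / wt s)) :=
  ENNReal.measurable_ofReal.comp (measurable_const.div continuous_wt.measurable)

/-- unweighted limit measure -/
noncomputable def unw (ν : Measure ℝ) : Measure ℝ := ν.withDensity (fun s => ENNReal.ofReal (1 / wt s))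

lemma integral_unw (ν : Measure ℝ) {E : Type*} [NormedAddCommGroup E]
    [NormedSpace ℝ E] (φ : ℝ → E) : ∫ s, φ s ∂(unw ν) = ∫ s, (1 / wt s) • φ s ∂ν := by
  unfold unw
  rw [integral_withDensity_eq_integral_toReal_smul measurable_invwt
    (Eventually.of_forall (fun s => ENNReal.ofReal_lt_top))]
  congr 1
  funext s
  rw [ENNReal.toReal_ofReal (by have := wt_pos s; positivity)]

lemma integrable_wt_unw (ν : Measure ℝ) [IsFiniteMeasure ν] : Integrable wt (unw ν) := by
  unfold unw
  rw [integrable_withDensity_iff_integrable_smul' measurable_invwt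
    (Eventually.of_forall (fun s => ENNReal.ofReal_lt_top))]
  refine (integrable_const (1 : ℝ)).congr (Eventually.of_forall (fun s => ?_))
  have := wt_pos s
  simp only [smul_eq_mul]
  rw [ENNReal.toReal_ofReal (by positivity)]
  field_simp

theorem unw_isFT {D : ℝ} (h0 : 0 < D) (h1 : D < 1) (a : Circ) {ν : Measure ℝ} [IsFiniteMeasure ν]
    (hν : ∀ φ : ℝ →ᵇ ℂ,
      Tendsto (fun N : ℕ => ∫ s, φ s ∂(nuN D a N)) (hyperfilter ℕ) (𝓝 (∫ s, φ s ∂ν))) :
    IsFourierTransformOf (eta D a) (unw ν) := by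
  refine ⟨locFin_of_wt (integrable_wt_unw ν), fun f => ?_⟩
  refine ⟨integrable_schwartz (integrable_wt_eta h0 h1 a) _,
    integrable_schwartz (integrable_wt_unw ν) f, ?_⟩
  obtain ⟨C, hC, hb⟩ := schwartz_wt f
  have hinv : Continuous (fun s : ℝ => 1 / wt s) :=
    continuous_const.div continuous_wt (fun s => (wt_pos s).ne')
  have hc : Continuous (fun s : ℝ => (1 / wt s) • f s) := hinv.smul f.continuous
  let φ : ℝ →ᵇ ℂ := BoundedContinuousFunction.ofNormedAddCommGroup (fun s : ℝ => (1 / wt s) • f s) hc C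
    (fun s => by
      have := wt_pos s
      rw [norm_smul, Real.norm_of_nonneg (by positivity), one_div, inv_mul_le_iff₀ this, mul_comm]
      exact hb s)
  have h2 := hν φ
  have e1 : ∀ N : ℕ, ∫ s, φ s ∂(nuN D a N) = ∫ s, f s * (hN D a N s : ℂ) := by
    intro N
    rw [integral_nuN h0]
    congr 1
    funext s
    show (hN D a N s * wt s) • ((1 / wt s) • f s) = _
    have := (wt_pos s).ne'
    rw [smul_smul, mul_assoc, mul_one_div, div_self this, mul_one, Complex.real_smul, mul_comm]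
  simp_rw [e1] at h2
  have h3 := (tendsto_hN h0 h1 a f).mono_left Nat.hyperfilter_le_atTop
  have h4 := tendsto_nhds_unique h3 h2
  rw [h4, integral_unw]
  rfl

lemma FF_abs_le {D : ℝ} (h0 : 0 < D) (h1 : D < 1) (a : Circ) {n : ℤ} (hn : 0 ≤ n) (x : Circ) :
    |FF D a n x| ≤ n / kap D := by
  unfold FF
  rw [show Finset.Ico n 0 = ∅ from Finset.Ico_eq_empty_of_le hn]
  simp only [Finset.sum_empty, sub_zero]
  rw [abs_of_nonneg (Finset.sum_nonneg (fun i _ => (rr_pos h0 h1 _).le))]
  calc ∑ i ∈ Finset.Ico 0 n, rr D (x + i • a) ≤ ∑ i ∈ Finset.Ico 0 n, 1 / kap D :=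
        Finset.sum_le_sum (fun i _ => rr_le h0 h1 _)
    _ = n / kap D := by
        rw [Finset.sum_const, Int.card_Ico, nsmul_eq_mul]
        have : (((n - 0).toNat : ℕ) : ℤ) = n := by omega
        have : (((n - 0).toNat : ℕ) : ℝ) = n := by exact_mod_cast this
        rw [this]; ring

lemma SN_diff {D : ℝ} (h0 : 0 < D) (h1 : D < 1) (a : Circ) (N : ℕ) (s t : ℝ) (x : Circ) :
    ‖SN D a N s x - SN D a N t x‖ ≤ 2 * π * |s - t| * N ^ 2 / kap D := by
  have hk := kap_pos h0
  have hpi := Real.pi_pos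
  unfold SN
  rw [← Finset.sum_sub_distrib]
  refine (norm_sum_le _ _).trans ?_
  have hterm : ∀ n ∈ Finset.Ico (0 : ℤ) N, ‖ex (s * FF D a n x) - ex (t * FF D a n x)‖ ≤
      2 * π * |s - t| * (N / kap D) := by
    intro n hn
    rw [Finset.mem_Ico] at hn
    refine (norm_ex_sub _ _).trans ?_
    rw [← sub_mul, abs_mul, ← mul_assoc]
    apply mul_le_mul_of_nonneg_left _ (by positivity)
    refine (FF_abs_le h0 h1 a hn.1 x).trans ?_
    have : (n : ℝ) ≤ N := by exact_mod_cast hn.2.le
    gcongr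
  refine (Finset.sum_le_sum hterm).trans ?_
  rw [Finset.sum_const, Int.card_Ico, nsmul_eq_mul]
  simp only [sub_zero, Int.toNat_natCast]
  apply le_of_eq; ring

lemma hN_lower {D : ℝ} (h0 : 0 < D) (h1 : D < 1) (a : Circ) {N : ℕ} (hN0 : 0 < N) {s₀ α : ℝ}
    (hα : 0 < α) (h : α ^ 2 * (N : ℝ) ^ 2 ≤ ∫ x : Circ, ‖SN D a N s₀ x‖ ^ 2) {s : ℝ}
    (hs : |s - s₀| ≤ α * kap D / (4 * π) / N) : α ^ 2 * N / (4 * kap D) ≤ hN D a N s := by
  have hk := kap_pos h0
  have hpi := Real.pi_pos
  have hNR : (0 : ℝ) < N := by exact_mod_cast hN0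
  have hi : ∀ t : ℝ, Integrable (fun x : Circ => ‖SN D a N t x‖ ^ 2) := fun t =>
    integrable_of_bdd ((measurable_SN D a N t).norm.pow_const 2) (B := (N : ℝ) ^ 2) (fun x => by
      rw [abs_of_nonneg (by positivity)]
      exact pow_le_pow_left₀ (norm_nonneg _) (norm_SN_le D a N t x) 2)
  have hd : ∀ x : Circ, ‖SN D a N s x - SN D a N s₀ x‖ ≤ α * N / 2 := by
    intro x
    refine (SN_diff h0 h1 a N s s₀ x).trans ?_
    calc 2 * π * |s - s₀| * (N : ℝ) ^ 2 / kap D ≤ 2 * π * (α * kap D / (4 * π) / N) * (N : ℝ) ^ 2 / kap D := by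
          gcongr
      _ = α * N / 2 := by field_simp; ring
  have hpt : ∀ x : Circ, 1 / 2 * ‖SN D a N s₀ x‖ ^ 2 - (α * N / 2) ^ 2 ≤ ‖SN D a N s x‖ ^ 2 := by
    intro x
    have e1 : ‖SN D a N s₀ x‖ ≤ ‖SN D a N s x‖ + α * N / 2 := by
      calc ‖SN D a N s₀ x‖ = ‖SN D a N s x - (SN D a N s x - SN D a N s₀ x)‖ := by congr 1; ring
        _ ≤ ‖SN D a N s x‖ + ‖SN D a N s x - SN D a N s₀ x‖ := norm_sub_le _ _
        _ ≤ _ := by linarith [hd x]
    have e2 := norm_nonneg (SN D a N s₀ x)
    have e3 := norm_nonneg (SN D a N s x)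
    have e4 : ‖SN D a N s₀ x‖ ^ 2 ≤ (‖SN D a N s x‖ + α * N / 2) ^ 2 := pow_le_pow_left₀ e2 e1 2
    nlinarith [sq_nonneg (‖SN D a N s x‖ - α * N / 2)]
  have hint : 1 / 4 * (α ^ 2 * (N : ℝ) ^ 2) ≤ ∫ x : Circ, ‖SN D a N s x‖ ^ 2 := by
    calc 1 / 4 * (α ^ 2 * (N : ℝ) ^ 2) ≤ 1 / 2 * (∫ x : Circ, ‖SN D a N s₀ x‖ ^ 2) - (α * N / 2) ^ 2 := by
          nlinarith
      _ = ∫ x : Circ, (1 / 2 * ‖SN D a N s₀ x‖ ^ 2 - (α * N / 2) ^ 2) := by
          rw [integral_sub ((hi s₀).const_mul _) (integrable_const _), integral_const_mul]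
          simp [Measure.real]
      _ ≤ _ := integral_mono (((hi s₀).const_mul _).sub (integrable_const _)) (hi s) hpt
  unfold hN
  calc α ^ 2 * N / (4 * kap D) = 1 / (kap D * N) * (1 / 4 * (α ^ 2 * (N : ℝ) ^ 2)) := by
        field_simp
    _ ≤ _ := by
        apply mul_le_mul_of_nonneg_left hint
        positivity

/-- tent function -/
noncomputable def tent (s₀ ε : ℝ) (s : ℝ) : ℝ := max 0 (1 - |s - s₀| / ε)

lemma tent_nonneg (s₀ ε s : ℝ) : 0 ≤ tent s₀ ε s := le_max_left _ _

lemma tent_le {s₀ ε : ℝ} (hε : 0 < ε) (s : ℝ) : tent s₀ ε s ≤ 1 := by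
  unfold tent
  apply max_le zero_le_one
  have : 0 ≤ |s - s₀| / ε := by positivity
  linarith

lemma continuous_tent (s₀ ε : ℝ) : Continuous (tent s₀ ε) := by
  unfold tent; fun_prop

lemma wt_anti {s t : ℝ} (h : |s| ≤ |t|) : wt t ≤ wt s := by
  unfold wt
  apply one_div_le_one_div_of_le (by positivity)
  have : s ^ 2 ≤ t ^ 2 := sq_le_sq.2 h
  gcongr

theorem atom_criterion {D : ℝ} (h0 : 0 < D) (h1 : D < 1) (a : Circ) {ν : Measure ℝ} [IsFiniteMeasure ν]
    (hν : ∀ φ : ℝ →ᵇ ℝ,
      Tendsto (fun N : ℕ => ∫ s, φ s ∂(nuN D a N)) (hyperfilter ℕ) (𝓝 (∫ s, φ s ∂ν)))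
    {s₀ α : ℝ} (hα : 0 < α)
    (h : ∀ N : ℕ, α ^ 2 * (N : ℝ) ^ 2 ≤ ∫ x : Circ, ‖SN D a N s₀ x‖ ^ 2) : unw ν {s₀} ≠ 0 := by
  have hk := kap_pos h0
  have hpi := Real.pi_pos
  intro hz
  have hν0 : ν {s₀} = 0 := by
    unfold unw at hz
    rw [withDensity_apply _ (measurableSet_singleton s₀), lintegral_singleton] at hz
    rcases mul_eq_zero.1 hz with h2 | h2
    · exfalso
      rw [ENNReal.ofReal_eq_zero] at h2
      have := wt_pos s₀
      have : 0 < 1 / wt s₀ := by positivity
      linarith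
    · exact h2
  set θ : ℝ := α * kap D / (4 * π) with hθ
  have hθ0 : 0 < θ := by positivity
  set w0 : ℝ := wt (|s₀| + 1) with hw0
  have hw0p : 0 < w0 := wt_pos _
  set c : ℝ := α ^ 2 * w0 * θ / (4 * kap D) with hc
  have hc0 : 0 < c := by positivity
  -- lower bound for every tent
  have hlow : ∀ ε : ℝ, 0 < ε → ε ≤ 1 → c ≤ ∫ s, tent s₀ ε s ∂ν := by
    intro ε hε hε1
    let φ : ℝ →ᵇ ℝ := BoundedContinuousFunction.ofNormedAddCommGroup (tent s₀ ε)
      (continuous_tent s₀ ε) 1 (fun s => by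
        rw [Real.norm_of_nonneg (tent_nonneg _ _ _)]; exact tent_le hε s)
    have hlim := hν φ
    have hev : ∀ᶠ N : ℕ in (hyperfilter ℕ : Filter ℕ), c ≤ ∫ s, φ s ∂(nuN D a N) := by
      apply Nat.hyperfilter_le_atTop
      obtain ⟨N0, hN0⟩ := exists_nat_gt (2 * θ / ε)
      filter_upwards [eventually_ge_atTop (max N0 1)] with N hNN
      have hN1 : 0 < N := lt_of_lt_of_le one_pos ((le_max_right _ _).trans hNN)
      have hNR : (0 : ℝ) < N := by exact_mod_cast hN1
      have hNbig : 2 * θ / ε ≤ N := hN0.le.trans (by exact_mod_cast (le_max_left _ _).trans hNN)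
      have hrad : θ / N ≤ ε / 2 := by
        rw [div_le_iff₀ hε] at hNbig
        rw [div_le_iff₀ hNR]
        linarith
      have e1 : ∫ s, φ s ∂(nuN D a N) = ∫ s, (hN D a N s * wt s) * tent s₀ ε s := by
        rw [integral_nuN h0]; rfl
      rw [e1]
      have hcont : Continuous (fun s => (hN D a N s * wt s) * tent s₀ ε s) :=
        ((continuous_hN D a N).mul continuous_wt).mul (continuous_tent s₀ ε)
      have hcs : HasCompactSupport (fun s => (hN D a N s * wt s) * tent s₀ ε s) := by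
        apply HasCompactSupport.mul_left
        apply HasCompactSupport.of_support_subset_isCompact (isCompact_closedBall s₀ ε)
        intro s hs
        rw [Metric.mem_closedBall, Real.dist_eq]
        by_contra hlt
        push Not at hlt
        apply hs
        unfold tent
        apply max_eq_left
        have : 1 < |s - s₀| / ε := by rw [lt_div_iff₀ hε]; linarith
        linarith
      have hint : Integrable (fun s => (hN D a N s * wt s) * tent s₀ ε s) (volume : Measure ℝ) :=
        hcont.integrable_of_hasCompactSupport hcs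
      calc c = ∫ s in Metric.closedBall s₀ (θ / N), (α ^ 2 * N / (4 * kap D)) * w0 * (1 / 2) := by
            rw [setIntegral_const, Measure.real, Real.volume_closedBall,
              ENNReal.toReal_ofReal (by positivity), smul_eq_mul, hc]
            field_simp
        _ ≤ ∫ s in Metric.closedBall s₀ (θ / N), (hN D a N s * wt s) * tent s₀ ε s := by
            apply setIntegral_mono_on
            · exact integrableOn_const (by
                rw [Real.volume_closedBall]; exact ENNReal.ofReal_ne_top)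
            · exact hint.integrableOn
            · exact measurableSet_closedBall
            · intro s hs
              rw [Metric.mem_closedBall, Real.dist_eq] at hs
              have a1 := hN_lower h0 h1 a hN1 hα (h N) hs
              have hs1 : |s - s₀| ≤ ε / 2 := hs.trans hrad
              have a2 : w0 ≤ wt s := by
                apply wt_anti
                have : |s| ≤ |s - s₀| + |s₀| := by
                  have := abs_add_le (s - s₀) s₀; rwa [sub_add_cancel] at this
                rw [abs_of_nonneg (by positivity : (0:ℝ) ≤ |s₀| + 1)]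
                linarith
              have a3 : 1 / 2 ≤ tent s₀ ε s := by
                unfold tent
                apply le_max_of_le_right
                have : |s - s₀| / ε ≤ 1 / 2 := by rw [div_le_iff₀ hε]; linarith
                linarith
              have a4 := hN_nonneg h0 a N s
              have a5 : 0 ≤ α ^ 2 * N / (4 * kap D) := by positivity
              exact mul_le_mul (mul_le_mul a1 a2 hw0p.le a4) a3 (by norm_num)
                (mul_nonneg a4 (wt_pos s).le)
        _ ≤ ∫ s, (hN D a N s * wt s) * tent s₀ ε s := by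
            apply setIntegral_le_integral hint
            refine Eventually.of_forall (fun s => ?_)
            exact mul_nonneg (mul_nonneg (hN_nonneg h0 a N s) (wt_pos s).le) (tent_nonneg _ _ _)
    exact ge_of_tendsto hlim hev
  -- tents shrink to the point
  have hlim0 : Tendsto (fun n : ℕ => ∫ s, tent s₀ (1 / ((n : ℝ) + 1)) s ∂ν) atTop (𝓝 (∫ _s, (0 : ℝ) ∂ν)) := by
    apply tendsto_integral_of_dominated_convergence (fun _ => (1 : ℝ))
    · intro n; exact (continuous_tent _ _).aestronglyMeasurable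
    · exact integrable_const _
    · intro n
      refine Eventually.of_forall (fun s => ?_)
      rw [Real.norm_of_nonneg (tent_nonneg _ _ _)]
      exact tent_le (by positivity) s
    · have hae : ∀ᵐ s ∂ν, s ≠ s₀ := by
        rw [ae_iff]
        simpa using hν0
      filter_upwards [hae] with s hs
      have hpos : 0 < |s - s₀| := abs_pos.2 (sub_ne_zero.2 hs)
      obtain ⟨n0, hn0⟩ := exists_nat_gt (1 / |s - s₀|)
      apply tendsto_const_nhds.congr'
      filter_upwards [eventually_ge_atTop n0] with n hn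
      unfold tent
      symm
      apply max_eq_left
      have h2 : (n0 : ℝ) ≤ n := by exact_mod_cast hn
      rw [div_lt_iff₀ hpos] at hn0
      have : 1 ≤ |s - s₀| / (1 / ((n : ℝ) + 1)) := by
        rw [div_div_eq_mul_div, div_one]
        nlinarith
      linarith
  have hge : ∀ n : ℕ, c ≤ ∫ s, tent s₀ (1 / ((n : ℝ) + 1)) s ∂ν := fun n =>
    hlow _ (by positivity) (by
      rw [div_le_one (by positivity)]
      have : (0 : ℝ) ≤ n := Nat.cast_nonneg n
      linarith)
  have := ge_of_tendsto' hlim0 hge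
  simp at this
  linarith

lemma cocycle_iter {D : ℝ} (a : Circ) {u : Circ → ℂ} (hu1 : ∀ x, ‖u x‖ = 1)
    {s₀ : ℝ} {x : Circ} (hx : ∀ n : ℕ, ex (s₀ * rr D (x + n • a)) =
      u (x + n • a + a) * conj (u (x + n • a))) (n : ℕ) :
    ex (s₀ * FF D a n x) = u (x + n • a) * conj (u x) := by
  have huu : ∀ y, u y * conj (u y) = 1 := fun y => by
    rw [Complex.mul_conj, Complex.normSq_eq_norm_sq, hu1]; simp
  induction n with
  | zero => simp [FF_zero, ex_zero, huu]
  | succ n ih =>
    have e1 : FF D a ((n + 1 : ℕ) : ℤ) x = FF D a n x + rr D (x + n • a) := by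
      have := FF_succ D a n x
      rw [natCast_zsmul] at this
      push_cast
      exact this
    have e2 : x + (n + 1) • a = x + n • a + a := by rw [succ_nsmul, ← add_assoc]
    rw [e1, mul_add, ex_add, ih, hx n, e2]
    have h3 := huu (x + n • a)
    calc u (x + n • a) * conj (u x) * (u (x + n • a + a) * conj (u (x + n • a)))
        = (u (x + n • a) * conj (u (x + n • a))) * (u (x + n • a + a) * conj (u x)) := by ring
      _ = _ := by rw [h3, one_mul]

lemma ae_shift {P : Circ → Prop} (h : ∀ᵐ x : Circ, P x) (b : Circ) : ∀ᵐ x : Circ, P (x + b) := by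
  have hq := (measurePreserving_add_right (volume : Measure Circ) b).quasiMeasurePreserving
  exact hq.ae (p := P) h

/-- multiplicative coboundary criterion -/
lemma SN_of_cocycle {D : ℝ} (a : Circ) {u : Circ → ℂ} (hu : Measurable u) (hu1 : ∀ x, ‖u x‖ = 1)
    {s₀ : ℝ} (hco : ∀ᵐ x : Circ, ex (s₀ * rr D x) = u (x + a) * conj (u x)) (N : ℕ) :
    ‖∫ x : Circ, u x‖ ^ 2 * (N : ℝ) ^ 2 ≤ ∫ x : Circ, ‖SN D a N s₀ x‖ ^ 2 := by
  have hco' : ∀ᵐ x : Circ, ∀ n : ℕ, ex (s₀ * rr D (x + n • a)) = u (x + n • a + a) * conj (u (x + n • a)) := by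
    rw [ae_all_iff]
    intro n
    exact ae_shift (P := fun y => ex (s₀ * rr D y) = u (y + a) * conj (u y)) hco (n • a)
  have hkey : ∀ᵐ x : Circ, ∀ n : ℕ, ex (s₀ * FF D a n x) = u (x + n • a) * conj (u x) := by
    filter_upwards [hco'] with x hx n
    exact cocycle_iter a hu1 hx n
  set g : Circ → ℂ := fun x => ∑ n ∈ Finset.range N, u (x + n • a) with hg
  have hgm : Measurable g := Finset.measurable_fun_sum _ (fun n _ => hu.comp (measurable_add_const _))
  have hgb : ∀ x, ‖g x‖ ≤ N := fun x => by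
    rw [hg]
    refine (norm_sum_le _ _).trans ?_
    simp [hu1]
  have e1 : ∀ᵐ x : Circ, ‖SN D a N s₀ x‖ ^ 2 = ‖g x‖ ^ 2 := by
    filter_upwards [hkey] with x hx
    have : SN D a N s₀ x = g x * conj (u x) := by
      unfold SN
      rw [hg, Finset.sum_mul]
      have hI : Finset.Ico (0 : ℤ) N = (Finset.range N).image (fun n : ℕ => (n : ℤ)) := by
        ext i
        simp only [Finset.mem_Ico, Finset.mem_image, Finset.mem_range]
        constructor
        · intro hi
          exact ⟨i.toNat, by omega, by omega⟩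
        · rintro ⟨n, hn, rfl⟩; omega
      rw [hI, Finset.sum_image (fun m _ n _ h => by exact_mod_cast h)]
      exact Finset.sum_congr rfl (fun n _ => hx n)
    rw [this, norm_mul, Complex.norm_conj, hu1, mul_one]
  rw [integral_congr_ae e1]
  have hgi : Integrable (fun x => ‖g x‖) := integrable_of_bdd hgm.norm (B := N) (fun x => by
    rw [abs_of_nonneg (norm_nonneg _)]; exact hgb x)
  have hgi2 : Integrable (fun x => ‖g x‖ ^ 2) := integrable_of_bdd (hgm.norm.pow_const 2)
    (B := (N : ℝ) ^ 2) (fun x => by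
      rw [abs_of_nonneg (by positivity)]; exact pow_le_pow_left₀ (norm_nonneg _) (hgb x) 2)
  have hI1 : ‖∫ x : Circ, u x‖ * N ≤ ∫ x, ‖g x‖ := by
    have : ∫ x, g x = N * ∫ x : Circ, u x := by
      have hiu : ∀ n : ℕ, Integrable (fun x : Circ => u (x + n • a)) := fun n =>
        integrable_of_bddC (hu.comp (measurable_add_const _)) (B := 1) (fun x => (hu1 _).le)
      have h5 : ∫ x, g x = ∑ n ∈ Finset.range N, ∫ x : Circ, u (x + n • a) :=
        integral_finsetSum _ (fun n _ => hiu n)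
      have : ∀ n : ℕ, ∫ x : Circ, u (x + n • a) = ∫ x : Circ, u x := fun n =>
        integral_add_right_eq_self u (n • a)
      rw [h5]
      simp [this]
    calc ‖∫ x : Circ, u x‖ * N = ‖∫ x, g x‖ := by rw [this, norm_mul, Complex.norm_natCast]; ring
      _ ≤ _ := norm_integral_le_integral_norm _
  set m := ∫ x, ‖g x‖ with hm
  have hI2 : m ^ 2 ≤ ∫ x, ‖g x‖ ^ 2 := by
    have h1 : 0 ≤ ∫ x, (‖g x‖ - m) ^ 2 := integral_nonneg (fun _ => sq_nonneg _)
    have h2 : ∫ x, (‖g x‖ - m) ^ 2 = (∫ x, ‖g x‖ ^ 2) - 2 * m * m + m ^ 2 := by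
      have : ∀ x, (‖g x‖ - m) ^ 2 = (‖g x‖ ^ 2 - 2 * m * ‖g x‖) + m ^ 2 := fun x => by ring
      simp_rw [this]
      have hA : Integrable (fun x => ‖g x‖ ^ 2 - 2 * m * ‖g x‖) := hgi2.sub (hgi.const_mul _)
      rw [integral_add hA (integrable_const _),
        integral_sub hgi2 (hgi.const_mul _), integral_const_mul, ← hm]
      simp [Measure.real]
    rw [h2] at h1
    nlinarith
  have h3 : 0 ≤ ‖∫ x : Circ, u x‖ * N := by positivity
  calc ‖∫ x : Circ, u x‖ ^ 2 * (N : ℝ) ^ 2 = (‖∫ x : Circ, u x‖ * N) ^ 2 := by ring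
    _ ≤ m ^ 2 := pow_le_pow_left₀ h3 hI1 2
    _ ≤ _ := hI2

/-- existence of the diffraction measure, with a criterion for atoms -/
theorem exists_diffraction {D : ℝ} (h0 : 0 < D) (h1 : D < 1) (a : Circ) :
    ∃ μ : Measure ℝ, IsFourierTransformOf (eta D a) μ ∧
      ∀ (s₀ : ℝ) (u : Circ → ℂ), Measurable u → (∀ x, ‖u x‖ = 1) →
        (∀ᵐ x : Circ, ex (s₀ * rr D x) = u (x + a) * conj (u x)) → ∫ x : Circ, u x ≠ 0 → μ {s₀} ≠ 0 := by
  obtain ⟨ν, hfin, hν1, hν2⟩ := exists_limit h0 h1 a
  refine ⟨unw ν, unw_isFT h0 h1 a hν2, fun s₀ u hu hu1 hco hne => ?_⟩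
  exact atom_criterion h0 h1 a hν1 (norm_pos_iff.2 hne) (SN_of_cocycle a hu hu1 hco)

end Pool.Agent.H382R3.KD
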