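import Mathlib
import Pool.Agent.H382R3.KD.Gen4
import Pool.Agent.H382R3.KD.Kest

set_option autoImplicit false

open MeasureTheory Filter Topology Set
open scoped FourierTransform SchwartzMap ComplexConjugate Real ContDiff NNReal ENNReal

namespace Pool.Agent.H382R3.KD

/-- integer valued jump function -/
noncomputable def NN (y : ℝ) (x : Circ) : ℝ := y - fr x + fr (x - (y : Circ))

lemma NN_int (y : ℝ) (x : Circ) : ∃ n : ℤ, NN y x = n := by
  have h : ((NN y x : ℝ) : Circ) = 0 := by
    unfold NN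
    rw [AddCircle.coe_add, AddCircle.coe_sub, coe_fr, coe_fr]
    abel
  rw [AddCircle.coe_eq_zero_iff] at h
  obtain ⟨n, hn⟩ := h
  exact ⟨n, by simpa using hn.symm⟩

lemma ex_int (n : ℤ) : ex n = 1 := by
  unfold ex
  rw [Complex.exp_eq_one_iff]
  exact ⟨-n, by push_cast; ring⟩

lemma NN_add (y z : ℝ) (x : Circ) : NN (y + z) x = NN y x + NN z (x - (y : Circ)) := by
  unfold NN
  have : x - ((y + z : ℝ) : Circ) = x - (y : Circ) - (z : Circ) := by
    rw [AddCircle.coe_add]; abel
  rw [this]; ring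

lemma NN_zero (x : Circ) : NN 0 x = 0 := by unfold NN; simp

lemma NN_eq_ite (x : Circ) {D : ℝ} (h0 : 0 < D) (h1 : D < 1) :
    NN D x = if fr x < D then 1 else 0 := by
  have := fr_sub x h0 h1
  unfold NN; linarith

lemma measurable_NN (y : ℝ) : Measurable (NN y) := by
  unfold NN
  exact (measurable_const.sub measurable_fr).add (measurable_fr.comp (measurable_sub_const _))

lemma integral_abs_NN {y : ℝ} (hy : |y| < 1) : ∫ x : Circ, |NN y x| = |y| := by
  rcases lt_trichotomy y 0 with h | h | h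
  · have e : ∀ x : Circ, |NN y x| = (fun x : Circ => (if fr x < -y then (1 : ℝ) else 0)) (x + ((-y : ℝ) : Circ)) := by
      intro x
      rw [abs_of_neg h] at hy
      have h1 := NN_add y (-y) x
      rw [add_neg_cancel, NN_zero, NN_eq_ite _ (by linarith : 0 < -y) hy] at h1
      have h2 : x - (y : Circ) = x + ((-y : ℝ) : Circ) := by
        rw [AddCircle.coe_neg, sub_eq_add_neg]
      rw [h2] at h1
      have h3 : NN y x = - (if fr (x + ((-y : ℝ) : Circ)) < -y then (1 : ℝ) else 0) := by linarith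
      rw [h3, abs_neg]
      simp only
      split_ifs <;> simp
    simp_rw [e]
    rw [integral_add_right_eq_self (fun x : Circ => (if fr x < -y then (1 : ℝ) else 0)) ((-y : ℝ) : Circ)]
    rw [abs_of_neg h] at hy ⊢
    exact integral_ite_fr (by linarith) hy
  · subst h; simp [NN_zero]
  · rw [abs_of_pos h] at hy ⊢
    have e : ∀ x : Circ, |NN y x| = (if fr x < y then (1 : ℝ) else 0) := by
      intro x
      rw [NN_eq_ite x h hy]
      split_ifs <;> simp
    simp_rw [e]
    exact integral_ite_fr h hy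

lemma NN_bound (y : ℝ) (x : Circ) : |NN y x| ≤ |y| + 1 := by
  unfold NN
  have h1 := fr_nonneg x
  have h2 := fr_lt_one x
  have h3 := fr_nonneg (x - (y : Circ))
  have h4 := fr_lt_one (x - (y : Circ))
  have h5 := neg_abs_le y
  have h6 := le_abs_self y
  rw [abs_le]
  constructor <;> linarith

lemma integrable_NN (y : ℝ) : Integrable (fun x => |NN y x|) :=
  integrable_of_bdd (measurable_NN y).abs (B := |y| + 1) (fun x => by rw [abs_abs]; exact NN_bound y x)

/-- a birkhoff sum of an integer valued function is an integer -/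
lemma birk_int {φ : Circ → ℝ} (hφ : ∀ x, ∃ n : ℤ, φ x = n) (a : Circ) (k : ℤ) (x : Circ) :
    ∃ n : ℤ, birk φ a k x = n := by
  choose c hc using hφ
  refine ⟨∑ i ∈ Finset.Ico 0 k, c (x + i • a) - ∑ i ∈ Finset.Ico k 0, c (x + i • a), ?_⟩
  unfold birk
  push_cast
  simp_rw [hc]

lemma integral_abs_birk {y : ℝ} (hy : |y| < 1) (a : Circ) (k : ℤ) (b : Circ) :
    ∫ x : Circ, |birk (NN y) a k (x - b)| ≤ cnt k * |y| := by
  rw [integral_sub_right_eq_self (fun x : Circ => |birk (NN y) a k x|) b]
  have hi : ∀ i : ℤ, Integrable (fun x : Circ => |NN y (x + i • a)|) := fun i =>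
    (integrable_NN y).comp_add_right (i • a)
  have hval : ∀ i : ℤ, ∫ x : Circ, |NN y (x + i • a)| = |y| := fun i => by
    rw [integral_add_right_eq_self (fun x : Circ => |NN y x|) (i • a)]
    exact integral_abs_NN hy
  calc ∫ x : Circ, |birk (NN y) a k x|
      ≤ ∫ x : Circ, (∑ i ∈ Finset.Ico 0 k, |NN y (x + i • a)| + ∑ i ∈ Finset.Ico k 0, |NN y (x + i • a)|) := by
        apply integral_mono_of_nonneg
        · exact Eventually.of_forall (fun x => abs_nonneg _)
        · exact (integrable_finsetSum _ (fun i _ => hi i)).add (integrable_finsetSum _ (fun i _ => hi i))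
        · refine Eventually.of_forall (fun x => ?_)
          unfold birk
          exact (abs_sub _ _).trans (add_le_add (Finset.abs_sum_le_sum_abs _ _) (Finset.abs_sum_le_sum_abs _ _))
    _ = cnt k * |y| := by
        rw [integral_add (integrable_finsetSum _ (fun i _ => hi i)) (integrable_finsetSum _ (fun i _ => hi i)),
          integral_finsetSum _ (fun i _ => hi i), integral_finsetSum _ (fun i _ => hi i)]
        simp_rw [hval]
        rw [Finset.sum_const, Finset.sum_const, nsmul_eq_mul, nsmul_eq_mul]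
        unfold cnt
        push_cast
        ring

/-- the data for the infinite product -/
structure Chain (γ D : ℝ) where
  E : ℕ → ℝ
  j : ℕ → ℤ
  l : ℕ → ℤ
  hE : ∀ k, E k = j k * γ + l k
  hE0 : E 0 = 0
  hlim : Tendsto E atTop (𝓝 (D / 2))
  hlt : ∀ k, |E (k + 1) - E k| < 1
  hsum : Summable (fun k => (cnt (-(j (k + 1) - j k)) : ℝ) * |E (k + 1) - E k|)

namespace Chain

variable {γ D : ℝ} (c : Chain γ D)

/-- the `k`-th factor -/
noncomputable def v (k : ℕ) (x : Circ) : ℂ :=
  ex (birk (NN (c.E (k + 1) - c.E k)) (γ : Circ) (-(c.j (k + 1) - c.j k)) (x - ((2 * c.E k : ℝ) : Circ)) / 2)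

lemma coeE (k : ℕ) : ((c.E k : ℝ) : Circ) = c.j k • (γ : Circ) := by
  have h2 : ((c.l k : ℝ) : Circ) = 0 := by
    rw [AddCircle.coe_eq_zero_iff]; exact ⟨c.l k, by simp⟩
  rw [c.hE k, AddCircle.coe_add, h2, add_zero, ← zsmul_eq_mul]
  simp

lemma coeD (k : ℕ) : ((c.E (k + 1) - c.E k : ℝ) : Circ) = (c.j (k + 1) - c.j k) • (γ : Circ) := by
  rw [AddCircle.coe_sub, c.coeE, c.coeE, sub_smul]

lemma ex_half_int {n m : ℝ} (h : ∃ k : ℤ, n - m = 2 * k) : ex (n / 2) = ex (m / 2) := by
  obtain ⟨k, hk⟩ := h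
  have : n / 2 = m / 2 + k := by linarith
  rw [this, ex_add, ex_int, mul_one]

lemma v_cob (k : ℕ) (x : Circ) :
    ex (NN (2 * (c.E (k + 1) - c.E k)) (x - ((2 * c.E k : ℝ) : Circ)) / 2) =
      c.v k (x + (γ : Circ)) * conj (c.v k x) := by
  unfold v
  set δ := c.E (k + 1) - c.E k with hδ
  set y := x - ((2 * c.E k : ℝ) : Circ) with hy
  have e0 : x + (γ : Circ) - ((2 * c.E k : ℝ) : Circ) = y + (γ : Circ) := by rw [hy]; abel
  rw [e0, conj_ex, ← ex_add]
  have h1 := birk_shift (NN δ) (γ : Circ) (-(c.j (k + 1) - c.j k)) y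
  have h2 := NN_add δ δ y
  have h3 : y + (-(c.j (k + 1) - c.j k)) • (γ : Circ) = y - (δ : Circ) := by
    rw [hδ, c.coeD, neg_smul]
    exact (sub_eq_add_neg _ _).symm
  rw [h3] at h1
  obtain ⟨n, hn⟩ := NN_int δ y
  have h4 : birk (NN δ) (γ : Circ) (-(c.j (k + 1) - c.j k)) (y + (γ : Circ)) / 2 +
      -(birk (NN δ) (γ : Circ) (-(c.j (k + 1) - c.j k)) y / 2) = (NN δ (y - (δ : Circ)) - NN δ y) / 2 := by
    rw [← h1]; ring
  rw [h4]
  apply ex_half_int
  refine ⟨n, ?_⟩
  rw [two_mul, h2, ← hn]; ring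

/-- partial products -/
noncomputable def U (K : ℕ) (x : Circ) : ℂ := ∏ k ∈ Finset.range K, c.v k x

lemma U_cob (K : ℕ) (x : Circ) :
    ex (NN (2 * c.E K) x / 2) = c.U K (x + (γ : Circ)) * conj (c.U K x) := by
  induction K with
  | zero => simp [U, c.hE0, NN_zero, ex_zero]
  | succ K ih =>
    have h1 := NN_add (2 * c.E K) (2 * (c.E (K + 1) - c.E K)) x
    rw [show 2 * c.E K + 2 * (c.E (K + 1) - c.E K) = 2 * c.E (K + 1) by ring] at h1
    rw [h1, add_div, ex_add, ih, c.v_cob K x]
    unfold U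
    rw [Finset.prod_range_succ, Finset.prod_range_succ, map_mul]
    ring

lemma v_sq (k : ℕ) (x : Circ) : c.v k x = 1 ∨ c.v k x = -1 := by
  unfold v
  obtain ⟨n, hn⟩ := birk_int (NN_int (c.E (k + 1) - c.E k)) (γ : Circ) (-(c.j (k + 1) - c.j k))
    (x - ((2 * c.E k : ℝ) : Circ))
  rw [hn]
  have h : ex ((n : ℝ) / 2) * ex ((n : ℝ) / 2) = 1 := by
    rw [← ex_add, add_halves, ex_int]
  exact mul_self_eq_one_iff.1 h

lemma U_sq (K : ℕ) (x : Circ) : c.U K x = 1 ∨ c.U K x = -1 := by
  induction K with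
  | zero => left; simp [U]
  | succ K ih =>
    have e : c.U (K + 1) x = c.U K x * c.v K x := by unfold U; rw [Finset.prod_range_succ]
    rw [e]
    rcases ih with h | h <;> rcases c.v_sq K x with h2 | h2 <;> simp [h, h2]

lemma measurable_v (k : ℕ) : Measurable (c.v k) := by
  unfold v
  apply continuous_ex.measurable.comp
  exact ((measurable_birk (measurable_NN _) _ _).comp (measurable_sub_const _)).div_const 2

lemma measurable_U (K : ℕ) : Measurable (c.U K) := by
  unfold U
  exact Finset.measurable_fun_prod _ (fun k _ => c.measurable_v k)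

lemma ae_eventually_one : ∀ᵐ x : Circ, ∀ᶠ k : ℕ in atTop, c.v k x = 1 := by
  set b : ℕ → Circ → ℝ := fun k x =>
    |birk (NN (c.E (k + 1) - c.E k)) (γ : Circ) (-(c.j (k + 1) - c.j k)) (x - ((2 * c.E k : ℝ) : Circ))| with hb
  have hbm : ∀ k, Measurable (b k) := fun k =>
    ((measurable_birk (measurable_NN _) _ _).comp (measurable_sub_const _)).abs
  have hbb : ∀ k x, |b k x| ≤ cnt (-(c.j (k + 1) - c.j k)) * (|c.E (k + 1) - c.E k| + 1) := fun k x => by
    rw [hb]; simp only [abs_abs]
    exact birk_bound (NN_bound _) _ _ _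
  have hbi : ∀ k, Integrable (b k) := fun k => integrable_of_bdd (hbm k) (hbb k)
  have hle : ∀ k, ∫ x : Circ, ‖b k x‖ ≤ (cnt (-(c.j (k + 1) - c.j k)) : ℝ) * |c.E (k + 1) - c.E k| := by
    intro k
    have : ∀ x, ‖b k x‖ = b k x := fun x => by rw [Real.norm_of_nonneg (abs_nonneg _)]
    simp_rw [this]
    exact integral_abs_birk (c.hlt k) _ _ _
  have hs : Summable (fun k => ∫ x : Circ, ‖b k x‖) :=
    Summable.of_nonneg_of_le (fun k => integral_nonneg (fun _ => norm_nonneg _)) hle c.hsum
  have hlin : ∑' k, ∫⁻ x : Circ, ENNReal.ofReal (b k x) ≠ ⊤ := by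
    have e : ∀ k, ∫⁻ x : Circ, ENNReal.ofReal (b k x) = ENNReal.ofReal (∫ x : Circ, ‖b k x‖) := by
      intro k
      rw [ofReal_integral_eq_lintegral_ofReal (hbi k).norm (Eventually.of_forall (fun _ => norm_nonneg _))]
      congr 1
      funext x
      rw [Real.norm_of_nonneg (abs_nonneg _)]
    simp_rw [e]
    exact hs.tsum_ofReal_ne_top
  have hlin2 : ∫⁻ x : Circ, ∑' k, ENNReal.ofReal (b k x) ≠ ⊤ := by
    have hm2 : ∀ k, AEMeasurable (fun x : Circ => ENNReal.ofReal (b k x)) := fun k =>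
      (ENNReal.measurable_ofReal.comp (hbm k)).aemeasurable
    rw [lintegral_tsum hm2]
    exact hlin
  have hm3 : Measurable (fun x : Circ => ∑' k, ENNReal.ofReal (b k x)) :=
    Measurable.tsum (fun k => ENNReal.measurable_ofReal.comp (hbm k))
  have hae := ae_lt_top hm3 hlin2
  filter_upwards [hae] with x hx
  have h0 := ENNReal.tendsto_atTop_zero_of_tsum_ne_top hx.ne
  have h1 : ∀ᶠ k in atTop, ENNReal.ofReal (b k x) < 1 := h0.eventually_lt_const (by norm_num)
  filter_upwards [h1] with k hk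
  rw [ENNReal.ofReal_lt_one] at hk
  unfold v
  obtain ⟨n, hn⟩ := birk_int (NN_int (c.E (k + 1) - c.E k)) (γ : Circ) (-(c.j (k + 1) - c.j k))
    (x - ((2 * c.E k : ℝ) : Circ))
  rw [hb] at hk
  simp only at hk
  rw [hn] at hk ⊢
  have : |n| < 1 := by exact_mod_cast hk
  have hn0 : n = 0 := by
    rw [abs_lt] at this; omega
  rw [hn0]; simp [ex_zero]

lemma ae_tendsto : ∀ᵐ x : Circ, ∃ l, Tendsto (fun K => c.U K x) atTop (𝓝 l) := by
  filter_upwards [c.ae_eventually_one] with x hx
  obtain ⟨K0, hK0⟩ := eventually_atTop.1 hx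
  refine ⟨c.U K0 x, ?_⟩
  apply tendsto_const_nhds.congr'
  filter_upwards [eventually_ge_atTop K0] with K hK
  induction K, hK using Nat.le_induction with
  | base => rfl
  | succ K hK ih =>
    have e : c.U (K + 1) x = c.U K x * c.v K x := by unfold U; rw [Finset.prod_range_succ]
    rw [e, hK0 K hK, mul_one]; exact ih

end Chain

lemma vol_pt (x : Circ) : (volume : Measure Circ) {x} = 0 := by
  have := AddCircle.volume_closedBall (T := 1) (x := x) 0
  rw [Metric.closedBall_zero] at this
  rw [this]; simp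

/-- the transfer function -/
theorem Chain.exists_u {γ D : ℝ} (c : Chain γ D) :
    ∃ u : Circ → ℂ, Measurable u ∧ (∀ x, u x = 1 ∨ u x = -1) ∧
      ∀ᵐ x : Circ, ex (NN D x / 2) = u (x + (γ : Circ)) * conj (u x) := by
  obtain ⟨u0, hu0m, hu0⟩ := measurable_limit_of_tendsto_metrizable_ae
    (fun K => (c.measurable_U K).aemeasurable) c.ae_tendsto
  classical
  set u : Circ → ℂ := fun x => if u0 x = -1 then -1 else 1 with hu
  have hum : Measurable u := Measurable.ite (hu0m (measurableSet_singleton _)) measurable_const measurable_const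
  have hueq : ∀ᵐ x : Circ, Tendsto (fun K => c.U K x) atTop (𝓝 (u x)) := by
    filter_upwards [hu0] with x hx
    have hcl : u0 x ∈ ({1, -1} : Set ℂ) := by
      have hc : IsClosed ({1, -1} : Set ℂ) := (Set.toFinite _).isClosed
      exact hc.mem_of_tendsto hx (Eventually.of_forall (fun K => c.U_sq K x))
    have : u x = u0 x := by
      rw [hu]
      simp only
      rcases hcl with h | h
      · rw [h]; norm_num
      · rw [mem_singleton_iff] at h; rw [h]; simp
    rw [this]; exact hx
  refine ⟨u, hum, fun x => ?_, ?_⟩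
  · rw [hu]; simp only; split_ifs <;> simp
  · have hs := ae_shift hueq (γ : Circ)
    have hpt : ∀ᵐ x : Circ, x ≠ (D : Circ) := by
      rw [ae_iff]
      simpa using vol_pt (D : Circ)
    filter_upwards [hueq, hs, hpt] with x h1 h2 h3
    have h4 := h2.mul ((Complex.continuous_conj.tendsto _).comp h1)
    have h5 : Tendsto (fun K => ex (NN (2 * c.E K) x / 2)) atTop (𝓝 (ex (NN D x / 2))) := by
      have hD : Tendsto (fun K => 2 * c.E K) atTop (𝓝 D) := by
        have := c.hlim.const_mul 2
        rwa [mul_div_cancel₀ _ (two_ne_zero)] at this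
      apply (continuous_ex.tendsto _).comp
      apply Tendsto.div_const
      unfold NN
      refine (hD.sub tendsto_const_nhds).add ?_
      have hne : x - (D : Circ) ≠ 0 := sub_ne_zero.2 h3
      refine (continuousAt_fr hne).tendsto.comp ?_
      apply tendsto_const_nhds.sub
      exact ((AddCircle.continuous_mk' 1).tendsto D).comp hD
    have h6 : (fun K => ex (NN (2 * c.E K) x / 2)) =
        fun K => c.U K (x + (γ : Circ)) * conj (c.U K x) := by
      funext K; exact c.U_cob K x
    rw [h6] at h5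
    exact tendsto_nhds_unique h5 h4

end Pool.Agent.H382R3.KD
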