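import Mathlib
import Pool.Agent.H382R3.KD.Vee

set_option autoImplicit false

open MeasureTheory Filter Topology Set
open scoped FourierTransform SchwartzMap ComplexConjugate Real ContDiff NNReal ENNReal

namespace Pool.Agent.H382R3.KD

/-- the half period -/
noncomputable def hp : Circ := ((1 / 2 : ℝ) : Circ)

lemma fourier_hp_even (n : ℤ) : (fourier (2 * n) hp : ℂ) = 1 := by
  unfold hp
  rw [fourier_coe_apply, Complex.exp_eq_one_iff]
  exact ⟨n, by push_cast; ring⟩

lemma fc_half {u : Circ → ℂ} (hu : Measurable u) (hu1 : ∀ x, ‖u x‖ ≤ 1) (m : ℤ) :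
    fourierCoeff (fun x => u x - u (x + hp)) m = (1 - fourier m hp) * fourierCoeff u m := by
  have e1 := fc_translate (u := u) m hp
  have hu' : Measurable (fun x : Circ => u (x + hp)) := hu.comp (measurable_add_const _)
  rw [fc_eq] at e1
  rw [fc_eq, sub_mul, one_mul, ← e1, fc_eq (u := u)]
  rw [← integral_sub (integrable_four hu hu1 _) (integrable_four hu' (fun x => hu1 _) _)]
  congr 1; funext x; ring

lemma fr_add_half {D : ℝ} (hD : 1 / 2 < D) {x : Circ} (hx : D ≤ fr x) : fr (x + hp) = fr x - 1 / 2 := by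
  have h1 := fr_lt_one x
  have e : x + hp = ((fr x + 1 / 2 : ℝ) : Circ) := by
    unfold hp
    rw [AddCircle.coe_add, coe_fr]
  rw [e, fr_coe]
  rw [Int.fract_eq_iff]
  exact ⟨by linarith, by linarith, 1, by push_cast; ring⟩

lemma ex_half : ex (1 / 2) = -1 := by
  unfold ex
  have : ((-2 * π * (1 / 2) : ℝ) : ℂ) * Complex.I = -(π * Complex.I) := by push_cast; ring
  rw [this, Complex.exp_neg, Complex.exp_pi_mul_I]; norm_num

theorem infinite_odd {D : ℝ} (hD : 1 / 2 < D) (hD1 : D < 1) {a : Circ} {u : Circ → ℂ} (hum : Measurable u)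
    (hu : ∀ x, u x = 1 ∨ u x = -1) (hco : ∀ᵐ x : Circ, ex (NN D x / 2) = u (x + a) * conj (u x)) :
    {i : ℤ | fourierCoeff u (2 * i + 1) ≠ 0}.Infinite := by
  classical
  intro hfin
  have hu1 : ∀ x, ‖u x‖ ≤ 1 := fun x => by rcases hu x with h | h <;> simp [h]
  set v : Circ → ℂ := fun x => u x - u (x + hp) with hv
  have hum' : Measurable (fun x : Circ => u (x + hp)) := hum.comp (measurable_add_const _)
  have hvm : Measurable v := hum.sub hum'
  have hvb : ∀ x, ‖v x‖ ≤ 2 := fun x => by
    have h1 := hu1 x; have h2 := hu1 (x + hp)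
    calc ‖v x‖ ≤ ‖u x‖ + ‖u (x + hp)‖ := norm_sub_le _ _
      _ ≤ 2 := by linarith
  have hvL : MemLp v 2 (AddCircle.haarAddCircle (T := 1)) :=
    MemLp.of_bound hvm.aestronglyMeasurable 2 (Eventually.of_forall hvb)
  set S : Finset ℤ := hfin.toFinset.image (fun i => 2 * i + 1) with hS
  have hzero : ∀ m : ℤ, m ∉ S → fourierCoeff (hvL.toLp v : Circ → ℂ) m = 0 := by
    intro m hm
    rw [fourierCoeff_congr_ae hvL.coeFn_toLp, hv, fc_half hum hu1]
    rcases Int.even_or_odd' m with ⟨n, hn | hn⟩
    · rw [hn, fourier_hp_even]; ring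
    · have : fourierCoeff u m = 0 := by
        by_contra hne
        apply hm
        rw [hS, Finset.mem_image]
        refine ⟨n, ?_, hn.symm⟩
        rw [Set.Finite.mem_toFinset]
        show fourierCoeff u (2 * n + 1) ≠ 0
        rw [← hn]; exact hne
      rw [this, mul_zero]
  set p : C(Circ, ℂ) := ∑ m ∈ S, fourierCoeff (hvL.toLp v : Circ → ℂ) m • fourier m with hp'
  have hLp : hvL.toLp v = ContinuousMap.toLp (E := ℂ) 2 (AddCircle.haarAddCircle (T := 1)) ℂ p := by
    have h1 := hasSum_fourier_series_L2 (T := 1) (hvL.toLp v)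
    have h2 : HasSum (fun m : ℤ => fourierCoeff (hvL.toLp v : Circ → ℂ) m • fourierLp (T := 1) 2 m)
        (∑ m ∈ S, fourierCoeff (hvL.toLp v : Circ → ℂ) m • fourierLp (T := 1) 2 m) :=
      hasSum_sum_of_ne_finset_zero (fun m hm => by rw [hzero m hm, zero_smul])
    rw [h1.unique h2, hp', map_sum]
    refine Finset.sum_congr rfl (fun m _ => ?_)
    rw [map_smul]
  have hae : ∀ᵐ x : Circ, v x = p x := by
    rw [vol_eq_haar]
    have h1 := hvL.coeFn_toLp
    rw [hLp] at h1
    have h2 := ContinuousMap.coeFn_toLp (p := 2) (𝕜 := ℂ) (AddCircle.haarAddCircle (T := 1)) p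
    filter_upwards [h1, h2] with x e1 e2
    rw [← e1, e2]
  -- values
  set T : Set ℂ := {-2, 0, 2} with hT
  have hTfin : T.Finite := Set.toFinite _
  have hvT : ∀ x, v x ∈ T := fun x => by
    rw [hT]
    show u x - u (x + hp) ∈ _
    rcases hu x with h | h <;> rcases hu (x + hp) with h2 | h2 <;> rw [h, h2] <;> norm_num
  have hpT : ∀ x, p x ∈ T := by
    have hopen : IsOpen {x : Circ | p x ∉ T} := by
      have : IsClosed T := hTfin.isClosed
      exact this.isOpen_compl.preimage p.continuous
    have hnull : (volume : Measure Circ) {x : Circ | p x ∉ T} = 0 := by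
      have : ∀ᵐ x : Circ, p x ∈ T := by
        filter_upwards [hae] with x hx
        rw [← hx]; exact hvT x
      exact this
    have hempty := (hopen.measure_eq_zero_iff (volume : Measure Circ)).1 hnull
    intro x
    by_contra hx
    have : x ∈ {x : Circ | p x ∉ T} := hx
    rw [hempty] at this
    exact this
  have hconst : ∀ x : Circ, p x = p 0 := by
    intro x
    have hc : Continuous (fun t : ℝ => p (t : Circ)) := p.continuous.comp (AddCircle.continuous_mk' 1)
    have := (isPreconnected_univ (α := ℝ)).constant_of_mapsTo (T := T) hTfin.isDiscrete hc.continuousOn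
      (fun t _ => hpT _) (mem_univ (fr x)) (mem_univ (0 : ℝ))
    simp only [coe_fr] at this
    simpa using this
  have hint : ∫ x : Circ, v x = 0 := by
    have hi1 : Integrable u := integrable_of_bddC hum hu1
    have hi2 : Integrable (fun x : Circ => u (x + hp)) := integrable_of_bddC hum' (fun x => hu1 _)
    rw [hv, integral_sub hi1 hi2, integral_add_right_eq_self u hp, sub_self]
  have hp0 : p 0 = 0 := by
    rw [integral_congr_ae hae] at hint
    simp_rw [hconst] at hint
    simpa [Measure.real] using hint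
  have hper : ∀ᵐ x : Circ, u (x + hp) = u x := by
    filter_upwards [hae] with x hx
    rw [hconst, hp0] at hx
    exact (sub_eq_zero.1 hx).symm
  have hlt : ∀ᵐ x : Circ, fr x < D := by
    have hs1 := ae_shift hper a
    have hs2 := ae_shift hco hp
    filter_upwards [hper, hs1, hco, hs2] with x h1 h2 h3 h4
    by_contra hge
    push Not at hge
    have e1 : x + hp + a = x + a + hp := by abel
    rw [e1, h2, h1, ← h3] at h4
    have h5 := fr_add_half hD hge
    have h6 := fr_lt_one x
    rw [NN_eq_ite _ (by linarith) hD1, NN_eq_ite _ (by linarith) hD1, if_pos (by linarith),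
      if_neg (by linarith), ex_half, zero_div, ex_zero] at h4
    norm_num at h4
  have hone : ∫ x : Circ, (if fr x < D then (1 : ℝ) else 0) = 1 := by
    have : ∀ᵐ x : Circ, (if fr x < D then (1 : ℝ) else 0) = 1 := by
      filter_upwards [hlt] with x hx
      simp [hx]
    rw [integral_congr_ae this]
    simp [Measure.real]
  rw [integral_ite_fr (by linarith) hD1] at hone
  linarith

/-- atoms in the irrational case -/
theorem infinite_atoms_irr {γ D : ℝ} (hD : 1 / 2 < D) (hD1 : D < 1) (hγD : 1 - D = 2 * γ * (2 * D - 1))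
    (c : Chain γ D) {μ : Measure ℝ}
    (hμ : ∀ (s₀ : ℝ) (u : Circ → ℂ), Measurable u → (∀ x, ‖u x‖ = 1) →
        (∀ᵐ x : Circ, ex (s₀ * rr D x) = u (x + (γ : Circ)) * conj (u x)) → ∫ x : Circ, u x ≠ 0 → μ {s₀} ≠ 0) :
    {s : ℝ | μ {s} ≠ 0}.Infinite := by
  obtain ⟨u, hum, hu, hco⟩ := c.exists_u
  have hinf := infinite_odd hD hD1 hum hu hco
  have h0 : 0 < D := by linarith
  have hk := kap_pos h0
  have hD2 : 0 < 2 * D - 1 := by linarith
  set sf : ℤ → ℝ := fun i => (i + 1 / 2) * kap D / (2 * D - 1) with hsf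
  have hinj : Function.Injective sf := by
    intro i i' h
    rw [hsf] at h
    simp only at h
    have h2 : ((i : ℝ) + 1 / 2) * kap D = (i' + 1 / 2) * kap D :=
      (div_left_inj' hD2.ne').1 h
    have h3 := mul_right_cancel₀ hk.ne' h2
    have : (i : ℝ) = i' := by linarith
    exact_mod_cast this
  refine (hinf.image hinj.injOn).mono ?_
  rintro _ ⟨i, hi, rfl⟩
  have hi' : fourierCoeff u (2 * i + 1) ≠ 0 := hi
  apply hμ (sf i) (fun x => fourier (-(2 * i + 1)) x * u x)
  · exact (fourier (-(2 * i + 1))).continuous.measurable.mul hum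
  · intro x
    rw [norm_mul, norm_fourier_apply, one_mul]
    rcases hu x with h | h <;> simp [h]
  · filter_upwards [hco] with x hx
    obtain ⟨n, hn⟩ := NN_int D x
    have e1 : sf i * rr D x = (2 * i + 1) * γ + ((i * n : ℤ) : ℝ) + NN D x / 2 := by
      have h5 : rr D x = ((1 - D) + (2 * D - 1) * NN D x) / kap D := by
        rw [rr_eq, NN_eq_ite x h0 hD1]; ring
      push_cast
      rw [← hn, h5, hsf]
      simp only
      field_simp
      rw [hγD]
      ring
    have e2 : ex ((2 * i + 1) * γ) = (fourier (-(2 * i + 1)) (γ : Circ) : ℂ) := by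
      rw [fourier_coe_apply]
      unfold ex
      congr 1
      push_cast; ring
    rw [e1, ex_add, ex_add, ex_int, mul_one, e2, hx, fourier_add_pt, map_mul]
    have e3 : (fourier (-(2 * i + 1)) x : ℂ) * conj (fourier (-(2 * i + 1)) x : ℂ) = 1 := by
      rw [Complex.mul_conj, Complex.normSq_eq_norm_sq, norm_fourier_apply]; simp
    calc (fourier (-(2 * i + 1)) (γ : Circ) : ℂ) * (u (x + (γ : Circ)) * conj (u x))
        = ((fourier (-(2 * i + 1)) x : ℂ) * conj (fourier (-(2 * i + 1)) x : ℂ)) *
          ((fourier (-(2 * i + 1)) (γ : Circ) : ℂ) * (u (x + (γ : Circ)) * conj (u x))) := by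
          rw [e3, one_mul]
      _ = _ := by ring
  · rw [← fc_eq]; exact hi'

end Pool.Agent.H382R3.KD
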