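import Mathlib
import Pool.Agent.H382R3.KD.Vee2

set_option autoImplicit false

open Filter Topology Set

namespace Pool.Agent.H382R3.KD

/-- half of the arc length as a function of the rotation number -/
noncomputable def ee (y : ℝ) : ℝ := 1 / 4 + 1 / (4 * (1 + 4 * y))

lemma ee_eq {y : ℝ} (hy : 0 < y) {j l : ℝ} (h : j * y + l = ee y) :
    8 * j * y ^ 2 + (2 * j + 8 * l - 2) * y + (2 * l - 1) = 0 := by
  unfold ee at h
  have h1 : (1 + 4 * y) ≠ 0 := by positivity
  field_simp at h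
  nlinarith

lemma ee_irr {j l : ℤ} (hj : Odd j) {γ : ℝ} (hγ : 0 < γ) (h : (j : ℝ) * γ + l = ee γ) :
    Irrational γ := by
  rintro ⟨r, rfl⟩
  have h1 := ee_eq hγ h
  set P : ℤ := r.num with hP
  set Q : ℤ := (r.den : ℤ) with hQ
  have hQ0 : (Q : ℝ) ≠ 0 := by rw [hQ]; exact_mod_cast r.den_ne_zero
  have hr : (r : ℝ) = P / Q := by
    rw [hP, hQ]; push_cast; exact (Rat.cast_def r)
  rw [hr] at h1
  have h2 : (8 * (j : ℝ) * P ^ 2 + (2 * j + 8 * l - 2) * P * Q + (2 * l - 1) * Q ^ 2) = 0 := by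
    field_simp at h1
    linarith
  have h3 : 8 * j * P ^ 2 + (2 * j + 8 * l - 2) * P * Q + (2 * l - 1) * Q ^ 2 = 0 := by exact_mod_cast h2
  -- Q even
  have hQe : Even Q := by
    have h4 : Even ((2 * l - 1) * Q ^ 2) := ⟨-(4 * j * P ^ 2 + (j + 4 * l - 1) * P * Q), by linarith⟩
    rcases Int.even_mul.1 h4 with h5 | h5
    · exfalso
      rcases h5 with ⟨t, ht⟩; omega
    · exact (Int.even_pow.1 h5).1
  obtain ⟨R, hR⟩ := hQe
  have h4 : 2 * j * P ^ 2 + (j + 4 * l - 1) * P * R + (2 * l - 1) * R ^ 2 = 0 := by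
    have : 4 * (2 * j * P ^ 2 + (j + 4 * l - 1) * P * R + (2 * l - 1) * R ^ 2) = 0 := by
      rw [hR] at h3; linarith
    linarith
  obtain ⟨j', hj'⟩ := hj
  have hRe : Even R := by
    have h5 : Even ((2 * l - 1) * R ^ 2) := ⟨-(j * P ^ 2 + (j' + 2 * l) * P * R), by
      rw [hj'] at h4 ⊢; linarith⟩
    rcases Int.even_mul.1 h5 with h6 | h6
    · exfalso
      rcases h6 with ⟨t, ht⟩; omega
    · exact (Int.even_pow.1 h6).1
  obtain ⟨S, hS⟩ := hRe
  have h5 : j * P ^ 2 + 2 * (j' + 2 * l) * P * S + 2 * (2 * l - 1) * S ^ 2 = 0 := by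
    have : 2 * (j * P ^ 2 + 2 * (j' + 2 * l) * P * S + 2 * (2 * l - 1) * S ^ 2) = 0 := by
      rw [hS, hj'] at h4; rw [hj']; linarith
    linarith
  have hPe : Even P := by
    have h6 : Even (j * P ^ 2) := ⟨-((j' + 2 * l) * P * S + (2 * l - 1) * S ^ 2), by linarith⟩
    rcases Int.even_mul.1 h6 with h7 | h7
    · exfalso
      rcases h7 with ⟨t, ht⟩; omega
    · exact (Int.even_pow.1 h7).1
  have hcop := r.reduced
  have hd1 : 2 ∣ r.num.natAbs := by
    have : (2 : ℤ) ∣ P := hPe.two_dvd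
    omega
  have hd2 : 2 ∣ r.den := by
    have : (2 : ℤ) ∣ Q := ⟨R, by omega⟩
    omega
  have := Nat.dvd_gcd hd1 hd2
  rw [hcop] at this
  omega

lemma dirichlet_even {γ : ℝ} (hγ : Irrational γ) (B : ℝ) :
    ∃ q p : ℤ, B ≤ q ∧ 0 < q ∧ Even q ∧ |(q : ℝ) * γ - p| ≤ 4 / q := by
  obtain ⟨N0, hN0⟩ := exists_nat_ge B
  have hev : ∀ᶠ n : ℕ in atTop, ∀ k ∈ Finset.Icc 1 N0,
      1 / ((n : ℝ) + 1) < |(k : ℝ) * γ - round ((k : ℝ) * γ)| := by
    rw [Filter.eventually_all_finset]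
    intro k hk
    rw [Finset.mem_Icc] at hk
    have hpos : 0 < |(k : ℝ) * γ - round ((k : ℝ) * γ)| := by
      rw [abs_pos]
      intro h0
      apply hγ
      have hk0 : (k : ℝ) ≠ 0 := by
        have : 0 < k := hk.1
        positivity
      refine ⟨(round ((k : ℝ) * γ) : ℚ) / k, ?_⟩
      push_cast
      rw [div_eq_iff hk0]
      linarith
    exact (tendsto_one_div_add_atTop_nhds_zero_nat).eventually_lt_const hpos
  obtain ⟨n, hn, hn1⟩ := (hev.and (eventually_ge_atTop 1)).exists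
  obtain ⟨J, k, hk0, hkn, hJ⟩ := Real.exists_int_int_abs_mul_sub_le γ (n := n) hn1
  have hkN : (N0 : ℤ) < k := by
    by_contra hle
    push Not at hle
    obtain ⟨m, rfl⟩ := Int.eq_ofNat_of_zero_le hk0.le
    have hm : m ∈ Finset.Icc 1 N0 := by
      rw [Finset.mem_Icc]
      constructor <;> omega
    have h1 := hn m hm
    have h2 := round_le ((m : ℝ) * γ) J
    simp only [Int.ofNat_eq_natCast, Int.cast_natCast] at hJ
    linarith
  refine ⟨2 * k, 2 * J, ?_, by omega, ⟨k, by ring⟩, ?_⟩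
  · have : (N0 : ℝ) < k := by exact_mod_cast hkN
    have hk0' : (0 : ℝ) < k := by exact_mod_cast hk0
    push_cast
    linarith
  · push_cast
    have hk0' : (0 : ℝ) < k := by exact_mod_cast hk0
    have e1 : 2 * (k : ℝ) * γ - 2 * J = 2 * (k * γ - J) := by ring
    rw [e1, abs_mul, abs_of_pos (by norm_num : (0:ℝ) < 2)]
    have h3 : 1 / ((n : ℝ) + 1) ≤ 1 / k := by
      apply one_div_le_one_div_of_le hk0'
      have : (k : ℝ) ≤ n := by exact_mod_cast hkn
      linarith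
    calc 2 * |(k : ℝ) * γ - J| ≤ 2 * (1 / k) := by linarith
      _ = 4 / (2 * k) := by field_simp; norm_num

lemma ee_lip {y z : ℝ} (hy : 0 < y) (hz : 0 < z) : |ee y - ee z| ≤ |y - z| := by
  unfold ee
  have h1 : (1 / 4 + 1 / (4 * (1 + 4 * y)) - (1 / 4 + 1 / (4 * (1 + 4 * z)))) =
      (z - y) / ((1 + 4 * y) * (1 + 4 * z)) := by
    field_simp
    ring
  rw [h1, abs_div, abs_sub_comm z y]
  apply div_le_self (abs_nonneg _)
  rw [abs_of_pos (by positivity)]
  nlinarith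

lemma ee_anti {y z : ℝ} (hy : 0 < y) (hyz : y ≤ z) : ee z ≤ ee y := by
  unfold ee
  have : 1 / (4 * (1 + 4 * z)) ≤ 1 / (4 * (1 + 4 * y)) := by
    apply one_div_le_one_div_of_le (by positivity)
    linarith
  linarith

lemma continuousOn_ee {r s : ℝ} (hr : 0 < r) : ContinuousOn ee (Icc r s) := by
  unfold ee
  apply ContinuousOn.add continuousOn_const
  apply ContinuousOn.div continuousOn_const (by fun_prop)
  intro x hx
  have : 0 < x := lt_of_lt_of_le hr hx.1
  positivity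

/-- states of the construction -/
structure St where
  γ : ℝ
  j : ℤ
  l : ℤ
  hlo : 1 / 4 < γ
  hhi : γ < 1 / 2
  hj0 : 0 < j
  hodd : Odd j
  heq : (j : ℝ) * γ + l = ee γ

lemma step_exists (s : St) (B : ℝ) : ∃ s' : St, B ≤ ((s'.j - s.j : ℤ) : ℝ) ∧ 0 < s'.j - s.j ∧
    |s'.γ - s.γ| ≤ 4 / ((s'.j - s.j : ℤ) : ℝ) ^ 2 := by
  have hirr := ee_irr s.hodd (by linarith [s.hlo]) s.heq
  set m := min (s.γ - 1 / 4) (1 / 2 - s.γ) with hm
  have hmpos : 0 < m := lt_min (by linarith [s.hlo]) (by linarith [s.hhi])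
  obtain ⟨q, p, hqB, hq0, hqe, hqp⟩ := dirichlet_even hirr (max B (max 1 (5 / m)))
  have hqR : (0 : ℝ) < q := by exact_mod_cast hq0
  have hq1 : (1 : ℝ) ≤ q := (le_max_left _ _).trans ((le_max_right _ _).trans hqB)
  have hqm : 5 / m ≤ q := (le_max_right _ _).trans ((le_max_right _ _).trans hqB)
  set r := 4 / (q : ℝ) ^ 2 with hr
  have hrpos : 0 < r := by positivity
  have hrm : r < m := by
    rw [div_le_iff₀ hmpos] at hqm
    rw [hr, div_lt_iff₀ (by positivity)]
    nlinarith [mul_pos hqR hmpos]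
  have hr1 : r < s.γ - 1 / 4 := lt_of_lt_of_le hrm (min_le_left _ _)
  have hr2 : r < 1 / 2 - s.γ := lt_of_lt_of_le hrm (min_le_right _ _)
  set h : ℝ → ℝ := fun y => ((s.j + q : ℤ) : ℝ) * y + ((s.l - p : ℤ) : ℝ) - ee y with hh
  have hv : h s.γ = q * s.γ - p := by
    rw [hh]; simp only; push_cast; linarith [s.heq]
  have hjR : (0 : ℝ) < s.j := by exact_mod_cast s.hj0
  have hqr : |(q : ℝ) * s.γ - p| ≤ q * r := by
    refine hqp.trans (le_of_eq ?_)
    rw [hr]; field_simp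
  have hup : 0 ≤ h (s.γ + r) := by
    have e1 := ee_anti (y := s.γ) (z := s.γ + r) (by linarith [s.hlo]) (by linarith)
    have e2 : h (s.γ + r) = h s.γ + ((s.j + q : ℤ) : ℝ) * r + (ee s.γ - ee (s.γ + r)) := by
      rw [hh]; ring
    rw [e2, hv]
    push_cast
    have := neg_abs_le ((q : ℝ) * s.γ - p)
    nlinarith [mul_pos hjR hrpos]
  have hdn : h (s.γ - r) ≤ 0 := by
    have e1 := ee_anti (y := s.γ - r) (z := s.γ) (by linarith [s.hlo]) (by linarith)
    have e2 : h (s.γ - r) = h s.γ - ((s.j + q : ℤ) : ℝ) * r + (ee s.γ - ee (s.γ - r)) := by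
      rw [hh]; ring
    rw [e2, hv]
    push_cast
    have := le_abs_self ((q : ℝ) * s.γ - p)
    nlinarith [mul_pos hjR hrpos]
  have hcont : ContinuousOn h (Icc (s.γ - r) (s.γ + r)) := by
    rw [hh]
    exact ContinuousOn.sub (by fun_prop) (continuousOn_ee (by linarith [s.hlo]))
  obtain ⟨g, hg, hg0⟩ := intermediate_value_Icc (by linarith) hcont ⟨hdn, hup⟩
  have hgr : |g - s.γ| ≤ r := by
    rw [abs_le]; constructor <;> linarith [hg.1, hg.2]
  refine ⟨⟨g, s.j + q, s.l - p, by linarith [hg.1], by linarith [hg.2], by linarith [s.hj0],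
    s.hodd.add_even hqe, ?_⟩, ?_, ?_, ?_⟩
  · have : h g = 0 := hg0
    rw [hh] at this
    simp only at this
    linarith
  · simp only [add_sub_cancel_left]
    exact (le_max_left _ _).trans hqB
  · simp only [add_sub_cancel_left]; exact hq0
  · simp only [add_sub_cancel_left]; exact hgr

lemma start_exists : ∃ s : St, s.j = 1 ∧ s.l = 0 := by
  set h : ℝ → ℝ := fun y => y - ee y with hh
  have hcont : ContinuousOn h (Icc (26 / 100) (49 / 100)) := by
    rw [hh]
    exact continuousOn_id.sub (continuousOn_ee (by norm_num))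
  have h1 : h (26 / 100) ≤ 0 := by rw [hh]; simp only [ee]; norm_num
  have h2 : 0 ≤ h (49 / 100) := by rw [hh]; simp only [ee]; norm_num
  obtain ⟨g, hg, hg0⟩ := intermediate_value_Icc (by norm_num) hcont ⟨h1, h2⟩
  refine ⟨⟨g, 1, 0, by linarith [hg.1], by linarith [hg.2], by norm_num, odd_one, ?_⟩, rfl, rfl⟩
  have : g - ee g = 0 := hg0
  push_cast
  linarith

/-- the sequence of states -/
noncomputable def sq : ℕ → St
  | 0 => start_exists.choose
  | k + 1 => (step_exists (sq k) (8 * 2 ^ k * ((sq k).j + 1))).choose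

lemma sq_zero : (sq 0).j = 1 ∧ (sq 0).l = 0 := start_exists.choose_spec

/-- increments -/
noncomputable def qq (k : ℕ) : ℝ := (((sq (k + 1)).j - (sq k).j : ℤ) : ℝ)

lemma sq_spec (k : ℕ) : 8 * 2 ^ k * ((sq k).j + 1) ≤ qq k ∧ 0 < (sq (k + 1)).j - (sq k).j ∧
    |(sq (k + 1)).γ - (sq k).γ| ≤ 4 / qq k ^ 2 :=
  (step_exists (sq k) (8 * 2 ^ k * ((sq k).j + 1))).choose_spec

lemma jpos (k : ℕ) : (0 : ℝ) < (sq k).j := by exact_mod_cast (sq k).hj0

lemma jge (k : ℕ) : (1 : ℝ) ≤ (sq k).j := by exact_mod_cast (sq k).hj0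

lemma qq_pos (k : ℕ) : 0 < qq k := by
  have := (sq_spec k).2.1
  unfold qq
  exact_mod_cast this

lemma qq_ge (k : ℕ) : 16 * 2 ^ k ≤ qq k := by
  have h1 := (sq_spec k).1
  have h2 := jge k
  have h3 : (0 : ℝ) < 2 ^ k := by positivity
  nlinarith

lemma qq_succ (k : ℕ) : 2 * qq k ≤ qq (k + 1) := by
  have h1 := (sq_spec (k + 1)).1
  have h2 : qq k ≤ (sq (k + 1)).j := by
    unfold qq; push_cast; linarith [jpos k]
  have h3 : (1 : ℝ) ≤ 2 ^ (k + 1) := one_le_pow₀ (by norm_num)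
  have h4 := jpos (k + 1)
  have h5 := qq_pos k
  nlinarith

/-- radii -/
noncomputable def cr (k : ℕ) : ℝ := 8 / qq k ^ 2

lemma cr_pos (k : ℕ) : 0 < cr k := by
  have := qq_pos k
  unfold cr; positivity

lemma cr_succ (k : ℕ) : 4 / qq k ^ 2 + cr (k + 1) ≤ cr k := by
  have h1 := qq_pos k
  have h2 := qq_succ k
  have h3 : cr (k + 1) ≤ 2 / qq k ^ 2 := by
    unfold cr
    rw [div_le_div_iff₀ (by have := qq_pos (k + 1); positivity) (by positivity)]
    nlinarith
  have h4 : cr k = 8 / qq k ^ 2 := rfl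
  rw [h4]
  have h5 : 4 / qq k ^ 2 + 2 / qq k ^ 2 ≤ 8 / qq k ^ 2 := by
    rw [← add_div]
    gcongr
    norm_num
  linarith

lemma nested (k m : ℕ) : |(sq (k + m)).γ - (sq k).γ| + cr (k + m) ≤ cr k := by
  induction m with
  | zero => simp
  | succ m ih =>
    have h1 := (sq_spec (k + m)).2.2
    have h2 := cr_succ (k + m)
    have h3 : |(sq (k + (m + 1))).γ - (sq k).γ| ≤
        |(sq (k + m + 1)).γ - (sq (k + m)).γ| + |(sq (k + m)).γ - (sq k).γ| := by
      rw [← add_assoc]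
      have := abs_add_le ((sq (k + m + 1)).γ - (sq (k + m)).γ) ((sq (k + m)).γ - (sq k).γ)
      rwa [sub_add_sub_cancel] at this
    rw [← add_assoc] at h3 ⊢
    linarith

lemma cr_le (k : ℕ) : cr k ≤ (1 / 2) ^ k := by
  have h1 := qq_ge k
  have h2 := qq_pos k
  have h3 : (1 : ℝ) ≤ 2 ^ k := one_le_pow₀ (by norm_num)
  unfold cr
  rw [div_le_iff₀ (by positivity)]
  have h4 : (16 * 2 ^ k) ^ 2 ≤ qq k ^ 2 := pow_le_pow_left₀ (by positivity) h1 2
  have h5 : ((1 : ℝ) / 2) ^ k * (16 * 2 ^ k) ^ 2 = 256 * 2 ^ k := by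
    rw [one_div, inv_pow]
    field_simp
    ring
  have h6 : (0 : ℝ) ≤ (1 / 2) ^ k := by positivity
  nlinarith [mul_le_mul_of_nonneg_left h4 h6]

lemma cr_tendsto : Tendsto cr atTop (𝓝 0) := by
  refine squeeze_zero (fun k => (cr_pos k).le) cr_le ?_
  exact tendsto_pow_atTop_nhds_zero_of_lt_one (by norm_num) (by norm_num)

lemma exists_lim : ∃ γ : ℝ, ∀ k, |γ - (sq k).γ| ≤ cr k := by
  have hc : CauchySeq (fun k => (sq k).γ) := by
    apply cauchySeq_of_le_tendsto_0 (fun k => 2 * cr k)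
    · intro n m N hn hm
      obtain ⟨n', rfl⟩ := Nat.exists_eq_add_of_le hn
      obtain ⟨m', rfl⟩ := Nat.exists_eq_add_of_le hm
      have h1 := nested N n'
      have h2 := nested N m'
      have h3 := cr_pos (N + n')
      have h4 := cr_pos (N + m')
      rw [Real.dist_eq]
      have h5 : |(sq (N + n')).γ - (sq (N + m')).γ| ≤
          |(sq (N + n')).γ - (sq N).γ| + |(sq (N + m')).γ - (sq N).γ| := by
        have := abs_sub ((sq (N + n')).γ - (sq N).γ) ((sq (N + m')).γ - (sq N).γ)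
        rwa [sub_sub_sub_cancel_right] at this
      linarith
    · have := cr_tendsto.const_mul 2
      simpa using this
  obtain ⟨γ, hγ⟩ := cauchySeq_tendsto_of_complete hc
  refine ⟨γ, fun k => ?_⟩
  have h1 : Tendsto (fun m => |(sq (k + m)).γ - (sq k).γ|) atTop (𝓝 |γ - (sq k).γ|) := by
    have : Tendsto (fun m => (sq (k + m)).γ) atTop (𝓝 γ) := by
      have := (tendsto_add_atTop_iff_nat k).2 hγ
      simpa [add_comm] using this
    exact (this.sub tendsto_const_nhds).abs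
  refine le_of_tendsto h1 (Eventually.of_forall (fun m => ?_))
  have := nested k m
  have := cr_pos (k + m)
  linarith

end Pool.Agent.H382R3.KD
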