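import Mathlib
import Pool.Agent.H382R3.KD.Num

set_option autoImplicit false

open Filter Topology Set

namespace Pool.Agent.H382R3.KD

/-- the rotation number -/
noncomputable def gam : ℝ := exists_lim.choose

lemma gam_spec (k : ℕ) : |gam - (sq k).γ| ≤ cr k := exists_lim.choose_spec k

lemma gam_tendsto : Tendsto (fun k => (sq k).γ) atTop (𝓝 gam) := by
  rw [tendsto_iff_dist_tendsto_zero]
  refine squeeze_zero (fun k => dist_nonneg) (fun k => ?_) cr_tendsto
  rw [Real.dist_eq, abs_sub_comm]; exact gam_spec k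

lemma gam_lo : 1 / 4 ≤ gam := ge_of_tendsto' gam_tendsto (fun k => (sq k).hlo.le)
lemma gam_hi : gam ≤ 1 / 2 := le_of_tendsto' gam_tendsto (fun k => (sq k).hhi.le)

/-- approximants of `D/2` -/
noncomputable def Ek (k : ℕ) : ℝ := (sq k).j * gam + (sq k).l

lemma eps_bound (k : ℕ) : |ee gam - Ek k| ≤ (1 / 2) ^ k / qq k := by
  have h1 := gam_spec k
  have h2 := (sq k).heq
  have h3 := ee_lip (y := gam) (z := (sq k).γ) (by linarith [gam_lo]) (by linarith [(sq k).hlo])
  have hq := qq_pos k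
  have hj := jpos k
  have e1 : ee gam - Ek k = (ee gam - ee (sq k).γ) - (sq k).j * (gam - (sq k).γ) := by
    unfold Ek; rw [← h2]; ring
  have e2 : |ee gam - Ek k| ≤ ((sq k).j + 1) * cr k := by
    rw [e1]
    refine (abs_sub _ _).trans ?_
    rw [abs_mul, abs_of_pos hj]
    nlinarith
  refine e2.trans ?_
  unfold cr
  have h4 := (sq_spec k).1
  rw [mul_div_assoc', div_le_div_iff₀ (by positivity) hq]
  have h5 : (0 : ℝ) < 2 ^ k := by positivity
  have h6 : ((1 : ℝ) / 2) ^ k * 2 ^ k = 1 := by rw [← mul_pow]; norm_num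
  have h7 : (0 : ℝ) < (1 / 2) ^ k := by positivity
  have h8 : 8 * (((sq k).j : ℝ) + 1) ≤ (1 / 2) ^ k * qq k := by
    have := mul_le_mul_of_nonneg_left h4 h7.le
    calc 8 * (((sq k).j : ℝ) + 1) = ((1 / 2) ^ k * 2 ^ k) * (8 * (((sq k).j : ℝ) + 1)) := by rw [h6, one_mul]
      _ = (1 / 2) ^ k * (8 * 2 ^ k * ((sq k).j + 1)) := by ring
      _ ≤ _ := this
  calc (((sq k).j : ℝ) + 1) * 8 * qq k = (8 * (((sq k).j : ℝ) + 1)) * qq k := by ring
    _ ≤ ((1 / 2) ^ k * qq k) * qq k := mul_le_mul_of_nonneg_right h8 hq.le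
    _ = _ := by ring

lemma delta_bound (k : ℕ) : |Ek (k + 1) - Ek k| ≤ 2 * (1 / 2) ^ k / qq k := by
  have h1 := eps_bound k
  have h2 := eps_bound (k + 1)
  have hq := qq_pos k
  have h3 := qq_succ k
  have h4 : ((1 : ℝ) / 2) ^ (k + 1) / qq (k + 1) ≤ (1 / 2) ^ k / qq k := by
    apply div_le_div₀ (by positivity) _ hq (by linarith)
    rw [pow_succ]
    have : (0 : ℝ) < (1 / 2) ^ k := by positivity
    linarith
  have h5 : |Ek (k + 1) - Ek k| ≤ |ee gam - Ek k| + |ee gam - Ek (k + 1)| := by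
    have := abs_sub (ee gam - Ek k) (ee gam - Ek (k + 1))
    rwa [sub_sub_sub_cancel_left] at this
  calc |Ek (k + 1) - Ek k| ≤ (1 / 2) ^ k / qq k + (1 / 2) ^ k / qq k := by linarith
    _ = _ := by ring

lemma pow_half_tendsto : Tendsto (fun k : ℕ => ((1 : ℝ) / 2) ^ k) atTop (𝓝 0) :=
  tendsto_pow_atTop_nhds_zero_of_lt_one (by norm_num) (by norm_num)

lemma qq_one (k : ℕ) : 1 ≤ qq k := by
  have h1 := qq_ge k
  have h2 : (1 : ℝ) ≤ 2 ^ k := one_le_pow₀ (by norm_num)
  linarith

lemma Ek_tendsto : Tendsto Ek atTop (𝓝 (ee gam)) := by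
  rw [tendsto_iff_dist_tendsto_zero]
  refine squeeze_zero (fun k => dist_nonneg) (fun k => ?_) pow_half_tendsto
  rw [Real.dist_eq, abs_sub_comm]
  refine (eps_bound k).trans ?_
  exact div_le_self (by positivity) (qq_one k)

lemma Ek_diff (k : ℕ) : Ek (k + 1) - Ek k =
    qq k * gam - (((sq k).l - (sq (k + 1)).l : ℤ) : ℝ) := by
  unfold Ek qq; push_cast; ring

lemma gam_irr : Irrational gam := by
  by_contra hrat
  have hrat' : gam ∈ Set.range ((↑) : ℚ → ℝ) := by
    by_contra h; exact hrat h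
  obtain ⟨r, hr⟩ := hrat'
  have hQ0 : (0 : ℝ) < r.den := by exact_mod_cast r.den_pos
  have hr2 : (r.den : ℝ) * gam = r.num := by
    rw [← hr]
    have := Rat.cast_def (K := ℝ) r
    rw [this]; field_simp
  -- differences vanish eventually
  have hlim : Tendsto (fun k : ℕ => (r.den : ℝ) * (2 * (1 / 2) ^ k)) atTop (𝓝 0) := by
    have := (pow_half_tendsto.const_mul 2).const_mul (r.den : ℝ)
    simpa using this
  obtain ⟨K, hK⟩ := eventually_atTop.1 (hlim.eventually_lt_const one_pos)
  have hz : ∀ k, K ≤ k → Ek (k + 1) = Ek k := by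
    intro k hk
    have h1 := delta_bound k
    have h2 : |(r.den : ℝ) * (Ek (k + 1) - Ek k)| < 1 := by
      rw [abs_mul, abs_of_pos hQ0]
      refine lt_of_le_of_lt ?_ (hK k hk)
      apply mul_le_mul_of_nonneg_left _ hQ0.le
      exact h1.trans (div_le_self (by positivity) (qq_one k))
    have h3 : (r.den : ℝ) * (Ek (k + 1) - Ek k) =
        ((((sq (k + 1)).j - (sq k).j) * r.num - r.den * ((sq k).l - (sq (k + 1)).l) : ℤ) : ℝ) := by
      rw [Ek_diff, mul_sub, mul_left_comm, hr2]
      unfold qq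
      push_cast; ring
    rw [h3] at h2
    have h4 : |((sq (k + 1)).j - (sq k).j) * r.num - r.den * ((sq k).l - (sq (k + 1)).l)| < 1 := by
      exact_mod_cast h2
    have h5 : ((sq (k + 1)).j - (sq k).j) * r.num - r.den * ((sq k).l - (sq (k + 1)).l) = 0 := by
      rw [abs_lt] at h4; omega
    rw [h5, Int.cast_zero] at h3
    rcases mul_eq_zero.1 h3 with h | h
    · exact absurd h hQ0.ne'
    · linarith
  have hconst : ∀ k, K ≤ k → Ek k = Ek K := by
    intro k hk
    induction k, hk using Nat.le_induction with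
    | base => rfl
    | succ k hk ih => rw [hz k hk, ih]
  have hE : ee gam = Ek K := by
    apply tendsto_nhds_unique Ek_tendsto
    apply tendsto_const_nhds.congr'
    filter_upwards [eventually_ge_atTop K] with k hk
    exact (hconst k hk).symm
  have := ee_irr (sq K).hodd (γ := gam) (by linarith [gam_lo]) (by rw [hE]; rfl)
  exact hrat this

/-- the arc length -/
noncomputable def DD : ℝ := 2 * ee gam

lemma DD_eq : DD = 1 / 2 + 1 / (2 * (1 + 4 * gam)) := by
  unfold DD ee
  have : (1 + 4 * gam) ≠ 0 := by have := gam_lo; positivity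
  field_simp
  ring

lemma gam_pos : 0 < gam := by linarith [gam_lo]

lemma DD_lo : 1 / 2 < DD := by
  rw [DD_eq]
  have : 0 < 1 / (2 * (1 + 4 * gam)) := by have := gam_pos; positivity
  linarith

lemma DD_hi : DD < 1 := by
  rw [DD_eq]
  have : 1 / (2 * (1 + 4 * gam)) ≤ 1 / 4 := by
    apply one_div_le_one_div_of_le (by norm_num)
    linarith [gam_lo]
  linarith

lemma DD_rel : 1 - DD = 2 * gam * (2 * DD - 1) := by
  rw [DD_eq]
  have : (1 + 4 * gam) ≠ 0 := by have := gam_pos; positivity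
  field_simp
  ring

lemma DD_irr : Irrational DD := by
  rintro ⟨r, hr⟩
  apply gam_irr
  have h1 := DD_rel
  have h2 := DD_lo
  rw [← hr] at h1 h2
  have h3 : (2 * (r : ℝ) - 1) ≠ 0 := by
    have : 0 < 2 * (r : ℝ) - 1 := by linarith
    exact this.ne'
  refine ⟨(1 - r) / (2 * (2 * r - 1)), ?_⟩
  push_cast
  rw [h1]
  field_simp

open Polynomial in
lemma not_comb (n J L : ℤ) (hn : 0 < n) (h : (n : ℝ) * DD = J * gam + L) : False := by
  have hg := gam_pos
  have hquad : 4 * (J : ℝ) * gam ^ 2 + (J + 4 * L - 2 * n) * gam + (L - n) = 0 := by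
    have h1 := DD_eq
    have h2 : (1 + 4 * gam) ≠ 0 := by positivity
    have h3 : 2 * (1 + 4 * gam) * (n * DD) = n * (1 + 4 * gam) + n := by
      rw [h1]; field_simp
    rw [h] at h3
    nlinarith
  set f : ℤ[X] := C (4 * J) * X ^ 2 + C (J + 4 * L - 2 * n) * X + C (L - n) with hf
  have f0 : f ≠ 0 := by
    intro h0
    have c2 : f.coeff 2 = 4 * J := by
      rw [hf]; simp only [coeff_add, coeff_C_mul, coeff_X_pow, coeff_X, coeff_C]; norm_num
    have c1 : f.coeff 1 = J + 4 * L - 2 * n := by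
      rw [hf]; simp only [coeff_add, coeff_C_mul, coeff_X_pow, coeff_X, coeff_C]; norm_num
    have c0 : f.coeff 0 = L - n := by
      rw [hf]; simp only [coeff_add, coeff_C_mul, coeff_X_pow, coeff_X, coeff_C]; norm_num
    rw [h0, coeff_zero] at c0 c1 c2
    omega
  have hdeg : f.natDegree ≤ 2 := by
    rw [hf]; compute_degree
  have fa : eval gam (map (algebraMap ℤ ℝ) f) = 0 := by
    rw [hf]
    simp only [Polynomial.map_add, Polynomial.map_mul, Polynomial.map_pow, map_X, map_C, eval_add, eval_mul,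
      eval_pow, eval_X, eval_C, algebraMap_int_eq, Int.coe_castRingHom]
    push_cast
    linarith
  obtain ⟨A, hA0, hA⟩ := Liouville.exists_pos_real_of_irrational_root gam_irr f0 fa
  have hlim : Tendsto (fun k : ℕ => A * (2 * (1 / 2) ^ k)) atTop (𝓝 0) := by
    have := (pow_half_tendsto.const_mul 2).const_mul A
    simpa using this
  obtain ⟨k, hk⟩ := (hlim.eventually_lt_const one_pos).exists
  have hq := qq_pos k
  have hq1 := qq_one k
  have hqn : ((((sq (k + 1)).j - (sq k).j - 1).toNat : ℕ) : ℝ) + 1 = qq k := by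
    have h1 := (sq_spec k).2.1
    have h2 : ((((sq (k + 1)).j - (sq k).j - 1).toNat : ℕ) : ℤ) + 1 = (sq (k + 1)).j - (sq k).j := by omega
    unfold qq
    exact_mod_cast congrArg (Int.cast : ℤ → ℝ) h2
  have h3 := hA ((sq k).l - (sq (k + 1)).l) (((sq (k + 1)).j - (sq k).j - 1).toNat)
  rw [hqn] at h3
  have h4 : |gam - (((sq k).l - (sq (k + 1)).l : ℤ) : ℝ) / qq k| = |Ek (k + 1) - Ek k| / qq k := by
    rw [Ek_diff, ← abs_of_pos hq, ← abs_div, abs_of_pos hq]
    congr 1
    field_simp
  have h5 : |gam - (((sq k).l - (sq (k + 1)).l : ℤ) : ℝ) / qq k| ≤ 2 * (1 / 2) ^ k / qq k ^ 2 := by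
    rw [h4, div_le_div_iff₀ hq (by positivity)]
    have := delta_bound k
    rw [le_div_iff₀ hq] at this
    nlinarith
  have h6 : qq k ^ f.natDegree ≤ qq k ^ 2 := pow_le_pow_right₀ hq1 hdeg
  have h7 : (1 : ℝ) ≤ A * (2 * (1 / 2) ^ k) := by
    calc (1 : ℝ) ≤ qq k ^ f.natDegree * (|gam - (((sq k).l - (sq (k + 1)).l : ℤ) : ℝ) / qq k| * A) := h3
      _ ≤ qq k ^ 2 * ((2 * (1 / 2) ^ k / qq k ^ 2) * A) := by gcongr
      _ = A * (2 * (1 / 2) ^ k) := by field_simp
  linarith

lemma not_kesten : ¬ Kesten DD gam := by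
  rintro ⟨J, L, h⟩
  exact not_comb 1 J L one_pos (by push_cast; linarith)

/-- `1, γ, D` are linearly independent over the rationals -/
lemma indep (r s : ℚ) : DD ≠ r * gam + s := by
  intro h
  have hr : (r.den : ℝ) * r = r.num := by
    have := Rat.cast_def (K := ℝ) r
    have h0 : (r.den : ℝ) ≠ 0 := by exact_mod_cast r.den_ne_zero
    rw [this]; field_simp
  have hs : (s.den : ℝ) * s = s.num := by
    have := Rat.cast_def (K := ℝ) s
    have h0 : (s.den : ℝ) ≠ 0 := by exact_mod_cast s.den_ne_zero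
    rw [this]; field_simp
  refine not_comb (r.den * s.den) (r.num * s.den) (s.num * r.den) ?_ ?_
  · have := r.den_pos
    have := s.den_pos
    positivity
  · rw [h]
    push_cast
    rw [← hr, ← hs]
    ring

lemma cnt_eq (k : ℤ) : (cnt k : ℝ) = |(k : ℝ)| := by
  unfold cnt
  rw [Int.card_Ico, Int.card_Ico]
  have : (((k - 0).toNat + (0 - k).toNat : ℕ) : ℤ) = |k| := by
    rcases le_total 0 k with h | h
    · rw [abs_of_nonneg h]; push_cast; omega
    · rw [abs_of_nonpos h]; push_cast; omega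
  have := congrArg (Int.cast : ℤ → ℝ) this
  push_cast at this ⊢
  exact this

/-- the chain -/
noncomputable def theChain : Chain gam DD where
  E := fun k => match k with
    | 0 => 0
    | k + 1 => Ek k
  j := fun k => match k with
    | 0 => 0
    | k + 1 => (sq k).j
  l := fun k => match k with
    | 0 => 0
    | k + 1 => (sq k).l
  hE := fun k => by
    cases k with
    | zero => simp
    | succ k => rfl
  hE0 := rfl
  hlim := by
    have h : DD / 2 = ee gam := by unfold DD; ring
    rw [h, ← tendsto_add_atTop_iff_nat 1]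
    exact Ek_tendsto
  hlt := fun k => by
    cases k with
    | zero =>
      show |Ek 0 - 0| < 1
      unfold Ek
      rw [sq_zero.1, sq_zero.2]
      push_cast
      rw [sub_zero, one_mul, add_zero, abs_of_pos gam_pos]
      linarith [gam_hi]
    | succ k =>
      show |Ek (k + 1) - Ek k| < 1
      refine lt_of_le_of_lt (delta_bound k) ?_
      rw [div_lt_one (qq_pos k)]
      have h1 := qq_ge k
      have h2 : (1 : ℝ) ≤ 2 ^ k := one_le_pow₀ (by norm_num)
      have h3 : ((1 : ℝ) / 2) ^ k ≤ 1 := pow_le_one₀ (by norm_num) (by norm_num)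
      linarith
  hsum := by
    rw [← summable_nat_add_iff 1]
    have hb : ∀ k : ℕ, (cnt (-((sq (k + 1)).j - (sq k).j)) : ℝ) * |Ek (k + 1) - Ek k| ≤ 2 * (1 / 2) ^ k := by
      intro k
      rw [cnt_eq]
      have e : |((-((sq (k + 1)).j - (sq k).j) : ℤ) : ℝ)| = qq k := by
        rw [Int.cast_neg, abs_neg]
        exact abs_of_pos (qq_pos k)
      rw [e]
      have := delta_bound k
      rw [le_div_iff₀ (qq_pos k)] at this
      linarith
    refine Summable.of_nonneg_of_le (fun k => by positivity) hb ?_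
    exact (summable_geometric_of_lt_one (by norm_num) (by norm_num)).mul_left 2

end Pool.Agent.H382R3.KD
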