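import Mathlib
import Pool.Agent.H382R3.KD.Fin1
import Pool.Agent.H382R3.KD.Num2

set_option autoImplicit false

open MeasureTheory Filter Topology Set
open scoped FourierTransform SchwartzMap ComplexConjugate Real

namespace Pool.Agent.H382R3.KD

/-- the counterexample to necessity -/
theorem counterexample (x₀ : ℝ) {p : ℤ → ℤ × ℤ} (hp : IsStaircase DD gam x₀ p) :
    DiffractionCondition (proj DD '' range p) := by
  have h0 : 0 < DD := by linarith [DD_lo]
  have h1 := DD_hi
  rw [image_eq hp]
  have hau := isAutocorr h0 h1 (addOrderOf_irr gam_irr) (x₀ : Circ)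
  obtain ⟨μ, hft, hμ⟩ := exists_diffraction h0 h1 (gam : Circ)
  exact ⟨eta DD gam, μ, hau, hft, infinite_atoms_irr DD_lo h1 DD_rel theChain hμ, countable_atoms hft.1⟩

/-- existence of autocorrelation and diffraction measure in general -/
theorem exists_autocorr_diffraction {D γ x₀ : ℝ} (h0 : 0 < D) (h1 : D < 1) (hγ : Irrational γ)
    {p : ℤ → ℤ × ℤ} (hp : IsStaircase D γ x₀ p) :
    ∃ η μ : Measure ℝ, IsAutocorrelation (proj D '' range p) η ∧ IsFourierTransformOf η μ := by
  rw [image_eq hp]
  have hau := isAutocorr h0 h1 (addOrderOf_irr hγ) (x₀ : Circ)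
  obtain ⟨μ, hft, -⟩ := exists_diffraction h0 h1 (γ : Circ)
  exact ⟨eta D γ, μ, hau, hft⟩

/-- rational arc length -/
theorem rational_case {D γ x₀ : ℝ} (h0 : 0 < D) (h1 : D < 1) (hγ : Irrational γ)
    (hD : ∃ r : ℚ, (r : ℝ) = D) {p : ℤ → ℤ × ℤ} (hp : IsStaircase D γ x₀ p) :
    DiffractionCondition (proj D '' range p) := by
  obtain ⟨r, hr⟩ := hD
  rw [image_eq hp]
  have hk := kap_pos h0
  have hau := isAutocorr h0 h1 (addOrderOf_irr hγ) (x₀ : Circ)
  obtain ⟨μ, hft, hμ⟩ := exists_diffraction h0 h1 (γ : Circ)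
  refine ⟨eta D γ, μ, hau, hft, ?_, countable_atoms hft.1⟩
  have hden : (r.den : ℝ) ≠ 0 := by exact_mod_cast r.den_ne_zero
  have hinj : Function.Injective (fun i : ℤ => (i : ℝ) * r.den * kap D) := by
    intro i i' h
    simp only at h
    have := mul_right_cancel₀ hden (mul_right_cancel₀ hk.ne' h)
    exact_mod_cast this
  refine (infinite_range_of_injective hinj).mono ?_
  rintro _ ⟨i, rfl⟩
  apply hμ _ (fun _ => 1) measurable_const (fun _ => by simp)
  · refine Eventually.of_forall (fun x => ?_)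
    simp only [map_one, mul_one]
    have hn : (r.den : ℝ) * D = r.num := by
      rw [← hr]
      have := Rat.cast_def (K := ℝ) r
      rw [this]; field_simp
    have : (i : ℝ) * r.den * kap D * rr D x =
        ((if fr x < D then i * r.num else i * (r.den - r.num) : ℤ) : ℝ) := by
      unfold rr
      have hk' := hk.ne'
      split_ifs
      · push_cast; rw [← hn]; field_simp
      · push_cast; rw [← hn]; field_simp
    rw [this, ex_int]
  · simp [Measure.real]

lemma rational_not_kesten {D γ : ℝ} (h0 : 0 < D) (h1 : D < 1) (hγ : Irrational γ)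
    (hD : ∃ r : ℚ, (r : ℝ) = D) : ¬ Kesten D γ := by
  rintro ⟨j, l, h⟩
  obtain ⟨r, hr⟩ := hD
  by_cases hj : j = 0
  · subst hj
    simp only [Int.cast_zero, zero_mul, zero_add] at h
    rw [h] at h0 h1
    have e0 : (0 : ℤ) < l := by exact_mod_cast h0
    have e1 : l < (1 : ℤ) := by exact_mod_cast h1
    omega
  · apply hγ
    have hj' : (j : ℝ) ≠ 0 := by exact_mod_cast hj
    refine ⟨(r - l) / j, ?_⟩
    push_cast
    rw [hr, h]
    field_simp
    ring

end Pool.Agent.H382R3.KD
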